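import Pool.Agent.Helper10.K3.SysDefs

/-!
# Module D (MP_ed3816_nt): the involution near the curve `R = T`
-/

namespace KumWA

open Classical

variable {p : ℕ} [hp : Fact p.Prime]

namespace ModD

/-- perturbation avoiding a finite set -/
theorem near_avoid (h8 : p % 8 = 5) {d : ℚ_[p]} (hd : nd d) (B : Set (E d)) (hB : B.Finite)
    (P : E d) (n : ℕ) : ∃ P' : E d, P' ∉ B ∧ fil n (P' - P) := by
  by_contra hcon
  push Not at hcon
  choose h hh using fun m : ℕ => exists_lev h8 hd m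
  have hinj : Function.Injective (fun m : ℕ => P + h (n + m)) := by
    intro a b hab
    have hab' : h (n + a) = h (n + b) := add_left_cancel hab
    have h1 := (hh (n + a)).2
    have h2 := (hh (n + b)).2
    rw [hab', h2] at h1
    have h3 : (p : ℝ) ^ (n + b) = (p : ℝ) ^ (n + a) := inv_injective h1
    have h4 := pow_right_injective₀ (by linarith [one_lt_p (p := p)]) (one_lt_p (p := p)).ne' h3
    omega
  refine Set.infinite_of_injective_forall_mem hinj (s := B) (fun m => ?_) hB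
  by_contra hm
  refine hcon _ hm ?_
  have e : P + h (n + m) - P = h (n + m) := by abel
  rw [e]
  exact fil_mono (by omega) (hh (n + m)).1

/-- the points with given `x`-coordinate -/
theorem finite_xc {d : ℚ_[p]} (a : ℚ_[p]) : {P : E d | P ≠ 0 ∧ xc P = a}.Finite := by
  by_cases h : ∃ P₁ : E d, P₁ ≠ 0 ∧ xc P₁ = a
  · obtain ⟨P₁, h1, h2⟩ := h
    refine Set.Finite.subset (s := {P₁, -P₁}) (by simp) ?_
    rintro P ⟨h3, h4⟩
    have := (xc_eq_iff h3 h1).1 (by rw [h4, h2])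
    simpa using this
  · push Not at h
    refine Set.Finite.subset Set.finite_empty ?_
    rintro P ⟨h3, h4⟩
    exact absurd h4 (h P h3)

theorem norm_intCast_eq_one {c : ℤ} (hc : ¬ (p : ℤ) ∣ c) : ‖(c : ℚ_[p])‖ = 1 := by
  refine le_antisymm (Padic.norm_int_le_one c) ?_
  by_contra h
  push Not at h
  exact hc ((Padic.norm_intCast_lt_one_iff (k := c)).1 h)

end ModD

open ModD

theorem sig_RT (h8 : p % 8 = 5) {d : ℚ_[p]} (hd : nd d) (Q R : E d) (c : ℤ)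
    (hx : ‖xc Q / d - c‖ < 1) (hc : ¬ (p : ℤ) ∣ c) (hR : fil 0 (R + T (nd_ne hd))) (n : ℕ) :
    ∃ l₀ l' : Loc p, SigL l₀ l' ∧ LNear n l' ⟨d, hd, Q, R⟩ ∧
      ‖xc l₀.Q / l₀.d - ((-c - 4 : ℤ) : ℚ_[p])‖ < 1 ∧ fil 0 (l₀.R + T (nd_ne l₀.hd)) := by
  have hK := kHyp_padic h8
  have h2 := p_ne_two h8
  have hp1 := one_lt_p (p := p)
  have hd0 := nd_ne hd
  have hdn : 0 < ‖d‖ := norm_pos_iff.2 hd0
  set x := xc Q / d with hxdef
  have hcn := norm_intCast_eq_one hc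
  have hxn : ‖x‖ = 1 := by
    rw [neq_of_sub_lt (y := (c : ℚ_[p])) (by rw [hcn]; exact hx), hcn]
  have hx0 : x ≠ 0 := by
    rintro h
    rw [h, norm_zero] at hxn
    exact zero_ne_one hxn
  have hxQ : xc Q = x * d := by rw [hxdef]; field_simp
  have hxQ0 : xc Q ≠ 0 := by rw [hxQ]; exact mul_ne_zero hx0 hd0
  have hyQ : yc Q ≠ 0 := hK.yc_ne hd0 hxQ0
  -- `d` has norm `p⁻²`
  have hdn2 : ‖d‖ = ((p : ℝ) ^ 2)⁻¹ := by
    rcases hd with h | h
    · exfalso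
      obtain ⟨k, hk⟩ : ∃ k : ℤ, ‖xc Q‖ = (p : ℝ) ^ (2 * k) := by
        rcases hK.xc_cases (P := Q) hd0 with h' | h'
        · exact norm_of_isSquare hxQ0 h'
        · obtain ⟨k, hk⟩ := norm_of_isSquare (mul_ne_zero two_ne_zero hxQ0) h'
          rw [norm_mul, norm_two h2, one_mul] at hk
          exact ⟨k, hk⟩
      rw [hxQ, norm_mul, hxn, one_mul, h] at hk
      have h3 : (p : ℝ) ^ (-1 : ℤ) = (p : ℝ) ^ (2 * k) := by rw [← hk, zpow_neg_one]
      have h4 := zpow_right_injective₀ (by linarith) hp1.ne' h3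
      omega
    · exact h
  -- perturbation of `R`
  have hBfin : ({T hd0} ∪ {P : E d | P ≠ 0 ∧ xc P = -(x + 4) * d} : Set (E d)).Finite :=
    (Set.finite_singleton _).union (finite_xc _)
  obtain ⟨R', hR'B, hR'n⟩ := near_avoid h8 hd _ hBfin R n
  have hR'T : R' ≠ T hd0 := fun h => hR'B (Or.inl h)
  have hR'4 : ¬ (R' ≠ 0 ∧ xc R' = -(x + 4) * d) := fun h => hR'B (Or.inr h)
  have hok := nd_okl hd 0
  have hR'0 : fil 0 (R' + T hd0) := by
    have e : R' + T hd0 = (R' - R) + (R + T hd0) := by abel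
    rw [e]
    exact fil_add hok (fil_mono (Nat.zero_le n) hR'n) hR
  have hR'ne : R' ≠ 0 := by
    rintro rfl
    rw [zero_add] at hR'0
    rcases hR'0 with h | h
    · exact T_ne hd0 h
    · rw [xc_T, norm_zero] at h
      simp at h
      linarith
  obtain ⟨η, hη⟩ : ∃ η, η = R' + T hd0 := ⟨_, rfl⟩
  rw [← hη] at hR'0
  have hηne : η ≠ 0 := by
    rw [hη]
    exact (add_T hd0 hR'ne hR'T).1
  have hηx : 1 ≤ ‖xc η‖ := by
    rcases hR'0 with h | h
    · exact absurd h hηne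
    · simpa using h
  obtain ⟨-, hR'x, hηx2, -⟩ := add_T hd0 hR'ne hR'T
  rw [← hη] at hηx2
  have hyR' : yc R' ≠ 0 := hK.yc_ne hd0 hR'x
  -- the second coordinate
  set y := xc R' / d with hy
  have hxR : xc R' = y * d := by rw [hy]; field_simp
  have hy0 : y ≠ 0 := div_ne_zero hR'x hd0
  have hyn : ‖y‖ ≤ ‖d‖ := by
    have e : ‖xc η‖ * ‖y‖ = ‖d‖ := by
      rw [← norm_mul, hηx2, hxR]
      have : 2 * d ^ 2 / (y * d) * y = 2 * d := by field_simp
      rw [this, norm_mul, norm_two h2, one_mul]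
    rw [← e]
    exact le_mul_of_one_le_left (norm_nonneg _) hηx
  have hd1 := nd_lt hd
  have hyn1 : ‖y‖ < 1 := hyn.trans_lt hd1
  -- the involution is defined
  have hxle : ∀ k : ℚ_[p], ‖k‖ ≤ 1 → ‖k * x‖ ≤ 1 := by
    intro k hk
    rw [norm_mul, hxn, mul_one]
    exact hk
  have hsmall : ∀ k : ℚ_[p], ‖k‖ ≤ 1 → ‖k * y‖ < 1 := by
    intro k hk
    rw [norm_mul]
    exact lt_of_le_of_lt (mul_le_of_le_one_left (norm_nonneg _) hk) hyn1
  have hn4 : ‖(4 : ℚ_[p])‖ ≤ 1 := norm_ofNat_le_one 4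
  have hn2 : ‖(2 : ℚ_[p])‖ ≤ 1 := norm_ofNat_le_one 2
  have hDn : ‖Dn x y‖ = 1 := by
    have e : Dn x y = 2 * x + (4 * x + 2) * y := by unfold Dn; ring
    have h1 : ‖2 * x‖ = 1 := by rw [norm_mul, norm_two h2, hxn, one_mul]
    rw [e, nadd_eq, h1]
    rw [h1]
    exact hsmall _ (nadd_le (hxle 4 hn4) hn2)
  have hDn0 : Dn x y ≠ 0 := by
    intro h
    rw [h, norm_zero] at hDn
    exact zero_ne_one hDn
  have hs : x + y + 4 ≠ 0 := by
    intro h
    apply hR'4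
    refine ⟨hR'ne, ?_⟩
    rw [hxR]
    linear_combination d * h
  have hqn : qn x y ≠ 0 := by
    have h1 : ‖2 * x ^ 2‖ = 1 := by
      rw [norm_mul, norm_two h2, norm_pow, hxn, one_pow, one_mul]
    have e : qn x y = 2 * x ^ 2 + (-(2 * (6 * x)) + 2 * y) * y := by unfold qn; ring
    have h3 : ‖qn x y‖ = 1 := by
      rw [e, nadd_eq, h1]
      rw [h1]
      apply hsmall
      refine nadd_le ?_ ((norm_nat_mul_le 2 _).trans hyn1.le)
      rw [norm_neg]
      exact (norm_nat_mul_le 2 _).trans ((norm_nat_mul_le 6 _).trans hxn.le)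
    intro h
    rw [h, norm_zero] at h3
    exact zero_ne_one h3
  set u := mkPt hd0 Q R' hyQ hyR' with hu
  have hux : u.x = x := rfl
  have huy : u.y = y := rfl
  have hI : IOK u := by
    refine ⟨?_, ?_, ?_⟩
    · rw [hux, huy]; exact hDn0
    · rw [hux, huy]; exact hs
    · rw [hux, huy]; exact hqn
  obtain ⟨d₀, P₀, R₀, hd₀, hrep⟩ := exists_rep (iota u hI)
  refine ⟨⟨d₀, hd₀, P₀, R₀⟩, ⟨d, hd, Q, R'⟩, ?_, ?_, ?_, ?_⟩
  · refine SigL.symm ⟨u, hI, rep_mkPt hd0 hyQ hyR', hrep⟩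
  · refine ⟨Q, R', rfl, ?_, hR'n⟩
    change fil n (Q - Q)
    rw [sub_self]
    exact fil_zero' n
  · change ‖xc P₀ / d₀ - ((-c - 4 : ℤ) : ℚ_[p])‖ < 1
    have e1 : xc P₀ / d₀ = rho x y * x := by
      rw [← hrep.2.2.2.1, mul_div_cancel_right₀ _ hrep.1, iota_x, hux, huy]
    have e2 : xc P₀ / d₀ - ((-c - 4 : ℤ) : ℚ_[p]) =
        (-(2 * x * (x - c)) + (-(2 * x) + ((c : ℚ_[p]) + 4) * (4 * x + 2)) * y) / Dn x y := by
      rw [e1]
      unfold rho
      rw [eq_div_iff hDn0]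
      push_cast
      have e3 : (-2 * (x + y + 4) / Dn x y * x - (-(c : ℚ_[p]) - 4)) * Dn x y =
          -2 * (x + y + 4) * x + (c + 4) * Dn x y := by
        field_simp
        ring
      rw [e3]
      unfold Dn
      ring
    rw [e2, norm_div, hDn, div_one]
    apply nadd_lt
    · rw [norm_neg, norm_mul, norm_mul, norm_two h2, hxn, one_mul, one_mul]
      exact hx
    · apply hsmall
      refine nadd_le ?_ ?_
      · rw [norm_neg]
        exact hxle 2 hn2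
      · rw [norm_mul]
        have a1 : ‖(c : ℚ_[p]) + 4‖ ≤ 1 := nadd_le hcn.le hn4
        have a2 : ‖4 * x + 2‖ ≤ 1 := nadd_le (hxle 4 hn4) hn2
        calc ‖(c : ℚ_[p]) + 4‖ * ‖4 * x + 2‖ ≤ 1 * 1 := by gcongr
          _ = 1 := by norm_num
  · change fil 0 (R₀ + T (nd_ne hd₀))
    obtain ⟨-, -, hR₀, -, hy₀, -⟩ := id hrep
    have hyR₀ := hrep.yc_ne.2
    have hxR₀ : xc R₀ ≠ 0 := xc_ne_of_yc hyR₀
    have hR₀T : R₀ ≠ T (nd_ne hd₀) := by
      intro h
      exact hxR₀ (by rw [h, xc_T])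
    obtain ⟨-, -, e1, -⟩ := add_T (nd_ne hd₀) hR₀ hR₀T
    right
    rw [mul_zero, pow_zero, e1, norm_div, norm_mul, norm_two h2, one_mul, norm_pow]
    have e2 : ‖xc R₀‖ ≤ ‖d‖ * ‖d₀‖ := by
      rw [← hy₀, norm_mul, iota_y, hux, huy, norm_mul]
      have hrho : ‖rho x y‖ ≤ 1 := by
        unfold rho
        rw [norm_div, hDn, div_one, norm_mul, norm_neg, norm_two h2, one_mul]
        exact nadd_le (nadd_le hxn.le hyn1.le) hn4
      have : ‖rho x y‖ * ‖y‖ ≤ ‖d‖ := by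
        calc ‖rho x y‖ * ‖y‖ ≤ 1 * ‖y‖ := by gcongr
          _ ≤ ‖d‖ := by rw [one_mul]; exact hyn
      gcongr
    have e3 : ‖d‖ ≤ ‖d₀‖ := by
      rw [hdn2]
      rcases hd₀ with h | h
      · rw [h]
        apply inv_anti₀ (by positivity)
        nlinarith
      · exact h.ge
    have hxp : 0 < ‖xc R₀‖ := norm_pos_iff.2 hxR₀
    have hd₀p : 0 < ‖d₀‖ := norm_pos_iff.2 (nd_ne hd₀)
    rw [le_div_iff₀ hxp, one_mul]
    calc ‖xc R₀‖ ≤ ‖d‖ * ‖d₀‖ := e2
      _ ≤ ‖d₀‖ * ‖d₀‖ := by gcongr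
      _ = ‖d₀‖ ^ 2 := by ring

end KumWA
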