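import Mathlib

/-!
Definability in contexts, for proving sets first-order definable without handling syntax.
-/

open FirstOrder

namespace Pool.Agent.Helper78.DefLib

/-- A context: a type whose elements give values to finitely many variables. -/
class Ctx (M : Type) (Γ : Type) where
  n : ℕ
  e : Γ → Fin n → M

instance ctxUnit (M : Type) : Ctx M Unit := ⟨0, fun _ i => i.elim0⟩

instance ctxProd (M Γ : Type) [Ctx M Γ] : Ctx M (Γ × M) :=
  ⟨Ctx.n M Γ + 1, fun p => Fin.snoc (α := fun _ => M) (Ctx.e p.1) p.2⟩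

variable (L : FirstOrder.Language.{0, 0}) {M : Type} [L.Structure M] {Γ : Type} [Ctx M Γ]

/-- `f` is given by a term -/
def T (f : Γ → M) : Prop :=
  ∃ t : L.Term (Empty ⊕ Fin (Ctx.n M Γ)), ∀ γ : Γ,
    t.realize (Sum.elim (fun x : Empty => x.elim) (Ctx.e γ)) = f γ

variable (M) in
/-- `P` is given by a formula -/
def D (P : Γ → Prop) : Prop :=
  ∃ φ : L.BoundedFormula Empty (Ctx.n M Γ), ∀ γ : Γ,
    φ.Realize (fun x : Empty => (x.elim : M)) (Ctx.e γ) ↔ P γ

variable {L}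

theorem T.snd : T L (fun p : Γ × M => p.2) :=
  ⟨FirstOrder.Language.Term.var (Sum.inr (Fin.last _)), fun p => by
    simp only [FirstOrder.Language.Term.realize_var, Sum.elim_inr]
    exact Fin.snoc_last (α := fun _ => M) _ _⟩

theorem T.fst {f : Γ → M} (hf : T L f) : T L (fun p : Γ × M => f p.1) := by
  obtain ⟨t, ht⟩ := hf
  refine ⟨t.relabel (Sum.map id Fin.castSucc), fun p => ?_⟩
  rw [FirstOrder.Language.Term.realize_relabel]
  refine Eq.trans ?_ (ht p.1)
  congr 1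
  funext i
  rcases i with i | i
  · exact i.elim
  · simp only [Function.comp, Sum.map_inr, Sum.elim_inr]
    exact Fin.snoc_castSucc (α := fun _ => M) _ _ _

theorem T.const {f : Γ → M} (c : L.Functions 0)
    (h : ∀ γ, FirstOrder.Language.Structure.funMap c (fun i => i.elim0) = f γ) : T L f := by
  refine ⟨FirstOrder.Language.Term.func c (fun i => i.elim0), fun γ => ?_⟩
  rw [FirstOrder.Language.Term.realize_func, ← h γ]
  congr 1
  funext i
  exact i.elim0

theorem T.func2 {f g h : Γ → M} (hf : T L f) (hg : T L g) (m : L.Functions 2)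
    (hm : ∀ γ, FirstOrder.Language.Structure.funMap m ![f γ, g γ] = h γ) : T L h := by
  obtain ⟨t, ht⟩ := hf
  obtain ⟨s, hs⟩ := hg
  refine ⟨FirstOrder.Language.Term.func m ![t, s], fun γ => ?_⟩
  rw [FirstOrder.Language.Term.realize_func, ← hm γ]
  congr 1
  funext i
  fin_cases i
  · exact ht γ
  · exact hs γ

theorem D.congr {P Q : Γ → Prop} (hP : D L M P) (h : ∀ γ, P γ ↔ Q γ) : D L M Q := by
  obtain ⟨φ, hφ⟩ := hP
  exact ⟨φ, fun γ => (hφ γ).trans (h γ)⟩

theorem D.eq {f g : Γ → M} (hf : T L f) (hg : T L g) : D L M (fun γ => f γ = g γ) := by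
  obtain ⟨t, ht⟩ := hf
  obtain ⟨s, hs⟩ := hg
  refine ⟨t.bdEqual s, fun γ => ?_⟩
  rw [FirstOrder.Language.BoundedFormula.realize_bdEqual]
  rw [ht γ, hs γ]

theorem D.imp {P Q : Γ → Prop} (hP : D L M P) (hQ : D L M Q) :
    D L M (fun γ => P γ → Q γ) := by
  obtain ⟨φ, hφ⟩ := hP
  obtain ⟨ψ, hψ⟩ := hQ
  refine ⟨φ.imp ψ, fun γ => ?_⟩
  rw [FirstOrder.Language.BoundedFormula.realize_imp, hφ, hψ]

theorem D.false : D L M (fun _ : Γ => False) :=
  ⟨⊥, fun γ => by rw [FirstOrder.Language.BoundedFormula.realize_bot]⟩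

theorem D.not {P : Γ → Prop} (hP : D L M P) : D L M (fun γ => ¬ P γ) :=
  D.imp hP D.false

theorem D.true : D L M (fun _ : Γ => True) :=
  D.congr (D.not D.false) (fun _ => by simp)

theorem D.const (p : Prop) : D L M (fun _ : Γ => p) := by
  by_cases h : p
  · exact D.congr D.true (fun _ => by simp [h])
  · exact D.congr D.false (fun _ => by simp [h])

theorem D.and {P Q : Γ → Prop} (hP : D L M P) (hQ : D L M Q) :
    D L M (fun γ => P γ ∧ Q γ) :=
  D.congr (D.not (D.imp hP (D.not hQ))) (fun γ => by tauto)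

theorem D.or {P Q : Γ → Prop} (hP : D L M P) (hQ : D L M Q) :
    D L M (fun γ => P γ ∨ Q γ) :=
  D.congr (D.imp (D.not hP) hQ) (fun γ => by tauto)

theorem D.iff {P Q : Γ → Prop} (hP : D L M P) (hQ : D L M Q) :
    D L M (fun γ => P γ ↔ Q γ) :=
  D.congr (D.and (D.imp hP hQ) (D.imp hQ hP)) (fun γ => by tauto)

theorem D.all {P : Γ → M → Prop} (hP : D L M (fun p : Γ × M => P p.1 p.2)) :
    D L M (fun γ => ∀ x, P γ x) := by
  obtain ⟨φ, hφ⟩ := hP
  refine ⟨FirstOrder.Language.BoundedFormula.all φ, fun γ => ?_⟩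
  rw [FirstOrder.Language.BoundedFormula.realize_all]
  exact forall_congr' fun x => hφ (γ, x)

theorem D.ex {P : Γ → M → Prop} (hP : D L M (fun p : Γ × M => P p.1 p.2)) :
    D L M (fun γ => ∃ x, P γ x) :=
  D.congr (D.not (D.all (P := fun γ x => ¬ P γ x) (D.not hP))) (fun γ => by push Not; rfl)

/-- `f` is the value of a variable -/
def IsVar (M : Type) {Γ : Type} [Ctx M Γ] (f : Γ → M) : Prop :=
  ∃ i : Fin (Ctx.n M Γ), ∀ γ : Γ, Ctx.e γ i = f γ

theorem IsVar.snd : IsVar M (fun p : Γ × M => p.2) :=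
  ⟨Fin.last _, fun _ => Fin.snoc_last (α := fun _ => M) _ _⟩

theorem IsVar.fst {f : Γ → M} (hf : IsVar M f) : IsVar M (fun p : Γ × M => f p.1) := by
  obtain ⟨i, hi⟩ := hf
  exact ⟨i.castSucc, fun p => (Fin.snoc_castSucc (α := fun _ => M) _ _ _).trans (hi p.1)⟩

/-- a renaming of variables -/
def Ren (M : Type) {Γ Γ' : Type} [Ctx M Γ] [Ctx M Γ'] (r : Γ' → Γ) : Prop :=
  ∀ i : Fin (Ctx.n M Γ), IsVar M (fun γ' : Γ' => Ctx.e (r γ') i)

theorem Ren.unit {Γ' : Type} [Ctx M Γ'] (r : Γ' → Unit) : Ren M r := fun i => i.elim0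

theorem Ren.id : Ren M (fun γ : Γ => γ) := fun i => ⟨i, fun _ => rfl⟩

theorem Ren.prod {Γ' : Type} [Ctx M Γ'] {r : Γ' → Γ} (hr : Ren M r) {f : Γ' → M}
    (hf : IsVar M f) : Ren M (fun γ' => ((r γ', f γ') : Γ × M)) := by
  intro i
  refine Fin.lastCases ?_ (fun j => ?_) i
  · obtain ⟨k, hk⟩ := hf
    exact ⟨k, fun γ' => (hk γ').trans (Fin.snoc_last (α := fun _ => M) _ _).symm⟩
  · obtain ⟨k, hk⟩ := hr j
    exact ⟨k, fun γ' => (hk γ').trans (Fin.snoc_castSucc (α := fun _ => M) _ _ _).symm⟩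

theorem Ren.fst {Γ' : Type} [Ctx M Γ'] {r : Γ' → Γ} (hr : Ren M r) :
    Ren M (fun p : Γ' × M => r p.1) :=
  fun i => (hr i).fst

theorem D.rename {Γ' : Type} [Ctx M Γ'] {r : Γ' → Γ} (hr : Ren M r) {P : Γ → Prop}
    (hP : D L M P) : D L M (fun γ' => P (r γ')) := by
  obtain ⟨φ, hφ⟩ := hP
  choose k hk using hr
  refine ⟨FirstOrder.Language.BoundedFormula.relabel (n := Ctx.n M Γ') (k := 0)
    (Sum.elim (fun x : Empty => x.elim) (fun i => (Sum.inr (k i) : Empty ⊕ Fin _)))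
    φ.toFormula, fun γ' => ?_⟩
  refine (FirstOrder.Language.BoundedFormula.realize_relabel
    (φ := φ.toFormula) (n := 0)).trans ?_
  refine Iff.trans ?_ (hφ (r γ'))
  have h := FirstOrder.Language.BoundedFormula.realize_toFormula φ
    (Sum.elim (fun x : Empty => (x.elim : M)) (Ctx.e (r γ')))
  rw [FirstOrder.Language.Formula.Realize] at h
  simp only [Sum.elim_comp_inl, Sum.elim_comp_inr] at h
  rw [← h]
  have e1 : (Sum.elim (fun x : Empty => (x.elim : M))
      ((Ctx.e γ' : Fin (Ctx.n M Γ' + 0) → M) ∘ Fin.castAdd 0) ∘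
      Sum.elim (fun x : Empty => x.elim) (fun i => (Sum.inr (k i) : Empty ⊕ Fin _))) =
      Sum.elim (fun x : Empty => (x.elim : M)) (Ctx.e (r γ')) := by
    funext x
    rcases x with x | x
    · exact x.elim
    · exact hk x γ'
  exact iff_of_eq (congrArg₂ (FirstOrder.Language.BoundedFormula.Realize φ.toFormula) e1
    (Subsingleton.elim _ _))

/-- contexts given by tuples -/
instance ctxPi (M : Type) (n : ℕ) : Ctx M (Fin n → M) := ⟨n, fun v => v⟩

theorem D.all_pi {n : ℕ} {P : (Fin (n + 1) → M) → Prop} (hP : D L M P) :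
    D L M (fun v : Fin n → M => ∀ x, P (Fin.snoc (α := fun _ => M) v x)) := by
  obtain ⟨φ, hφ⟩ := hP
  refine ⟨FirstOrder.Language.BoundedFormula.all φ, fun γ => ?_⟩
  rw [FirstOrder.Language.BoundedFormula.realize_all]
  exact forall_congr' fun x => hφ _

end Pool.Agent.Helper78.DefLib
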