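import Mathlib
import Pool.Agent.Helper78.DefLib

/-!
Every computable partially defined function has a graph in every class of relations on `ℕ` that contains
the graphs of addition and multiplication and is closed under the first-order operations.
-/

namespace Pool.Agent.Helper78.DefLib

/-- A class of predicates on contexts of natural numbers closed under first-order operations
and containing the graph of addition. -/
structure AddSys (D : ∀ (Γ : Type) [Ctx ℕ Γ], (Γ → Prop) → Prop) : Prop where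
  bot : ∀ (Γ : Type) [Ctx ℕ Γ], D Γ (fun _ => False)
  imp : ∀ {Γ : Type} [Ctx ℕ Γ] {P Q : Γ → Prop}, D Γ P → D Γ Q → D Γ (fun γ => P γ → Q γ)
  all : ∀ {Γ : Type} [Ctx ℕ Γ] {P : Γ → ℕ → Prop},
    D (Γ × ℕ) (fun p => P p.1 p.2) → D Γ (fun γ => ∀ x, P γ x)
  rename : ∀ {Γ Γ' : Type} [Ctx ℕ Γ] [Ctx ℕ Γ'] {r : Γ' → Γ}, Ren ℕ r →
    ∀ {P : Γ → Prop}, D Γ P → D Γ' (fun γ' => P (r γ'))
  eq : ∀ {Γ : Type} [Ctx ℕ Γ] {f g : Γ → ℕ}, IsVar ℕ f → IsVar ℕ g →
    D Γ (fun γ => f γ = g γ)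
  add : ∀ {Γ : Type} [Ctx ℕ Γ] {f g h : Γ → ℕ}, IsVar ℕ f → IsVar ℕ g → IsVar ℕ h →
    D Γ (fun γ => f γ + g γ = h γ)

/-- A class of predicates on contexts of natural numbers closed under first-order operations
and containing the graphs of addition and multiplication. -/
structure ArithSys (D : ∀ (Γ : Type) [Ctx ℕ Γ], (Γ → Prop) → Prop) : Prop extends AddSys D where
  mul : ∀ {Γ : Type} [Ctx ℕ Γ] {f g h : Γ → ℕ}, IsVar ℕ f → IsVar ℕ g → IsVar ℕ h →
    D Γ (fun γ => f γ * g γ = h γ)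

namespace AddSys

variable {D : ∀ (Γ : Type) [Ctx ℕ Γ], (Γ → Prop) → Prop} (S : AddSys D)
  {Γ : Type} [Ctx ℕ Γ]

include S

omit S in
theorem congr_aux {P Q : Γ → Prop} (hP : D Γ P) (h : ∀ γ, P γ ↔ Q γ) : D Γ Q := by
  have : P = Q := funext fun γ => propext (h γ)
  rwa [← this]

set_option linter.unusedSectionVars false in
theorem congr {P Q : Γ → Prop} (hP : D Γ P) (h : ∀ γ, P γ ↔ Q γ) : D Γ Q := by
  have : P = Q := funext fun γ => propext (h γ)
  rwa [← this]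

theorem not {P : Γ → Prop} (hP : D Γ P) : D Γ (fun γ => ¬ P γ) := S.imp hP (S.bot Γ)

theorem and {P Q : Γ → Prop} (hP : D Γ P) (hQ : D Γ Q) : D Γ (fun γ => P γ ∧ Q γ) :=
  S.congr (S.not (S.imp hP (S.not hQ))) (fun γ => by tauto)

theorem or {P Q : Γ → Prop} (hP : D Γ P) (hQ : D Γ Q) : D Γ (fun γ => P γ ∨ Q γ) :=
  S.congr (S.imp (S.not hP) hQ) (fun γ => by tauto)

theorem iff {P Q : Γ → Prop} (hP : D Γ P) (hQ : D Γ Q) : D Γ (fun γ => P γ ↔ Q γ) :=
  S.congr (S.and (S.imp hP hQ) (S.imp hQ hP)) (fun γ => by tauto)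

theorem ex {P : Γ → ℕ → Prop} (hP : D (Γ × ℕ) (fun p => P p.1 p.2)) :
    D Γ (fun γ => ∃ x, P γ x) :=
  S.congr (S.not (S.all (P := fun γ x => ¬ P γ x) (S.not hP))) (fun γ => by push Not; rfl)

theorem weaken {P : Γ → Prop} (hP : D Γ P) : D (Γ × ℕ) (fun p => P p.1) :=
  S.rename (r := fun p : Γ × ℕ => p.1) (Ren.fst Ren.id) hP

end AddSys

/-- definable functions -/
def DF (D : ∀ (Γ : Type) [Ctx ℕ Γ], (Γ → Prop) → Prop) {Γ : Type} [Ctx ℕ Γ] (f : Γ → ℕ) : Prop :=
  D (Γ × ℕ) (fun p => p.2 = f p.1)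

namespace AddSys

variable {D : ∀ (Γ : Type) [Ctx ℕ Γ], (Γ → Prop) → Prop} (S : AddSys D)
  {Γ : Type} [Ctx ℕ Γ]

include S

theorem df_var {f : Γ → ℕ} (hf : IsVar ℕ f) : DF D f := S.eq IsVar.snd hf.fst

theorem df_weaken {f : Γ → ℕ} (hf : DF D f) : DF D (fun p : Γ × ℕ => f p.1) :=
  S.rename (r := fun q : (Γ × ℕ) × ℕ => ((q.1.1, q.2) : Γ × ℕ))
    (Ren.prod (Ren.fst (Ren.fst Ren.id)) IsVar.snd) hf

theorem subst {P : Γ → ℕ → Prop} (hP : D (Γ × ℕ) (fun p => P p.1 p.2)) {f : Γ → ℕ}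
    (hf : DF D f) : D Γ (fun γ => P γ (f γ)) :=
  S.congr (S.ex (P := fun γ y => y = f γ ∧ P γ y) (S.and hf hP)) (fun γ => by simp)

/-- application of a definable unary relation -/
theorem rel1 {R : ℕ → Prop} (hR : D (Unit × ℕ) (fun p => R p.2)) {f : Γ → ℕ} (hf : DF D f) :
    D Γ (fun γ => R (f γ)) :=
  S.subst (P := fun _ y => R y)
    (S.rename (r := fun p : Γ × ℕ => (((), p.2) : Unit × ℕ))
      (Ren.prod (Ren.unit _) IsVar.snd) hR) hf

/-- application of a definable binary relation -/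
theorem rel2 {R : ℕ → ℕ → Prop} (hR : D ((Unit × ℕ) × ℕ) (fun p => R p.1.2 p.2))
    {f g : Γ → ℕ} (hf : DF D f) (hg : DF D g) : D Γ (fun γ => R (f γ) (g γ)) := by
  refine S.subst (P := fun γ x => R x (g γ)) ?_ hf
  refine S.subst (Γ := Γ × ℕ) (P := fun p y => R p.2 y) ?_ (S.df_weaken hg)
  exact S.rename (r := fun p : (Γ × ℕ) × ℕ => ((((), p.1.2), p.2) : (Unit × ℕ) × ℕ))
    (Ren.prod (Ren.prod (Ren.unit _) IsVar.snd.fst) IsVar.snd) hR

/-- application of a definable ternary relation -/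
theorem rel3 {R : ℕ → ℕ → ℕ → Prop}
    (hR : D (((Unit × ℕ) × ℕ) × ℕ) (fun p => R p.1.1.2 p.1.2 p.2))
    {f g h : Γ → ℕ} (hf : DF D f) (hg : DF D g) (hh : DF D h) :
    D Γ (fun γ => R (f γ) (g γ) (h γ)) := by
  refine S.subst (P := fun γ x => R x (g γ) (h γ)) ?_ hf
  refine S.subst (Γ := Γ × ℕ) (P := fun p y => R p.2 y (h p.1)) ?_ (S.df_weaken hg)
  refine S.subst (Γ := (Γ × ℕ) × ℕ) (P := fun p z => R p.1.2 p.2 z) ?_
    (S.df_weaken (S.df_weaken hh))
  exact S.rename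
    (r := fun p : ((Γ × ℕ) × ℕ) × ℕ => (((((), p.1.1.2), p.1.2), p.2) : ((Unit × ℕ) × ℕ) × ℕ))
    (Ren.prod (Ren.prod (Ren.prod (Ren.unit _) IsVar.snd.fst.fst) IsVar.snd.fst) IsVar.snd) hR

/-- application of a definable unary function -/
theorem fun1 {F : ℕ → ℕ} (hF : D ((Unit × ℕ) × ℕ) (fun p => p.2 = F p.1.2)) {f : Γ → ℕ}
    (hf : DF D f) : DF D (fun γ => F (f γ)) :=
  S.rel2 (R := fun x y => y = F x) hF (S.df_weaken hf) (S.df_var IsVar.snd)

/-- application of a definable binary function -/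
theorem fun2 {F : ℕ → ℕ → ℕ}
    (hF : D (((Unit × ℕ) × ℕ) × ℕ) (fun p => p.2 = F p.1.1.2 p.1.2)) {f g : Γ → ℕ}
    (hf : DF D f) (hg : DF D g) : DF D (fun γ => F (f γ) (g γ)) :=
  S.rel3 (R := fun x y z => z = F x y) hF (S.df_weaken hf) (S.df_weaken hg)
    (S.df_var IsVar.snd)

theorem eq' {f g : Γ → ℕ} (hf : DF D f) (hg : DF D g) : D Γ (fun γ => f γ = g γ) :=
  S.rel2 (R := fun x y => x = y) (S.eq IsVar.snd.fst IsVar.snd) hf hg

theorem df_add {f g : Γ → ℕ} (hf : DF D f) (hg : DF D g) : DF D (fun γ => f γ + g γ) :=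
  S.fun2 (F := fun x y => x + y)
    (S.congr (S.add IsVar.snd.fst.fst IsVar.snd.fst IsVar.snd) (fun _ => eq_comm)) hf hg

theorem df_zero : DF D (fun _ : Γ => 0) :=
  S.congr (S.add IsVar.snd IsVar.snd IsVar.snd) (fun p => by dsimp only; constructor <;> omega)

theorem le {f g : Γ → ℕ} (hf : DF D f) (hg : DF D g) : D Γ (fun γ => f γ ≤ g γ) :=
  S.rel2 (R := fun x y => x ≤ y)
    (S.congr (S.ex (P := fun (p : (Unit × ℕ) × ℕ) z => p.1.2 + z = p.2)
      (S.add IsVar.snd.fst.fst IsVar.snd IsVar.snd.fst))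
      (fun p => ⟨fun ⟨z, hz⟩ => by omega, fun h => ⟨p.2 - p.1.2, by omega⟩⟩)) hf hg

theorem lt {f g : Γ → ℕ} (hf : DF D f) (hg : DF D g) : D Γ (fun γ => f γ < g γ) :=
  S.congr (S.not (S.le hg hf)) (fun _ => not_le)

theorem df_one : DF D (fun _ : Γ => 1) := by
  refine S.congr (S.and (S.not (S.eq' (S.df_var IsVar.snd) S.df_zero))
    (S.all (P := fun (p : Γ × ℕ) z => z ≠ 0 → p.2 ≤ z) ?_)) (fun p => ?_)
  · exact S.imp (S.not (S.eq' (S.df_var IsVar.snd) S.df_zero))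
      (S.le (S.df_var IsVar.snd.fst) (S.df_var IsVar.snd))
  · dsimp only
    constructor
    · rintro ⟨h1, h2⟩
      have := h2 1 one_ne_zero
      omega
    · intro h
      rw [h]
      exact ⟨one_ne_zero, fun z hz => Nat.one_le_iff_ne_zero.2 hz⟩

theorem df_const (k : ℕ) : DF D (fun _ : Γ => k) := by
  induction k with
  | zero => exact S.df_zero
  | succ k ih => exact S.df_add ih S.df_one

/-- multiplication from divisibility -/
theorem mul_of_dvd
    (hdvd : ∀ {Γ : Type} [Ctx ℕ Γ] {f g : Γ → ℕ}, IsVar ℕ f → IsVar ℕ g →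
      D Γ (fun γ => f γ ∣ g γ)) {f g h : Γ → ℕ} (hf : IsVar ℕ f) (hg : IsVar ℕ g)
    (hh : IsVar ℕ h) : D Γ (fun γ => f γ * g γ = h γ) := by
  have hdvd' : ∀ {Γ : Type} [Ctx ℕ Γ] {f g : Γ → ℕ}, DF D f → DF D g →
      D Γ (fun γ => f γ ∣ g γ) := fun hf hg =>
    S.rel2 (R := fun x y => x ∣ y) (hdvd IsVar.snd.fst IsVar.snd) hf hg
  -- `n * (n + 1)`
  have hsq1 : D ((Unit × ℕ) × ℕ) (fun p => p.2 = p.1.2 * (p.1.2 + 1)) := by
    have hn : DF D (fun p : (Unit × ℕ) × ℕ => p.1.2) := S.df_var IsVar.snd.fst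
    have hy : DF D (fun p : (Unit × ℕ) × ℕ => p.2) := S.df_var IsVar.snd
    have hn' : DF D (fun p : ((Unit × ℕ) × ℕ) × ℕ => p.1.1.2) := S.df_var IsVar.snd.fst.fst
    have hy' : DF D (fun p : ((Unit × ℕ) × ℕ) × ℕ => p.1.2) := S.df_var IsVar.snd.fst
    have hz' : DF D (fun p : ((Unit × ℕ) × ℕ) × ℕ => p.2) := S.df_var IsVar.snd
    refine S.congr (S.or (S.and (S.eq' hn S.df_zero) (S.eq' hy S.df_zero))
      (S.and (S.not (S.eq' hn S.df_zero)) (S.and (S.not (S.eq' hy S.df_zero))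
        (S.and (hdvd' hn hy) (S.and (hdvd' (S.df_add hn S.df_one) hy)
          (S.all (P := fun (p : (Unit × ℕ) × ℕ) z => z ≠ 0 → p.1.2 ∣ z → (p.1.2 + 1) ∣ z →
            p.2 ≤ z) (S.imp (S.not (S.eq' hz' S.df_zero)) (S.imp (hdvd' hn' hz')
              (S.imp (hdvd' (S.df_add hn' S.df_one) hz') (S.le hy' hz'))))))))))
      (fun p => ?_)
    set n := p.1.2
    set y := p.2
    have hcop : Nat.Coprime n (n + 1) := by simp
    constructor
    · rintro (⟨h1, h2⟩ | ⟨h1, h2, h3, h4, h5⟩)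
      · rw [h1, h2]
      · have h6 : n * (n + 1) ∣ y := hcop.mul_dvd_of_dvd_of_dvd h3 h4
        have h7 := h5 (n * (n + 1)) (Nat.mul_ne_zero h1 (by omega)) (dvd_mul_right _ _)
          (dvd_mul_left _ _)
        exact le_antisymm h7 (Nat.le_of_dvd (by omega) h6)
    · intro h
      rcases Nat.eq_zero_or_pos n with h0 | h0
      · left; rw [h, h0]; simp
      · right
        refine ⟨by omega, ?_, ?_, ?_, ?_⟩
        · rw [h]; exact Nat.mul_ne_zero (by omega) (by omega)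
        · rw [h]; exact dvd_mul_right _ _
        · rw [h]; exact dvd_mul_left _ _
        · intro z hz h1 h2
          rw [h]
          exact Nat.le_of_dvd (by omega) (hcop.mul_dvd_of_dvd_of_dvd h1 h2)
  -- squares
  have hsq : ∀ {Γ : Type} [Ctx ℕ Γ] {f g : Γ → ℕ}, DF D f → DF D g →
      D Γ (fun γ => g γ = f γ * f γ) := by
    intro Γ _ f g hf hg
    refine S.congr (S.rel2 (R := fun x y => y = x * (x + 1)) hsq1 hf (S.df_add hg hf))
      (fun γ => ?_)
    rw [mul_add, mul_one]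
    omega
  -- the product
  have hf1 := S.df_weaken (S.df_weaken (S.df_weaken (S.df_var hf)))
  have hg1 := S.df_weaken (S.df_weaken (S.df_weaken (S.df_var hg)))
  have hh1 := S.df_weaken (S.df_weaken (S.df_weaken (S.df_var hh)))
  have v0 : DF D (fun p : ((Γ × ℕ) × ℕ) × ℕ => p.2) := S.df_var IsVar.snd
  have v1 : DF D (fun p : ((Γ × ℕ) × ℕ) × ℕ => p.1.2) := S.df_var IsVar.snd.fst
  have v2 : DF D (fun p : ((Γ × ℕ) × ℕ) × ℕ => p.1.1.2) := S.df_var IsVar.snd.fst.fst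
  refine S.congr (S.ex (P := fun γ s => ∃ t r, s = (f γ + g γ) * (f γ + g γ) ∧ t = f γ * f γ ∧
      r = g γ * g γ ∧ s = t + r + h γ + h γ)
    (S.ex (P := fun (p : Γ × ℕ) t => ∃ r, p.2 = (f p.1 + g p.1) * (f p.1 + g p.1) ∧
      t = f p.1 * f p.1 ∧ r = g p.1 * g p.1 ∧ p.2 = t + r + h p.1 + h p.1)
    (S.ex (P := fun (p : (Γ × ℕ) × ℕ) r => p.1.2 = (f p.1.1 + g p.1.1) * (f p.1.1 + g p.1.1) ∧
      p.2 = f p.1.1 * f p.1.1 ∧ r = g p.1.1 * g p.1.1 ∧
      p.1.2 = p.2 + r + h p.1.1 + h p.1.1)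
    (S.and (hsq (S.df_add hf1 hg1) v2) (S.and (hsq hf1 v1) (S.and (hsq hg1 v0)
      (S.eq' v2 (S.df_add (S.df_add (S.df_add v1 v0) hh1) hh1)))))))) (fun γ => ?_)
  constructor
  · rintro ⟨s, t, r, rfl, rfl, rfl, h4⟩
    nlinarith
  · intro h4
    refine ⟨_, _, _, rfl, rfl, rfl, ?_⟩
    rw [← h4]; ring

end AddSys

namespace ArithSys

variable {D : ∀ (Γ : Type) [Ctx ℕ Γ], (Γ → Prop) → Prop} (S : ArithSys D)
  {Γ : Type} [Ctx ℕ Γ]

include S

theorem df_mul {f g : Γ → ℕ} (hf : DF D f) (hg : DF D g) : DF D (fun γ => f γ * g γ) :=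
  S.fun2 (F := fun x y => x * y)
    (S.congr (S.mul IsVar.snd.fst.fst IsVar.snd.fst IsVar.snd) (fun _ => eq_comm)) hf hg

theorem df_pair {f g : Γ → ℕ} (hf : DF D f) (hg : DF D g) :
    DF D (fun γ => Nat.pair (f γ) (g γ)) := by
  have hf' := S.df_weaken hf
  have hg' := S.df_weaken hg
  have hz : DF D (fun p : Γ × ℕ => p.2) := S.df_var IsVar.snd
  refine S.congr (S.or
    (S.and (S.lt hf' hg') (S.eq' hz (S.df_add (S.df_mul hg' hg') hf')))
    (S.and (S.not (S.lt hf' hg')) (S.eq' hz (S.df_add (S.df_add (S.df_mul hf' hf') hf') hg'))))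
    (fun p => ?_)
  dsimp only
  unfold Nat.pair
  split_ifs with h
  · simp [h]
  · simp [h]

theorem df_left {f : Γ → ℕ} (hf : DF D f) : DF D (fun γ => (Nat.unpair (f γ)).1) := by
  refine S.congr (S.ex (P := fun (p : Γ × ℕ) z => f p.1 = Nat.pair p.2 z)
    (S.eq' (S.df_weaken (S.df_weaken hf))
      (S.df_pair (S.df_var IsVar.snd.fst) (S.df_var IsVar.snd)))) (fun p => ?_)
  dsimp only
  constructor
  · rintro ⟨z, hz⟩; rw [hz, Nat.unpair_pair]
  · intro h; exact ⟨(Nat.unpair (f p.1)).2, by rw [h, Nat.pair_unpair]⟩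

theorem df_right {f : Γ → ℕ} (hf : DF D f) : DF D (fun γ => (Nat.unpair (f γ)).2) := by
  refine S.congr (S.ex (P := fun (p : Γ × ℕ) z => f p.1 = Nat.pair z p.2)
    (S.eq' (S.df_weaken (S.df_weaken hf))
      (S.df_pair (S.df_var IsVar.snd) (S.df_var IsVar.snd.fst)))) (fun p => ?_)
  dsimp only
  constructor
  · rintro ⟨z, hz⟩; rw [hz, Nat.unpair_pair]
  · intro h; exact ⟨(Nat.unpair (f p.1)).1, by rw [h, Nat.pair_unpair]⟩

theorem df_mod {f g : Γ → ℕ} (hf : DF D f) (hg : DF D g) : DF D (fun γ => f γ % g γ) := by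
  have hf' := S.df_weaken hf
  have hg' := S.df_weaken hg
  have hz : DF D (fun p : Γ × ℕ => p.2) := S.df_var IsVar.snd
  refine S.congr (S.or (S.and (S.eq' hg' S.df_zero) (S.eq' hz hf'))
    (S.and (S.lt hz hg') (S.ex (P := fun (p : Γ × ℕ) q => f p.1 = g p.1 * q + p.2)
      (S.eq' (S.df_weaken hf') (S.df_add (S.df_mul (S.df_weaken hg') (S.df_var IsVar.snd))
        (S.df_var IsVar.snd.fst)))))) (fun p => ?_)
  dsimp only
  constructor
  · rintro (⟨h1, h2⟩ | ⟨h1, q, h2⟩)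
    · rw [h1, Nat.mod_zero, h2]
    · rw [h2, Nat.mul_add_mod, Nat.mod_eq_of_lt h1]
  · intro h
    rcases Nat.eq_zero_or_pos (g p.1) with h0 | h0
    · left; rw [h0, Nat.mod_zero] at h; exact ⟨h0, h⟩
    · right
      refine ⟨by rw [h]; exact Nat.mod_lt _ h0, f p.1 / g p.1, ?_⟩
      rw [h, Nat.div_add_mod]

theorem df_beta {f g : Γ → ℕ} (hf : DF D f) (hg : DF D g) :
    DF D (fun γ => Nat.beta (f γ) (g γ)) := by
  unfold Nat.beta
  exact S.df_mod (S.df_left hf)
    (S.df_add (S.df_mul (S.df_add hg S.df_one) (S.df_right hf)) S.df_one)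

omit S in
/-- characterization of primitive recursion by sequences -/
theorem mem_rec_iff (fa : Part ℕ) (G : ℕ → ℕ → Part ℕ) (n y : ℕ) :
    y ∈ (Nat.rec fa (fun k IH => IH.bind fun i => G k i) n : Part ℕ) ↔
      ∃ s : ℕ, (Nat.beta s 0 ∈ fa) ∧ (∀ i, i < n → Nat.beta s (i + 1) ∈ G i (Nat.beta s i)) ∧
        Nat.beta s n = y := by
  constructor
  · intro h
    -- values along the recursion
    have key : ∀ n y, y ∈ (Nat.rec fa (fun k IH => IH.bind fun i => G k i) n : Part ℕ) →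
        ∃ l : List ℕ, ∃ hl : l.length = n + 1, l[0] ∈ fa ∧
          (∀ i, ∀ hi : i < n, l[i + 1] ∈ G i l[i]) ∧ l[n] = y := by
      intro n
      induction n with
      | zero =>
        intro y hy
        exact ⟨[y], rfl, hy, fun i hi => absurd hi (by omega), rfl⟩
      | succ n ih =>
        intro y hy
        rw [Part.mem_bind_iff] at hy
        obtain ⟨z, hz, hy⟩ := hy
        obtain ⟨l, hl, h0, h1, h2⟩ := ih z hz
        refine ⟨l ++ [y], by simp [hl], ?_, ?_, ?_⟩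
        · rw [List.getElem_append_left (by omega)]; exact h0
        · intro i hi
          rcases Nat.lt_or_ge i n with hlt | hge
          · rw [List.getElem_append_left (by omega), List.getElem_append_left (by omega)]
            exact h1 i hlt
          · have : i = n := by omega
            subst this
            have e1 : (l ++ [y])[i + 1]'(by simp [hl]) = y := by
              rw [List.getElem_append_right (by omega)]; simp [hl]
            have e2 : (l ++ [y])[i]'(by simp [hl]) = l[i] :=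
              List.getElem_append_left (by omega)
            rw [e1, e2, h2]; exact hy
        · rw [List.getElem_append_right (by omega)]
          simp [hl]
    obtain ⟨l, hl, h0, h1, h2⟩ := key n y h
    have hb : ∀ i (hi : i < l.length), Nat.beta (Nat.unbeta l) i = l[i] :=
      fun i hi => Nat.beta_unbeta_coe l ⟨i, hi⟩
    refine ⟨Nat.unbeta l, ?_, ?_, ?_⟩
    · rw [hb 0 (by omega)]; exact h0
    · intro i hi
      rw [hb (i + 1) (by omega), hb i (by omega)]
      exact h1 i hi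
    · rw [hb n (by omega)]; exact h2
  · rintro ⟨s, h0, h1, rfl⟩
    have key : ∀ i, i ≤ n →
        Nat.beta s i ∈ (Nat.rec fa (fun k IH => IH.bind fun i => G k i) i : Part ℕ) := by
      intro i
      induction i with
      | zero => intro _; exact h0
      | succ i ih =>
        intro hi
        rw [Part.mem_bind_iff]
        exact ⟨_, ih (by omega), h1 i (by omega)⟩
    exact key n le_rfl

/-- graphs of computable partially defined functions -/
theorem partrec {f : ℕ →. ℕ} (hf : Nat.Partrec f) :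
    ∀ {Γ : Type} [Ctx ℕ Γ] {a b : Γ → ℕ}, DF D a → DF D b → D Γ (fun γ => b γ ∈ f (a γ)) := by
  induction hf with
  | zero =>
    intro Γ _ a b ha hb
    exact S.congr (S.eq' hb S.df_zero) (fun γ => by simp [pure, PFun.pure])
  | succ =>
    intro Γ _ a b ha hb
    exact S.congr (S.eq' hb (S.df_add ha S.df_one)) (fun γ => by simp)
  | left =>
    intro Γ _ a b ha hb
    exact S.congr (S.eq' hb (S.df_left ha)) (fun γ => by simp)
  | right =>
    intro Γ _ a b ha hb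
    exact S.congr (S.eq' hb (S.df_right ha)) (fun γ => by simp)
  | @pair f g _ _ ihf ihg =>
    intro Γ _ a b ha hb
    refine S.congr (S.ex (P := fun γ u => ∃ w, u ∈ f (a γ) ∧ w ∈ g (a γ) ∧ b γ = Nat.pair u w)
      (S.ex (P := fun (p : Γ × ℕ) w => p.2 ∈ f (a p.1) ∧ w ∈ g (a p.1) ∧
        b p.1 = Nat.pair p.2 w) ?_)) (fun γ => ?_)
    · have ha' := S.df_weaken (S.df_weaken ha)
      have hb' := S.df_weaken (S.df_weaken hb)
      exact S.and (ihf ha' (S.df_var IsVar.snd.fst))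
        (S.and (ihg ha' (S.df_var IsVar.snd))
          (S.eq' hb' (S.df_pair (S.df_var IsVar.snd.fst) (S.df_var IsVar.snd))))
    · simp only [Part.map_eq_map, Seq.seq]
      constructor
      · rintro ⟨u, w, hu, hw, h⟩
        simp only [Part.mem_bind_iff, Part.mem_map_iff]
        exact ⟨Nat.pair u, ⟨u, hu, rfl⟩, w, hw, h.symm⟩
      · intro h
        simp only [Part.mem_bind_iff, Part.mem_map_iff] at h
        obtain ⟨k, ⟨u, hu, rfl⟩, w, hw, h⟩ := h
        exact ⟨u, w, hu, hw, h.symm⟩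
  | @comp f g _ _ ihf ihg =>
    intro Γ _ a b ha hb
    refine S.congr (S.ex (P := fun γ z => z ∈ g (a γ) ∧ b γ ∈ f z) ?_) (fun γ => ?_)
    · exact S.and (ihg (S.df_weaken ha) (S.df_var IsVar.snd))
        (ihf (S.df_var IsVar.snd) (S.df_weaken hb))
    · exact (Part.mem_bind_iff (f := g (a γ)) (g := f)).symm
  | @prec f g _ _ ihf ihg =>
    intro Γ _ a b ha hb
    refine S.congr (S.ex (P := fun γ s => Nat.beta s 0 ∈ f (a γ).unpair.1 ∧
      (∀ i, i < (a γ).unpair.2 → Nat.beta s (i + 1) ∈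
        g (Nat.pair (a γ).unpair.1 (Nat.pair i (Nat.beta s i)))) ∧
      Nat.beta s (a γ).unpair.2 = b γ) ?_) (fun γ => ?_)
    · have ha' := S.df_weaken ha
      have hb' := S.df_weaken hb
      have hs : DF D (fun p : Γ × ℕ => p.2) := S.df_var IsVar.snd
      refine S.and (ihf (S.df_left ha') (S.df_beta hs S.df_zero)) (S.and ?_
        (S.eq' (S.df_beta hs (S.df_right ha')) hb'))
      refine S.all (P := fun (p : Γ × ℕ) i => i < (a p.1).unpair.2 → Nat.beta p.2 (i + 1) ∈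
        g (Nat.pair (a p.1).unpair.1 (Nat.pair i (Nat.beta p.2 i)))) ?_
      have ha'' := S.df_weaken ha'
      have hs' := S.df_weaken hs
      have hi : DF D (fun p : (Γ × ℕ) × ℕ => p.2) := S.df_var IsVar.snd
      exact S.imp (S.lt hi (S.df_right ha''))
        (ihg (S.df_pair (S.df_left ha'') (S.df_pair hi (S.df_beta hs' hi)))
          (S.df_beta hs' (S.df_add hi S.df_one)))
    · exact (mem_rec_iff (f (a γ).unpair.1)
        (fun k i => g (Nat.pair (a γ).unpair.1 (Nat.pair k i))) _ _).symm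
  | @rfind f _ ihf =>
    intro Γ _ a b ha hb
    refine S.congr (S.and (ihf (S.df_pair ha hb) S.df_zero)
      (S.all (P := fun γ m => m < b γ → ∃ z, z ≠ 0 ∧ z ∈ f (Nat.pair (a γ) m)) ?_))
      (fun γ => ?_)
    · refine S.imp (S.lt (S.df_var IsVar.snd) (S.df_weaken hb))
        (S.ex (P := fun (p : Γ × ℕ) z => z ≠ 0 ∧ z ∈ f (Nat.pair (a p.1) p.2)) ?_)
      exact S.and (S.not (S.eq' (S.df_var IsVar.snd) S.df_zero))
        (ihf (S.df_pair (S.df_weaken (S.df_weaken ha)) (S.df_var IsVar.snd.fst))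
          (S.df_var IsVar.snd))
    · refine Iff.trans ?_ (Nat.mem_rfind
        (p := fun n => (f (Nat.pair (a γ) n)).map (fun m => decide (m = 0)))).symm
      simp only [Part.mem_map_iff, decide_eq_true_eq, decide_eq_false_iff_not]
      constructor
      · rintro ⟨h1, h2⟩
        refine ⟨⟨0, h1, rfl⟩, ?_⟩
        intro m hm
        obtain ⟨z, hz, hz'⟩ := h2 m hm
        exact ⟨z, hz', hz⟩
      · rintro ⟨⟨z, hz, rfl⟩, h2⟩
        refine ⟨hz, ?_⟩
        intro m hm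
        obtain ⟨z, hz', hz⟩ := h2 hm
        exact ⟨z, hz, hz'⟩

end ArithSys

end Pool.Agent.Helper78.DefLib
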