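import Mathlib

/-!
Definitions for problem MP_ad6ded_lc.
-/

namespace Pool.Agent.Helper78.Auto

/-- The finite words of the problem, with the index shifted by one:
`word 0` is `x_1 = 12` and `word (n+1)` is `w w w^R w^R 2` for `w = word n`. -/
def word : ℕ → List ℕ
  | 0 => [1, 2]
  | n + 1 => word n ++ word n ++ (word n).reverse ++ (word n).reverse ++ [2]

/-- `w` is a prefix of the infinite sequence `a`. -/
def BeginsWith (a : ℕ → ℕ) (w : List ℕ) : Prop :=
  ∀ i, i < w.length → w[i]? = some (a i)

/-- The infinite word of the problem: its letter number `i` is the letter number `i` of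
`word i` (which has more than `i` letters); the main theorem also states that every `word n`
is a prefix of it. -/
def x (i : ℕ) : ℕ := (word i).getD i 0

/-- The `k`-kernel of a sequence `a`: all sequences `n ↦ a (k^e * n + j)` with `j < k^e`. -/
def kernel (k : ℕ) (a : ℕ → ℕ) : Set (ℕ → ℕ) :=
  {f | ∃ e j : ℕ, j < k ^ e ∧ f = fun n => a (k ^ e * n + j)}

/-- A sequence is `k`-automatic when its `k`-kernel is a finite set. -/
def IsAutomatic (k : ℕ) (a : ℕ → ℕ) : Prop := (kernel k a).Finite

end Pool.Agent.Helper78.Auto
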