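import Mathlib
import Pool.Agent.Helper78.AutoDefs

namespace Pool.Agent.Helper78.Auto

/-- gap sequence -/
def g (m : ℕ) : ℕ := 2 + (padicValNat 2 (m + 1)) % 2

/-- position of the one number `n` -/
def p (n : ℕ) : ℕ := ∑ i ∈ Finset.range n, g i

theorem p_zero : p 0 = 0 := by simp [p]

theorem p_succ (n : ℕ) : p (n + 1) = p n + g n := by
  simp [p, Finset.sum_range_succ]

theorem g_ge (m : ℕ) : 2 ≤ g m := by unfold g; omega
theorem g_le (m : ℕ) : g m ≤ 3 := by unfold g; omega

theorem g_even (m : ℕ) : g (2 * m) = 2 := by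
  unfold g
  have h : ¬ 2 ∣ (2 * m + 1) := by omega
  rw [padicValNat.eq_zero_of_not_dvd h]

theorem g_odd (m : ℕ) : g (2 * m + 1) + g m = 5 := by
  unfold g
  have h : 2 * m + 1 + 1 = 2 * (m + 1) := by ring
  have h2 : padicValNat 2 (2 * (m + 1)) = 1 + padicValNat 2 (m + 1) := by
    rw [padicValNat.mul (by norm_num) (by omega)]
    simp
  rw [h, h2]
  omega

theorem p_double (n : ℕ) : p (2 * n) + p n = 7 * n := by
  induction n with
  | zero => simp [p_zero]
  | succ n ih =>
    have h : 2 * (n + 1) = 2 * n + 1 + 1 := by ring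
    rw [h, p_succ, p_succ, p_succ, g_even]
    have := g_odd n
    omega

theorem p_double_succ (n : ℕ) : p (2 * n + 1) + p n = 7 * n + 2 := by
  rw [p_succ, g_even]
  have := p_double n
  omega

theorem p_strictMono : StrictMono p := by
  apply strictMono_nat_of_lt_succ
  intro n
  rw [p_succ]
  have := g_ge n
  omega

theorem p_add_le (n t : ℕ) : p (n + t) ≤ p n + 3 * t := by
  induction t with
  | zero => simp
  | succ t ih =>
    rw [← add_assoc, p_succ]
    have := g_le (n + t)
    omega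

theorem p_add_ge (n t : ℕ) : p n + 2 * t ≤ p (n + t) := by
  induction t with
  | zero => simp
  | succ t ih =>
    rw [← add_assoc, p_succ]
    have := g_ge (n + t)
    omega

theorem p_ge (n : ℕ) : 2 * n ≤ p n := by
  have := p_add_ge 0 n
  simpa [p_zero] using this

/-- sum of `2^r` consecutive gaps -/
theorem block_sum (r n : ℕ) :
    |3 * ((p (n + 2 ^ r) : ℤ) - p n) - 7 * 2 ^ r| ≤ 2 := by
  induction r generalizing n with
  | zero =>
    have h1 := g_ge n
    have h2 := g_le n
    rw [pow_zero, p_succ, abs_le]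
    push_cast
    constructor <;> omega
  | succ r ih =>
    rcases Nat.even_or_odd' n with ⟨m, rfl | rfl⟩
    · have e : 2 * m + 2 ^ (r + 1) = 2 * (m + 2 ^ r) := by ring
      rw [e]
      have h1 := p_double m
      have h2 := p_double (m + 2 ^ r)
      have h3 := ih m
      rw [abs_le] at h3 ⊢
      rw [pow_succ]
      zify at h1 h2
      constructor <;> linarith [h3.1, h3.2]
    · have e : 2 * m + 1 + 2 ^ (r + 1) = 2 * (m + 2 ^ r) + 1 := by ring
      rw [e]
      have h1 := p_double_succ m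
      have h2 := p_double_succ (m + 2 ^ r)
      have h3 := ih m
      rw [abs_le] at h3 ⊢
      rw [pow_succ]
      zify at h1 h2
      constructor <;> linarith [h3.1, h3.2]

theorem blocks_sum (r u n : ℕ) :
    |3 * ((p (n + 2 ^ r * u) : ℤ) - p n) - 7 * 2 ^ r * u| ≤ 2 * u := by
  induction u with
  | zero => simp
  | succ u ih =>
    have h := block_sum r (n + 2 ^ r * u)
    have e : n + 2 ^ r * (u + 1) = n + 2 ^ r * u + 2 ^ r := by ring
    rw [e]
    push_cast
    rw [abs_le] at ih h ⊢
    constructor <;> nlinarith [ih.1, ih.2, h.1, h.2]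

theorem val_odd (r w : ℕ) (hw : w % 2 = 1) : padicValNat 2 (2 ^ r * w) = r := by
  rw [padicValNat.mul (by positivity) (by omega), padicValNat.prime_pow,
    padicValNat.eq_zero_of_not_dvd (by omega)]
  rfl

/-- recognizability of the gap sequence -/
theorem gap_recog (a b T : ℕ) (hab : a < b) (h : ∀ t, t < T → g (a + t) = g (b + t)) :
    ∃ r u : ℕ, b = a + 2 ^ r * u ∧ 0 < u ∧ T < 2 ^ (r + 2) := by
  obtain ⟨r, u, hu, hru⟩ := Nat.exists_eq_two_pow_mul_odd (n := b - a) (by omega)
  refine ⟨r, u, by omega, ?_, ?_⟩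
  · rcases hu with ⟨k, rfl⟩; omega
  · by_contra hT
    push Not at hT
    set P := 2 ^ (r + 1) with hP
    have hP2 : 2 ^ (r + 2) = 2 * P := by rw [hP]; ring
    have hPpos : 0 < P := by positivity
    obtain ⟨q, s, hs, hq⟩ : ∃ q s, s < 2 * P ∧ b + 1 = 2 * P * q + s :=
      ⟨(b + 1) / (2 * P), (b + 1) % (2 * P), Nat.mod_lt _ (by omega),
        (Nat.div_add_mod _ _).symm⟩
    obtain ⟨t, ht, q', hq'⟩ : ∃ t, t < 2 * P ∧ ∃ q', b + t + 1 = P * (2 * q' + 1) := by
      rcases le_or_gt s P with h1 | h1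
      · refine ⟨P - s, by omega, q, ?_⟩
        have : b + (P - s) + 1 = (b + 1) + (P - s) := by ring
        rw [this, hq]
        have : P * (2 * q + 1) = 2 * P * q + P := by ring
        omega
      · refine ⟨2 * P + P - s, by omega, q + 1, ?_⟩
        have : b + (2 * P + P - s) + 1 = (b + 1) + (2 * P + P - s) := by omega
        rw [this, hq]
        have : P * (2 * (q + 1) + 1) = 2 * P * q + 2 * P + P := by ring
        omega
    have hg := h t (by omega)
    have hPr : P = 2 * 2 ^ r := by rw [hP]; ring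
    obtain ⟨v, rfl⟩ := hu
    have hb : b = a + 2 ^ r * (2 * v + 1) := by omega
    have ha : a + t + 1 = 2 ^ r * (2 * (2 * q' + 1) - (2 * v + 1)) := by
      rw [Nat.mul_sub]
      have : 2 ^ r * (2 * (2 * q' + 1)) = P * (2 * q' + 1) := by rw [hPr]; ring
      omega
    have hpos : 0 < 2 * (2 * q' + 1) - (2 * v + 1) := by
      rcases Nat.eq_zero_or_pos (2 * (2 * q' + 1) - (2 * v + 1)) with h0 | h0
      · rw [h0] at ha; omega
      · exact h0
    have v1 : padicValNat 2 (a + t + 1) = r := by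
      rw [ha]; exact val_odd _ _ (by omega)
    have v2 : padicValNat 2 (b + t + 1) = r + 1 := by
      rw [hq', hP]; exact val_odd _ _ (by omega)
    unfold g at hg
    rw [v1, v2] at hg
    omega

/-- `a` is the first index whose position is at least `u` -/
def IsFirst (u a : ℕ) : Prop := u ≤ p a ∧ p a ≤ u + 2 ∧ ∀ m, u ≤ p m → a ≤ m

theorem exists_first (u : ℕ) : ∃ n, IsFirst u n := by
  have hex : ∃ n, u ≤ p n := ⟨u, by have := p_ge u; omega⟩
  classical
  refine ⟨Nat.find hex, Nat.find_spec hex, ?_, fun m hm => Nat.find_min' hex hm⟩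
  rcases Nat.eq_zero_or_pos (Nat.find hex) with h0 | h0
  · rw [h0, p_zero]; omega
  · have h1 := Nat.find_min hex (m := Nat.find hex - 1) (by omega)
    have h2 : p (Nat.find hex) = p (Nat.find hex - 1) + g (Nat.find hex - 1) := by
      rw [← p_succ]; congr 1; omega
    have := g_le (Nat.find hex - 1)
    omega

/-- equal windows have the same ones -/
theorem window (u v K a b : ℕ) (hK : 3 ≤ K) (ha : IsFirst u a) (hb : IsFirst v b)
    (h : ∀ s, s < K → ((∃ n, p n = u + s) ↔ (∃ n, p n = v + s))) :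
    p b + u = p a + v ∧ (∀ t, p (a + t) < u + K → p (b + t) + u = p (a + t) + v) := by
  obtain ⟨ha1, ha2, ha3⟩ := ha
  obtain ⟨hb1, hb2, hb3⟩ := hb
  have hab : p b + u = p a + v := by
    obtain ⟨n, hn⟩ := (h (p a - u) (by omega)).1 ⟨a, by omega⟩
    obtain ⟨m, hm⟩ := (h (p b - v) (by omega)).2 ⟨b, by omega⟩
    have h1 := hb3 n (by omega)
    have h2 := ha3 m (by omega)
    have h3 := p_strictMono.monotone h1
    have h4 := p_strictMono.monotone h2
    omega
  refine ⟨hab, ?_⟩
  intro t
  induction t with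
  | zero => intro _; simpa using hab
  | succ t ih =>
    intro ht
    have hlt : p (a + t) < p (a + (t + 1)) := p_strictMono (by omega)
    have ih' := ih (by omega)
    have hlt2 : p (b + t) < p (b + (t + 1)) := p_strictMono (by omega)
    have hma : p a ≤ p (a + t) := p_strictMono.monotone (by omega)
    have hmb : p b ≤ p (b + t) := p_strictMono.monotone (by omega)
    obtain ⟨n, hn⟩ := (h (p (a + (t + 1)) - u) (by omega)).1 ⟨a + (t + 1), by omega⟩
    have hn1 : b + t < n := p_strictMono.lt_iff_lt.1 (by omega)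
    have hn2 : p (b + (t + 1)) ≤ p n := p_strictMono.monotone (by omega)
    obtain ⟨m, hm⟩ := (h (p (b + (t + 1)) - v) (by omega)).2 ⟨b + (t + 1), by omega⟩
    have hm1 : a + t < m := p_strictMono.lt_iff_lt.1 (by omega)
    have hm2 : p (a + (t + 1)) ≤ p m := p_strictMono.monotone (by omega)
    omega

/-- equal windows have equal gaps -/
theorem window_gap (u v K a b : ℕ) (hK : 3 ≤ K) (ha : IsFirst u a) (hb : IsFirst v b)
    (h : ∀ s, s < K → ((∃ n, p n = u + s) ↔ (∃ n, p n = v + s))) :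
    p b + u = p a + v ∧ (∀ t, t < (K - 3) / 3 → g (a + t) = g (b + t)) := by
  obtain ⟨h3, h4⟩ := window u v K a b hK ha hb h
  obtain ⟨ha1, ha2, ha3⟩ := ha
  refine ⟨h3, ?_⟩
  intro t ht
  have e1 := p_add_le a (t + 1)
  have h5 := h4 (t + 1) (by omega)
  have e2 : p (a + t) < p (a + (t + 1)) := p_strictMono (by omega)
  have h6 := h4 t (by omega)
  rw [← add_assoc, ← add_assoc, p_succ, p_succ] at h5
  omega

/-- the set of ones is not eventually periodic -/
theorem not_eventually_periodic (t t' : ℕ) (htt : t < t')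
    (h : ∀ s, ((∃ n, p n = t + s) ↔ (∃ n, p n = t' + s))) : False := by
  obtain ⟨a, ha⟩ := exists_first t
  obtain ⟨b, hb⟩ := exists_first t'
  have h1 := (window_gap t t' 3 a b le_rfl ha hb (fun s _ => h s)).1
  have hab : a < b := p_strictMono.lt_iff_lt.1 (by omega)
  have hall : ∀ s, g (a + s) = g (b + s) := by
    intro s
    exact (window_gap t t' (3 * s + 6) a b (by omega) ha hb (fun s _ => h s)).2 s (by omega)
  obtain ⟨r, u, h2, h3, h4⟩ := gap_recog a b (2 ^ (b - a + 2)) hab (fun t _ => hall t)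
  have h5 : r + 2 ≤ b - a + 2 := by
    have : r < 2 ^ r := Nat.lt_two_pow_self
    have : 2 ^ r ≤ 2 ^ r * u := Nat.le_mul_of_pos_right _ h3
    omega
  have h6 := Nat.pow_le_pow_right (n := 2) (by norm_num) h5
  omega

/-- consequence of equal windows at distance a multiple of the length -/
theorem window_relation (i d K : ℕ) (hd : 0 < d) (hK : 6 ≤ K)
    (h : ∀ s, s < K → ((∃ n, p n = K * i + s) ↔ (∃ n, p n = K * (i + d) + s))) :
    ∃ r u : ℕ, 0 < u ∧ u ≤ 9 * d ∧
      |3 * (K : ℤ) * d - 7 * 2 ^ r * u| ≤ 2 * u := by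
  obtain ⟨a, ha⟩ := exists_first (K * i)
  obtain ⟨b, hb⟩ := exists_first (K * (i + d))
  obtain ⟨h1, h2⟩ := window_gap _ _ K a b (by omega) ha hb h
  have hKd : K * (i + d) = K * i + K * d := by ring
  have hKd0 : 0 < K * d := by positivity
  have hab : a < b := p_strictMono.lt_iff_lt.1 (by omega)
  obtain ⟨r, u, h3, h4, h5⟩ := gap_recog a b _ hab h2
  refine ⟨r, u, h4, ?_, ?_⟩
  · have h6 := p_add_ge a (2 ^ r * u)
    rw [← h3] at h6
    have h7 : K ≤ 18 * 2 ^ r := by
      have e : 2 ^ (r + 2) = 4 * 2 ^ r := by ring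
      have : 1 ≤ 2 ^ r := Nat.one_le_two_pow
      omega
    have h8 : 2 * (2 ^ r * u) ≤ 18 * 2 ^ r * d := by
      calc 2 * (2 ^ r * u) ≤ K * d := by omega
        _ ≤ 18 * 2 ^ r * d := Nat.mul_le_mul_right d h7
    have h9 : 2 ^ r * u ≤ 2 ^ r * (9 * d) := by
      have e : 18 * 2 ^ r * d = 2 * (2 ^ r * (9 * d)) := by ring
      omega
    exact Nat.le_of_mul_le_mul_left h9 (by positivity)
  · have h6 := blocks_sum r u a
    rw [← h3] at h6
    have h7 : (p b : ℤ) - p a = K * d := by
      rw [hKd] at h1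
      zify at h1
      linarith
    rw [h7] at h6
    rw [← mul_assoc] at h6
    exact h6

/-- arithmetic: the relation for all exponents forces a power of two -/
theorem arith (k d : ℕ) (hk : 2 ≤ k) (hd : 0 < d) (J₀ : ℕ)
    (h : ∀ j, J₀ ≤ j → ∃ r u : ℕ, 0 < u ∧ u ≤ 9 * d ∧
      |3 * ((k ^ j : ℕ) : ℤ) * d - 7 * 2 ^ r * u| ≤ 2 * u) :
    ∃ a, k = 2 ^ a := by
  set U := 9 * d with hU
  -- choose a large exponent
  set B := k ^ U + 1 with hB
  set J := J₀ + (7 * U * B + 2 * U) with hJ
  choose! r u hu0 huU hru using h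
  obtain ⟨j, j', hjj, hj1, hj2, huu⟩ : ∃ j j', j < j' ∧ J ≤ j ∧ j' ≤ J + U ∧ u j = u j' := by
    have hmaps : ∀ x ∈ Finset.range (U + 1), u (J + x) ∈ Finset.Icc 1 U := by
      intro x _
      rw [Finset.mem_Icc]
      exact ⟨hu0 _ (by omega), huU _ (by omega)⟩
    obtain ⟨x, hx, y, hy, hxy, he⟩ := Finset.exists_ne_map_eq_of_card_lt_of_maps_to
      (by simp) hmaps
    rw [Finset.mem_range] at hx hy
    rcases Nat.lt_or_ge x y with hlt | hge
    · exact ⟨J + x, J + y, by omega, by omega, by omega, he⟩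
    · exact ⟨J + y, J + x, by omega, by omega, by omega, he.symm⟩
  have h1 := hru j (by omega)
  have h2 := hru j' (by omega)
  rw [← huu] at h2
  have hu1 := hu0 j (by omega)
  have hu2 := huU j (by omega)
  set v := u j with hv
  set R := r j with hR
  set R' := r j' with hR'
  obtain ⟨e, he⟩ : ∃ e, j' = j + e := ⟨j' - j, by omega⟩
  have heU : e ≤ U := by omega
  have hke : k ^ e ≤ k ^ U := Nat.pow_le_pow_right (by omega) heU
  have hpow : k ^ j' = k ^ j * k ^ e := by rw [he, pow_add]
  -- size of `2^R`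
  have hjlt : j < k ^ j := Nat.lt_pow_self (by omega)
  have hbig : B < 2 ^ R := by
    by_contra hcon
    push Not at hcon
    rw [abs_le] at h1
    have e1 : 3 * ((k ^ j : ℕ) : ℤ) * d ≤ 7 * 2 ^ R * v + 2 * v := by linarith [h1.2]
    have e2 : 3 * (k ^ j) * d ≤ 7 * 2 ^ R * v + 2 * v := by exact_mod_cast e1
    have e3 : 7 * 2 ^ R * v ≤ 7 * B * U := by
      apply Nat.mul_le_mul _ hu2
      omega
    have e4 : k ^ j ≤ 3 * k ^ j * d := by nlinarith
    have e5 : 7 * U * B = 7 * B * U := by ring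
    omega
  -- compare
  have hmain : (2 : ℤ) ^ R' = 2 ^ R * k ^ e := by
    by_contra hne
    have hge : (2 : ℤ) ^ R ≤ |(2 : ℤ) ^ R' - 2 ^ R * (k : ℤ) ^ e| := by
      rcases le_or_gt R R' with hle | hlt
      · obtain ⟨w, hw⟩ : ∃ w, R' = R + w := ⟨R' - R, by omega⟩
        rw [hw, pow_add, ← mul_sub, abs_mul, abs_of_pos (by positivity : (0 : ℤ) < 2 ^ R)]
        have : (2 : ℤ) ^ w - k ^ e ≠ 0 := by
          intro h0
          apply hne
          rw [hw, pow_add]
          have : (2 : ℤ) ^ w = k ^ e := by linarith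
          rw [this]
        have h3 := Int.one_le_abs this
        nlinarith [(by positivity : (0 : ℤ) < 2 ^ R)]
      · have e0 : 0 < e := by omega
        have h3 : (2 : ℤ) ≤ k ^ e := by
          have : 2 ^ 1 ≤ k ^ e := by
            calc 2 ^ 1 ≤ k ^ 1 := by simpa using hk
              _ ≤ k ^ e := Nat.pow_le_pow_right (by omega) e0
          exact_mod_cast this
        have h4 : (2 : ℤ) ^ R' ≤ 2 ^ R := pow_le_pow_right₀ (by norm_num) hlt.le
        have h5 : (0 : ℤ) < 2 ^ R := by positivity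
        rw [abs_sub_comm]
        refine le_trans ?_ (le_abs_self _)
        nlinarith
    -- upper bound
    have hup : |7 * v * ((2 : ℤ) ^ R' - 2 ^ R * k ^ e)| ≤ 2 * v * (k ^ e + 1) := by
      have e1 : 7 * v * ((2 : ℤ) ^ R' - 2 ^ R * k ^ e) =
          (3 * ((k ^ j : ℕ) : ℤ) * d - 7 * 2 ^ R * v) * k ^ e -
          (3 * ((k ^ j' : ℕ) : ℤ) * d - 7 * 2 ^ R' * v) := by
        rw [hpow]; push_cast; ring
      rw [e1]
      refine (abs_sub _ _).trans ?_
      rw [abs_mul, abs_of_nonneg (by positivity : (0 : ℤ) ≤ (k : ℤ) ^ e)]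
      have e2 := mul_le_mul_of_nonneg_right h1 (by positivity : (0 : ℤ) ≤ (k : ℤ) ^ e)
      have e3 : (2 : ℤ) * v * (k ^ e + 1) = 2 * v * k ^ e + 2 * v := by ring
      rw [e3]
      exact add_le_add e2 h2
    rw [abs_mul, abs_of_nonneg (by positivity : (0 : ℤ) ≤ 7 * v)] at hup
    have hv0 : (0 : ℤ) < v := by exact_mod_cast hu1
    have h6 : 7 * |(2 : ℤ) ^ R' - 2 ^ R * k ^ e| ≤ 2 * (k ^ e + 1) := by
      have : (v : ℤ) * (7 * |(2 : ℤ) ^ R' - 2 ^ R * k ^ e|) ≤ v * (2 * (k ^ e + 1)) := by
        linarith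
      exact le_of_mul_le_mul_left this hv0
    have h7 : (k : ℤ) ^ e + 1 ≤ B := by
      rw [hB]; push_cast
      have : (k : ℤ) ^ e ≤ k ^ U := by exact_mod_cast hke
      linarith
    have h8 : (B : ℤ) < 2 ^ R := by exact_mod_cast hbig
    linarith
  have hmain' : 2 ^ R' = 2 ^ R * k ^ e := by exact_mod_cast hmain
  have hdvd : k ∣ 2 ^ R' := by
    rw [hmain']
    exact Dvd.dvd.mul_left (dvd_pow_self k (by omega)) _
  obtain ⟨a, _, ha⟩ := (Nat.dvd_prime_pow Nat.prime_two).1 hdvd
  exact ⟨a, ha⟩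

/-! ### powers of two -/

theorem g_shift (M c m : ℕ) (hm : m + 1 < 4 ^ M) : g (4 ^ M * c + m) = g m := by
  unfold g
  congr 2
  rcases Nat.eq_zero_or_pos c with rfl | hc
  · simp
  obtain ⟨r, w, hw, hrw⟩ := Nat.exists_eq_two_pow_mul_odd (n := m + 1) (by omega)
  have hr : 2 ^ r < 4 ^ M := by
    have hw1 : 0 < w := by rcases hw with ⟨z, rfl⟩; omega
    have : 2 ^ r ≤ 2 ^ r * w := Nat.le_mul_of_pos_right _ hw1
    omega
  have h4 : 4 ^ M = 2 ^ (2 * M) := by rw [pow_mul]; norm_num
  rw [h4] at hr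
  have hr' : r < 2 * M := (Nat.pow_lt_pow_iff_right (by norm_num)).1 hr
  obtain ⟨z, hz⟩ : ∃ z, 2 * M = r + (z + 1) := ⟨2 * M - r - 1, by omega⟩
  have e : 4 ^ M * c + m + 1 = 2 ^ r * (2 * (2 ^ z * c) + w) := by
    rw [add_assoc, hrw, h4, hz, pow_add, pow_succ]; ring
  obtain ⟨y, rfl⟩ := hw
  rw [e, val_odd _ _ (by omega), hrw, val_odd _ _ (by omega)]

theorem p_shift (M c m : ℕ) (hm : m < 4 ^ M) :
    p (4 ^ M * c + m) = p (4 ^ M * c) + p m := by
  induction m with
  | zero => simp [p_zero]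
  | succ m ih =>
    rw [← add_assoc, p_succ, p_succ, ih (by omega), g_shift M c m hm]
    ring

theorem ones_shift (M c y : ℕ) (hy : y < p (4 ^ M - 1)) :
    (∃ n, p n = p (4 ^ M * c) + y) ↔ ∃ n, p n = y := by
  have h4 : 1 ≤ 4 ^ M := Nat.one_le_pow _ _ (by norm_num)
  constructor
  · rintro ⟨n, hn⟩
    have h1 : 4 ^ M * c ≤ n := p_strictMono.le_iff_le.1 (by omega)
    obtain ⟨m, rfl⟩ : ∃ m, n = 4 ^ M * c + m := ⟨n - 4 ^ M * c, by omega⟩
    have h2 := p_shift M c (4 ^ M - 1) (by omega)
    have h3 : 4 ^ M * c + m < 4 ^ M * c + (4 ^ M - 1) := p_strictMono.lt_iff_lt.1 (by omega)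
    have h5 := p_shift M c m (by omega)
    exact ⟨m, by omega⟩
  · rintro ⟨n, hn⟩
    have h3 : n < 4 ^ M - 1 := p_strictMono.lt_iff_lt.1 (by omega)
    have h5 := p_shift M c n (by omega)
    exact ⟨4 ^ M * c + n, by omega⟩

theorem p_four (n : ℕ) : p (4 * n) = 7 * n + p n := by
  have h1 := p_double n
  have h2 := p_double (2 * n)
  have e : 2 * (2 * n) = 4 * n := by ring
  rw [e] at h2
  omega

theorem p_four_succ (n : ℕ) : p (4 * n + 1) = 7 * n + p n + 2 := by
  have h : g (4 * n) = 2 := by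
    have e : 4 * n = 2 * (2 * n) := by ring
    rw [e]; exact g_even _
  rw [p_succ, p_four, h]

theorem p_pow (M l t : ℕ) (h : p (3 * l) + t = 7 * l) :
    p (4 ^ M * (3 * l)) + t = 7 * 4 ^ M * l := by
  induction M with
  | zero => simpa using h
  | succ M ih =>
    have e : 4 ^ (M + 1) * (3 * l) = 4 * (4 ^ M * (3 * l)) := by ring
    rw [e, p_four]
    have e2 : 7 * (4 ^ M * (3 * l)) = 21 * (4 ^ M * l) := by ring
    have e3 : 7 * 4 ^ (M + 1) * l = 28 * (4 ^ M * l) := by ring
    have e4 : 7 * 4 ^ M * l = 7 * (4 ^ M * l) := by ring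
    rw [e4] at ih
    rw [e2, e3]
    omega

/-- indices with prescribed offset -/
def ell : ℕ → ℕ
  | 0 => 0
  | t + 1 => 64 * ell t + 7

theorem ell_spec (t : ℕ) : p (3 * ell t) + t = 7 * ell t := by
  induction t with
  | zero => simp [ell, p_zero]
  | succ t ih =>
    have e : 3 * ell (t + 1) = 4 * (4 * (4 * (3 * ell t) + 1) + 1) + 1 := by
      simp only [ell]; ring
    rw [e, p_four_succ, p_four_succ, p_four_succ]
    simp only [ell]
    omega

theorem offset (M t s : ℕ) (hs : t + s < p (4 ^ M - 1)) :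
    (∃ n, p n = 4 ^ M * (7 * ell t) + s) ↔ ∃ n, p n = t + s := by
  rw [← ones_shift M (3 * ell t) (t + s) hs]
  have h := p_pow M (ell t) t (ell_spec t)
  have e : 4 ^ M * (7 * ell t) = 7 * 4 ^ M * ell t := by ring
  have e2 : p (4 ^ M * (3 * ell t)) + (t + s) = 4 ^ M * (7 * ell t) + s := by
    rw [e, ← h]; ring
  rw [e2]

/-- colouring coming from a finite kernel -/
theorem not_automatic (a : ℕ → ℕ) (ha : ∀ i, a i = 1 ↔ ∃ n, p n = i) (k : ℕ) (hk : 2 ≤ k) :
    ¬ IsAutomatic k a := by
  intro hfin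
  have hfin' : Finite (kernel k a) := hfin
  let κ : ℕ → (kernel k a → Prop) := fun i f => f.1 i = 1
  have hκ : ∀ i i', κ i = κ i' → ∀ j s, s < k ^ j →
      ((∃ n, p n = k ^ j * i + s) ↔ ∃ n, p n = k ^ j * i' + s) := by
    intro i i' h j s hs
    have h1 := congrFun h ⟨fun n => a (k ^ j * n + s), j, s, hs, rfl⟩
    have h2 : (a (k ^ j * i + s) = 1) = (a (k ^ j * i' + s) = 1) := h1
    rw [← ha, ← ha, h2]
  -- the base is a power of two
  have hpow : ∃ b, k = 2 ^ b := by
    obtain ⟨i, i', hne, he⟩ := Finite.exists_ne_map_eq_of_infinite κ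
    wlog hlt : i < i' generalizing i i'
    · exact this i' i hne.symm he.symm (by omega)
    obtain ⟨d, hd⟩ : ∃ d, i' = i + d := ⟨i' - i, by omega⟩
    have hd0 : 0 < d := by omega
    subst hd
    refine arith k d hk hd0 3 ?_
    intro j hj
    refine window_relation i d (k ^ j) hd0 ?_ (hκ i (i + d) he j)
    calc 6 ≤ 2 ^ 3 := by norm_num
      _ ≤ k ^ 3 := Nat.pow_le_pow_left hk 3
      _ ≤ k ^ j := Nat.pow_le_pow_right (by omega) hj
  obtain ⟨b, rfl⟩ := hpow
  have hb : 0 < b := by
    rcases Nat.eq_zero_or_pos b with rfl | h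
    · norm_num at hk
    · exact h
  obtain ⟨t, t', hne, he⟩ := Finite.exists_ne_map_eq_of_infinite (fun t => κ (7 * ell t))
  wlog hlt : t < t' generalizing t t'
  · exact this t' t hne.symm he.symm (by omega)
  apply not_eventually_periodic t t' hlt
  intro s
  set m := t' + s + 1 with hm
  have hK : (2 ^ b) ^ (2 * m) = 4 ^ (b * m) := by
    rw [← pow_mul, show (4 : ℕ) = 2 ^ 2 by norm_num, ← pow_mul]; ring_nf
  have hbig : t' + s + 1 ≤ b * m := by
    have : 1 * m ≤ b * m := Nat.mul_le_mul_right m hb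
    omega
  have hlt4 : b * m < 4 ^ (b * m) := Nat.lt_pow_self (by norm_num)
  have hp := p_ge (4 ^ (b * m) - 1)
  have h1 := hκ _ _ he (2 * m) s (by rw [hK]; omega)
  rw [hK] at h1
  rw [← offset (b * m) t s (by omega), ← offset (b * m) t' s (by omega)]
  exact h1

/-! ### the words -/

/-- one block -/
def block (m : ℕ) : List ℕ := 1 :: List.replicate (g m - 1) 2

/-- the first blocks -/
def blocks : ℕ → List ℕ
  | 0 => []
  | n + 1 => blocks n ++ block n

theorem block_length (m : ℕ) : (block m).length = g m := by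
  have := g_ge m
  simp [block]; omega

theorem blocks_length (n : ℕ) : (blocks n).length = p n := by
  induction n with
  | zero => simp [blocks, p_zero]
  | succ n ih => rw [blocks, List.length_append, ih, block_length, p_succ]

theorem blocks_one (n i : ℕ) (hi : i < p n) :
    ((∃ m, p m = i) → (blocks n)[i]? = some 1) ∧ ((¬ ∃ m, p m = i) → (blocks n)[i]? = some 2) := by
  induction n with
  | zero => rw [p_zero] at hi; omega
  | succ n ih =>
    rcases Nat.lt_or_ge i (p n) with h | h
    · rw [blocks, List.getElem?_append_left (by rw [blocks_length]; exact h)]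
      exact ih h
    · rw [blocks, List.getElem?_append_right (by rw [blocks_length]; exact h), blocks_length]
      rw [p_succ] at hi
      rcases Nat.eq_or_lt_of_le h with h0 | h0
      · constructor
        · intro _; simp [← h0, block]
        · intro hn; exact absurd ⟨n, h0⟩ hn
      · obtain ⟨t, ht⟩ : ∃ t, i - p n = t + 1 := ⟨i - p n - 1, by omega⟩
        constructor
        · rintro ⟨m, hm⟩
          exfalso
          have h1 : n < m := p_strictMono.lt_iff_lt.1 (by omega)
          have h2 : p (n + 1) ≤ p m := p_strictMono.monotone (by omega)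
          rw [p_succ] at h2
          omega
        · intro _
          rw [ht]
          simp only [block, List.getElem?_cons_succ]
          rw [List.getElem?_replicate]
          rw [if_pos (by omega)]

theorem blocks_shift (n c m : ℕ) (hm : m < 4 ^ n) :
    blocks (4 ^ n * c + m) = blocks (4 ^ n * c) ++ blocks m := by
  induction m with
  | zero => simp [blocks]
  | succ m ih =>
    rw [← add_assoc, blocks, ih (by omega), blocks, block, g_shift n c m hm]
    simp [block]

theorem g_last (n c v : ℕ) (hv : padicValNat 2 (c + 1) % 2 = v) :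
    g (4 ^ n * c + (4 ^ n - 1)) = 2 + v := by
  have h4 : 1 ≤ 4 ^ n := Nat.one_le_pow _ _ (by norm_num)
  unfold g
  have e : 4 ^ n * c + (4 ^ n - 1) + 1 = 2 ^ (2 * n) * (c + 1) := by
    rw [pow_mul]
    norm_num
    rw [mul_add, mul_one]
    omega
  rw [e, padicValNat.mul (by positivity) (by omega), padicValNat.prime_pow]
  omega

theorem blocks_step (n c : ℕ) :
    blocks (4 ^ n * (c + 1)) = blocks (4 ^ n * c) ++ blocks (4 ^ n - 1) ++
      block (4 ^ n * c + (4 ^ n - 1)) := by
  have h4 : 1 ≤ 4 ^ n := Nat.one_le_pow _ _ (by norm_num)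
  have e : 4 ^ n * (c + 1) = (4 ^ n * c + (4 ^ n - 1)) + 1 := by
    rw [mul_add, mul_one]; omega
  rw [e, blocks, blocks_shift n c (4 ^ n - 1) (by omega)]

theorem word_reverse (n : ℕ) : (word n).reverse ++ [2] = 2 :: word n := by
  induction n with
  | zero => rfl
  | succ n ih =>
    have h2 : (word n).reverse ++ ((word n).reverse ++ [2]) = 2 :: (word n ++ word n) := by
      rw [ih]
      have : (word n).reverse ++ 2 :: word n = ((word n).reverse ++ [2]) ++ word n := by simp
      rw [this, ih]; rfl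
    have hw : word (n + 1) = word n ++ word n ++ 2 :: (word n ++ word n) := by
      rw [← h2, word]; simp
    have h3 : (word (n + 1)).reverse ++ [2] =
        (word n).reverse ++ ((word n).reverse ++ [2]) ++
          ((word n).reverse ++ ((word n).reverse ++ [2])) := by
      rw [hw]; simp
    rw [h3, h2, hw]; simp

theorem word_succ (n : ℕ) : word (n + 1) = word n ++ word n ++ [2] ++ word n ++ word n := by
  have h2 : (word n).reverse ++ ((word n).reverse ++ [2]) = 2 :: (word n ++ word n) := by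
    rw [word_reverse]
    have : (word n).reverse ++ 2 :: word n = ((word n).reverse ++ [2]) ++ word n := by simp
    rw [this, word_reverse]; rfl
  have : word (n + 1) = word n ++ word n ++ ((word n).reverse ++ ((word n).reverse ++ [2])) := by
    rw [word]; simp
  rw [this, h2]; simp

theorem word_eq (n : ℕ) : word n = blocks (4 ^ n) := by
  induction n with
  | zero =>
    have h : g 0 = 2 := by simpa using g_even 0
    simp [word, blocks, block, h]
  | succ n ih =>
    have v1 : padicValNat 2 (0 + 1) % 2 = 0 := by simp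
    have v2 : padicValNat 2 (1 + 1) % 2 = 1 := by simp
    have v3 : padicValNat 2 (2 + 1) % 2 = 0 := by
      rw [padicValNat.eq_zero_of_not_dvd (by norm_num)]
    have v4 : padicValNat 2 (3 + 1) % 2 = 0 := by
      rw [show (3 + 1 : ℕ) = 2 ^ 2 by norm_num, padicValNat.prime_pow]
    have s1 := blocks_step n 0
    have s2 := blocks_step n 1
    have s3 := blocks_step n 2
    have s4 := blocks_step n 3
    rw [block, g_last n 0 0 v1] at s1
    rw [block, g_last n 1 1 v2] at s2
    rw [block, g_last n 2 0 v3] at s3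
    rw [block, g_last n 3 0 v4] at s4
    have t1 : blocks (4 ^ n) = blocks (4 ^ n - 1) ++ [1, 2] := by
      simpa [blocks] using s1
    norm_num at s2 s3 s4
    have e : 4 ^ (n + 1) = 4 ^ n * 4 := pow_succ _ _
    rw [e, s4, s3, s2, word_succ, ih]
    have hr1 : List.replicate 2 2 = [2, 2] := rfl
    have hr2 : List.replicate 1 2 = [2] := rfl
    simp [t1, List.append_assoc]

theorem x_spec (i : ℕ) : x i = 1 ↔ ∃ n, p n = i := by
  have h4 : i < 4 ^ i := Nat.lt_pow_self (by norm_num)
  have hi : i < p (4 ^ i) := by have := p_ge (4 ^ i); omega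
  obtain ⟨h1, h2⟩ := blocks_one (4 ^ i) i hi
  unfold x
  rw [word_eq, List.getD_eq_getElem?_getD]
  by_cases h : ∃ m, p m = i
  · rw [h1 h]; simp [h]
  · rw [h2 h]; simp [h]

theorem x_begins (n : ℕ) : BeginsWith x (word n) := by
  intro i hi
  rw [word_eq, blocks_length] at hi
  have h4 : i < 4 ^ i := Nat.lt_pow_self (by norm_num)
  have hi' : i < p (4 ^ i) := by have := p_ge (4 ^ i); omega
  obtain ⟨h1, h2⟩ := blocks_one (4 ^ i) i hi'
  obtain ⟨h1', h2'⟩ := blocks_one (4 ^ n) i hi
  unfold x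
  rw [word_eq, word_eq, List.getD_eq_getElem?_getD]
  by_cases h : ∃ m, p m = i
  · rw [h1 h, h1' h]; simp
  · rw [h2 h, h2' h]; simp

end Pool.Agent.Helper78.Auto
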