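import Mathlib

/-!
A continuous map on a Polish space for which saturations of open sets are Borel has a Borel
range.
-/

set_option linter.style.haveILetI false

open Set Filter Topology MeasureTheory

namespace Pool.Agent.Helper78.Orbit

section selector

variable {G Y : Type*} [TopologicalSpace G] [PolishSpace G] [MeasurableSpace G] [BorelSpace G]
  [Nonempty G] (F : G → Y)

variable (D : ℕ → G)

/-- basic open sets indexed by finite sequences of centres -/
def V (δ : G → G → ℝ) : List ℕ → Set G
  | [] => univ
  | k :: l => V δ l ∩ {g | δ g (D k) < (1 / 2 : ℝ) ^ l.length}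

/-- points whose fibre meets `V l` -/
def Good (δ : G → G → ℝ) (l : List ℕ) (g : G) : Prop := ∃ g', F g' = F g ∧ g' ∈ V D δ l

end selector

/-- main lemma -/
theorem measurableSet_range {G Y : Type*} [TopologicalSpace G] [PolishSpace G]
    [TopologicalSpace Y] [T2Space Y] [MeasurableSpace Y] [OpensMeasurableSpace Y]
    (F : G → Y) (hF : Continuous F)
    (hsat : ∀ U : Set G, IsOpen U → IsOpen (F ⁻¹' (F '' U))) :
    MeasurableSet (range F) := by
  classical
  rcases isEmpty_or_nonempty G with hG | hG
  · rw [range_eq_empty]; exact MeasurableSet.empty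
  letI := TopologicalSpace.upgradeIsCompletelyMetrizable G
  borelize G
  let D : ℕ → G := TopologicalSpace.denseSeq G
  have hD : DenseRange D := TopologicalSpace.denseRange_denseSeq G
  let W : List ℕ → Set G := V D dist
  have hWopen : ∀ l, IsOpen (W l) := by
    intro l
    induction l with
    | nil => exact isOpen_univ
    | cons k l ih => exact ih.inter Metric.isOpen_ball
  let P : List ℕ → Set G := fun l => F ⁻¹' (F '' W l)
  have hPopen : ∀ l, IsOpen (P l) := fun l => hsat _ (hWopen l)
  have hPnil : P [] = univ := by
    refine eq_univ_of_forall fun g => ⟨g, mem_univ _, rfl⟩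
  have hPex : ∀ l g, g ∈ P l → ∃ k, g ∈ P (k :: l) := by
    rintro l g ⟨g', hg', hgg⟩
    obtain ⟨k, hk⟩ := hD.exists_dist_lt g' (by positivity : (0 : ℝ) < (1 / 2) ^ l.length)
    exact ⟨k, g', ⟨hg', hk⟩, hgg⟩
  -- the greedy choice
  let nxt : List ℕ → G → ℕ := fun l g => if h : ∃ k, g ∈ P (k :: l) then Nat.find h else 0
  obtain ⟨L, hL0, hLs⟩ : ∃ L : ℕ → G → List ℕ, (∀ g, L 0 g = []) ∧
      (∀ n g, L (n + 1) g = nxt (L n g) g :: L n g) :=
    ⟨fun n => Nat.rec (motive := fun _ => G → List ℕ) (fun _ => [])
      (fun _ r g => nxt (r g) g :: r g) n, fun _ => rfl, fun _ _ => rfl⟩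
  have hLP : ∀ n g, g ∈ P (L n g) := by
    intro n
    induction n with
    | zero => intro g; rw [hL0, hPnil]; exact mem_univ _
    | succ n ih =>
      intro g
      have h := hPex _ _ (ih g)
      rw [hLs]
      simp only [nxt, dif_pos h]
      exact Nat.find_spec h
  have hLlen : ∀ n g, (L n g).length = n := by
    intro n
    induction n with
    | zero => intro g; rw [hL0]; rfl
    | succ n ih => intro g; rw [hLs, List.length_cons, ih]
  have hLinv : ∀ n g g', F g = F g' → L n g = L n g' := by
    intro n
    induction n with
    | zero => intro g g' _; rw [hL0, hL0]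
    | succ n ih =>
      intro g g' h
      rw [hLs, hLs, ih g g' h]
      have : ∀ k l, g ∈ P (k :: l) ↔ g' ∈ P (k :: l) := by
        intro k l
        simp only [P, mem_preimage, h]
      simp only [nxt, this]
  -- measurability of the choices
  have hLmeas : ∀ n l, MeasurableSet {g | L n g = l} := by
    intro n
    induction n with
    | zero =>
      intro l
      by_cases h : l = []
      · subst h; simp only [hL0, ofPred_true]; exact MeasurableSet.univ
      · have : {g : G | L 0 g = l} = ∅ := by
          ext g; simp only [hL0, mem_ofPred_eq, mem_empty_iff_false, iff_false]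
          exact fun h' => h h'.symm
        rw [this]; exact MeasurableSet.empty
    | succ n ih =>
      intro l
      cases l with
      | nil =>
        have : {g : G | L (n + 1) g = []} = ∅ := by
          ext g; simp only [hLs, mem_ofPred_eq, mem_empty_iff_false, iff_false]
          exact List.cons_ne_nil _ _
        rw [this]; exact MeasurableSet.empty
      | cons k l =>
        have : {g : G | L (n + 1) g = k :: l} =
            {g | L n g = l} ∩ (P (k :: l) ∩ ⋂ j ∈ {j | j < k}, (P (j :: l))ᶜ) := by
          ext g
          simp only [hLs, mem_ofPred_eq, List.cons.injEq, mem_inter_iff, mem_iInter, mem_compl_iff]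
          constructor
          · rintro ⟨h1, h2⟩
            rw [h2] at h1
            have h := hPex _ _ (hLP n g)
            rw [h2] at h
            simp only [nxt, dif_pos h] at h1
            refine ⟨h2, ?_, ?_⟩
            · rw [← h1]; exact Nat.find_spec h
            · intro j hj
              exact Nat.find_min h (by omega)
          · rintro ⟨h1, h2, h3⟩
            refine ⟨?_, h1⟩
            rw [h1]
            have h : ∃ k, g ∈ P (k :: l) := ⟨k, h2⟩
            simp only [nxt, dif_pos h]
            rw [Nat.find_eq_iff]
            exact ⟨h2, fun j hj => h3 j hj⟩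
        rw [this]
        refine (ih l).inter ((hPopen _).measurableSet.inter ?_)
        exact MeasurableSet.biInter (to_countable _) fun j _ => (hPopen _).measurableSet.compl
  let c : ℕ → G → ℕ := fun n g => nxt (L n g) g
  have hcmeas : ∀ n, Measurable (c n) := by
    intro n
    refine measurable_to_countable' fun k => ?_
    have : (c n) ⁻¹' {k} = ⋃ l : List ℕ, {g | L (n + 1) g = k :: l} := by
      ext g
      simp only [mem_preimage, mem_singleton_iff, mem_iUnion, mem_ofPred_eq, hLs,
        List.cons.injEq, c]
      constructor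
      · intro h; exact ⟨_, h, rfl⟩
      · rintro ⟨l, h, _⟩; exact h
    rw [this]
    exact MeasurableSet.iUnion fun l => hLmeas (n + 1) (k :: l)
  let s : ℕ → G → G := fun n g => D (c n g)
  have hsmeas : ∀ n, Measurable (s n) := fun n =>
    (measurable_from_top (f := D)).comp (hcmeas n)
  -- witnesses in the fibre
  have hwit : ∀ n g, ∃ g', F g' = F g ∧ dist g' (s n g) < (1 / 2 : ℝ) ^ n ∧
      dist g' (s (n + 1) g) < (1 / 2 : ℝ) ^ (n + 1) := by
    intro n g
    have h := hLP (n + 1 + 1) g
    rw [hLs, hLs] at h
    obtain ⟨g', ⟨⟨_, h1⟩, h2⟩, h3⟩ := h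
    rw [← hLs] at h2
    refine ⟨g', h3, ?_, ?_⟩
    · have : (L n g).length = n := hLlen n g
      rw [mem_ofPred_eq, this] at h1
      exact h1
    · have : (L (n + 1) g).length = n + 1 := hLlen (n + 1) g
      rw [mem_ofPred_eq, this] at h2
      exact h2
  have hcauchy : ∀ g, CauchySeq fun n => s n g := by
    intro g
    refine cauchySeq_of_le_geometric (1 / 2) 2 (by norm_num) (fun n => ?_)
    obtain ⟨g', _, h1, h2⟩ := hwit n g
    have h3 := dist_triangle_left (s n g) (s (n + 1) g) g'
    have h4 : (1 / 2 : ℝ) ^ (n + 1) ≤ (1 / 2 : ℝ) ^ n := by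
      rw [pow_succ]
      have : (0 : ℝ) < (1 / 2) ^ n := by positivity
      linarith
    linarith
  choose t ht using fun g => cauchySeq_tendsto_of_complete (hcauchy g)
  have htmeas : Measurable t :=
    measurable_of_tendsto_metrizable hsmeas (tendsto_pi_nhds.2 ht)
  have htF : ∀ g, F (t g) = F g := by
    intro g
    choose w hw1 hw2 _ using fun n => hwit n g
    have hw : Tendsto w atTop (𝓝 (t g)) := by
      rw [tendsto_iff_dist_tendsto_zero]
      have h0 : Tendsto (fun n : ℕ => (1 / 2 : ℝ) ^ n + dist (s n g) (t g)) atTop (𝓝 (0 + 0)) :=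
        (tendsto_pow_atTop_nhds_zero_of_lt_one (by norm_num) (by norm_num)).add
          (tendsto_iff_dist_tendsto_zero.1 (ht g))
      rw [add_zero] at h0
      refine squeeze_zero (fun n => dist_nonneg) (fun n => ?_) h0
      exact (dist_triangle _ (s n g) _).trans (by linarith [hw2 n])
    have h1 := (hF.tendsto (t g)).comp hw
    have h2 : Tendsto (fun n => F (w n)) atTop (𝓝 (F g)) := by
      simp only [hw1]; exact tendsto_const_nhds
    exact tendsto_nhds_unique h1 h2
  have htinv : ∀ g g', F g = F g' → t g = t g' := by
    intro g g' h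
    have : ∀ n, s n g = s n g' := by
      intro n
      have h1 := hLinv (n + 1) g g' h
      rw [hLs, hLs, List.cons.injEq] at h1
      simp only [s, c]
      rw [h1.1]
    refine tendsto_nhds_unique (ht g) ?_
    simp only [this]
    exact ht g'
  -- the transversal
  let Tr : Set G := {g | t g = g}
  have hTr : MeasurableSet Tr := measurableSet_eq_fun htmeas measurable_id
  have himg : F '' Tr = range F := by
    apply Subset.antisymm (image_subset_range _ _)
    rintro _ ⟨g, rfl⟩
    refine ⟨t g, ?_, htF g⟩
    exact htinv _ _ (htF g)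
  rw [← himg]
  refine hTr.image_of_continuousOn_injOn hF.continuousOn ?_
  intro g hg g' hg' h
  have hg1 : t g = g := hg
  have hg2 : t g' = g' := hg'
  rw [← hg1, ← hg2]
  exact htinv _ _ h

end Pool.Agent.Helper78.Orbit
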