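import Mathlib

/-!
Definitions for problem MP_c32980_lc: the `C^1` and `C^∞` topologies on groups of
diffeomorphisms, topological conjugacy and structural stability.
-/

open scoped Manifold ContDiff Topology

noncomputable section

namespace Pool.Agent.Helper78.Diffeo

/-- A smooth manifold bundled with its model (used only to iterate the tangent bundle). -/
structure Mfd where
  E : Type
  H : Type
  X : Type
  [normed : NormedAddCommGroup E]
  [space : NormedSpace ℝ E]
  [topH : TopologicalSpace H]
  I : ModelWithCorners ℝ E H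
  [topX : TopologicalSpace X]
  [chart : ChartedSpace H X]
  [smooth : IsManifold I ∞ X]

attribute [instance] Mfd.normed Mfd.space Mfd.topH Mfd.topX Mfd.chart Mfd.smooth

/-- The tangent bundle `TN` of a smooth manifold `N`, with its usual structure of a smooth
manifold. -/
def Mfd.tangent (N : Mfd) : Mfd where
  E := N.E × N.E
  H := ModelProd N.H N.E
  X := TangentBundle N.I N.X
  I := N.I.tangent

/-- Smooth self-maps of `N`. -/
abbrev Mfd.Self (N : Mfd) : Type := ContMDiffMap N.I N.I N.X N.X ∞

/-- The tangent map `Tf : TN → TN` of a smooth self-map `f` of `N`. -/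
def Mfd.tangentSelf (N : Mfd) (f : N.Self) : N.tangent.Self :=
  ⟨tangentMap N.I N.I f, f.contMDiff.contMDiff_tangentMap (by simp)⟩

/-- The iterated tangent bundle `T^k N`. -/
def Mfd.iter (N : Mfd) : ℕ → Mfd
  | 0 => N
  | k + 1 => (N.iter k).tangent

/-- The iterated tangent map `T^k f : T^k N → T^k N`. -/
def Mfd.iterSelf (N : Mfd) (f : N.Self) : (k : ℕ) → (N.iter k).Self
  | 0 => f
  | k + 1 => (N.iter k).tangentSelf (N.iterSelf f k)

/-- Topological conjugacy of self-maps of `M`: `h ∘ f = g ∘ h` for a homeomorphism `h`. -/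
def TopConj {M : Type} [TopologicalSpace M] (f g : M → M) : Prop :=
  ∃ h : M ≃ₜ M, ∀ x, h (f x) = g (h x)

variable (n : ℕ) (M : Type) [TopologicalSpace M] [ChartedSpace (EuclideanSpace ℝ (Fin n)) M]

/-- `Diff^r(M)`: the `C^r` diffeomorphisms of the `n`-manifold `M`. -/
abbrev Diff (r : WithTop ℕ∞) : Type := Diffeomorph (𝓡 n) (𝓡 n) M M r

variable [IsManifold (𝓡 n) ∞ M]

/-- The `n`-manifold `M` as a bundled smooth manifold. -/
abbrev toMfd : Mfd := ⟨EuclideanSpace ℝ (Fin n), EuclideanSpace ℝ (Fin n), M, 𝓡 n⟩

/-- The `C^1` topology on `Diff^1(M)`: the coarsest topology for which `f ↦ Tf`, with values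
in `C(TM, TM)` with the compact-open topology, is continuous. -/
@[reducible] def c1Topology : TopologicalSpace (Diff n M 1) :=
  TopologicalSpace.induced
    (fun f => (⟨tangentMap (𝓡 n) (𝓡 n) f, f.contMDiff.continuous_tangentMap le_rfl⟩ :
      C(TangentBundle (𝓡 n) M, TangentBundle (𝓡 n) M)))
    ContinuousMap.compactOpen

/-- The `C^∞` topology on `Diff^∞(M)`: the coarsest topology for which all the maps
`f ↦ T^k f`, with values in `C(T^k M, T^k M)` with the compact-open topology, are
continuous. -/
@[reducible] def smoothTopology : TopologicalSpace (Diff n M ∞) :=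
  ⨅ k : ℕ, TopologicalSpace.induced
    (fun f => ((toMfd n M).iterSelf ⟨f, f.contMDiff⟩ k :
      C(((toMfd n M).iter k).X, ((toMfd n M).iter k).X)))
    ContinuousMap.compactOpen

/-- A `C^1` diffeomorphism `f` is structurally stable if it has a neighbourhood in the `C^1`
topology consisting of `C^1` diffeomorphisms topologically conjugate to `f`. -/
def StructurallyStable (f : Diff n M 1) : Prop :=
  ∃ U ∈ @nhds _ (c1Topology n M) f, ∀ g ∈ U, TopConj (g : M → M) f

/-- The set `S(M)` of the `f` in `Diff^∞(M)` topologically conjugate to some structurally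
stable diffeomorphism of class `C^r`. -/
def conjStable (r : WithTop ℕ∞) : Set (Diff n M ∞) :=
  {f | ∃ g : Diff n M 1, ContMDiff (𝓡 n) (𝓡 n) r g ∧ ContMDiff (𝓡 n) (𝓡 n) r g.symm ∧
    StructurallyStable n M g ∧ TopConj (f : M → M) g}

end Pool.Agent.Helper78.Diffeo
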