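import Mathlib
import Pool.Agent.Helper78.BorelOrbit
import Pool.Agent.Helper78.DiffeoDefs

open scoped Manifold ContDiff Topology
open Set Filter

set_option linter.style.haveILetI false

namespace Pool.Agent.Helper78.Diffeo

section orbit

variable (X : Type) [TopologicalSpace X]

/-- homeomorphisms as pairs of mutually inverse continuous maps -/
def Gp : Type := {p : C(X, X) × C(X, X) // p.1.comp p.2 = ContinuousMap.id X ∧
  p.2.comp p.1 = ContinuousMap.id X}

instance : TopologicalSpace (Gp X) := inferInstanceAs (TopologicalSpace (Subtype _))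

variable [CompactSpace X] [TopologicalSpace.MetrizableSpace X]

instance polish_maps : PolishSpace C(X, X) := by
  letI := TopologicalSpace.metrizableSpaceMetric X
  haveI : SecondCountableTopology X := inferInstance
  infer_instance

theorem isClosed_gp : IsClosed {p : C(X, X) × C(X, X) | p.1.comp p.2 = ContinuousMap.id X ∧
    p.2.comp p.1 = ContinuousMap.id X} := by
  refine IsClosed.inter (isClosed_eq ?_ continuous_const) (isClosed_eq ?_ continuous_const)
  · exact continuous_fst.compCM continuous_snd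
  · exact continuous_snd.compCM continuous_fst

instance : PolishSpace (Gp X) := (isClosed_gp X).polishSpace

variable {X}

/-- conjugation -/
def cj (g : C(X, X)) (h : Gp X) : C(X, X) := (h.1.1.comp g).comp h.1.2

theorem cj_continuous (g : C(X, X)) : Continuous (cj g) := by
  unfold cj
  have h1 : Continuous (fun h : Gp X => h.1.1) := continuous_fst.comp continuous_subtype_val
  have h2 : Continuous (fun h : Gp X => h.1.2) := continuous_snd.comp continuous_subtype_val
  exact (h1.compCM continuous_const).compCM h2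

/-- right multiplication by an element commuting with `g` -/
def mulR (k : Gp X) (h : Gp X) : Gp X :=
  ⟨(h.1.1.comp k.1.1, k.1.2.comp h.1.2), by
    constructor
    · have : (h.1.1.comp k.1.1).comp (k.1.2.comp h.1.2) =
        h.1.1.comp ((k.1.1.comp k.1.2).comp h.1.2) := by ext; rfl
      show (h.1.1.comp k.1.1).comp (k.1.2.comp h.1.2) = _
      rw [this, k.2.1, ContinuousMap.id_comp, h.2.1]
    · have : (k.1.2.comp h.1.2).comp (h.1.1.comp k.1.1) =
        k.1.2.comp ((h.1.2.comp h.1.1).comp k.1.1) := by ext; rfl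
      show (k.1.2.comp h.1.2).comp (h.1.1.comp k.1.1) = _
      rw [this, h.2.2, ContinuousMap.id_comp, k.2.2]⟩

theorem mulR_continuous (k : Gp X) : Continuous (mulR k) := by
  have h1 : Continuous (fun h : Gp X => h.1.1) := continuous_fst.comp continuous_subtype_val
  have h2 : Continuous (fun h : Gp X => h.1.2) := continuous_snd.comp continuous_subtype_val
  exact Continuous.subtype_mk ((h1.compCM continuous_const).prodMk
    (continuous_const.compCM h2)) _

theorem measurable_orbit [MeasurableSpace C(X, X)] [BorelSpace C(X, X)] (g : C(X, X)) :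
    MeasurableSet (range (cj g)) := by
  refine Orbit.measurableSet_range (cj g) (cj_continuous g) ?_
  intro U hU
  rw [isOpen_iff_mem_nhds]
  rintro h ⟨h', hh', he⟩
  -- `k = h⁻¹ h'` commutes with `g`
  let k : Gp X := ⟨(h.1.2.comp h'.1.1, h'.1.2.comp h.1.1), by
    constructor
    · have : (h.1.2.comp h'.1.1).comp (h'.1.2.comp h.1.1) =
        h.1.2.comp ((h'.1.1.comp h'.1.2).comp h.1.1) := by ext; rfl
      show (h.1.2.comp h'.1.1).comp (h'.1.2.comp h.1.1) = _
      rw [this, h'.2.1, ContinuousMap.id_comp, h.2.2]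
    · have : (h'.1.2.comp h.1.1).comp (h.1.2.comp h'.1.1) =
        h'.1.2.comp ((h.1.1.comp h.1.2).comp h'.1.1) := by ext; rfl
      show (h'.1.2.comp h.1.1).comp (h.1.2.comp h'.1.1) = _
      rw [this, h.2.1, ContinuousMap.id_comp, h'.2.2]⟩
  have hk : mulR k h = h' := by
    apply Subtype.ext
    apply Prod.ext
    · show h.1.1.comp (h.1.2.comp h'.1.1) = h'.1.1
      rw [← ContinuousMap.comp_assoc, h.2.1, ContinuousMap.id_comp]
    · show (h'.1.2.comp h.1.1).comp h.1.2 = h'.1.2
      rw [ContinuousMap.comp_assoc, h.2.1, ContinuousMap.comp_id]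
  have hcomm : ∀ a : Gp X, cj g (mulR k a) = cj g a := by
    intro a
    -- from `cj g h' = cj g h`
    have e1 : (h'.1.1.comp g).comp h'.1.2 = (h.1.1.comp g).comp h.1.2 := he
    have e2 : (k.1.1.comp g).comp k.1.2 = g := by
      show ((h.1.2.comp h'.1.1).comp g).comp (h'.1.2.comp h.1.1) = g
      have : ((h.1.2.comp h'.1.1).comp g).comp (h'.1.2.comp h.1.1) =
          (h.1.2.comp ((h'.1.1.comp g).comp h'.1.2)).comp h.1.1 := by ext; rfl
      rw [this, e1]
      have : (h.1.2.comp ((h.1.1.comp g).comp h.1.2)).comp h.1.1 =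
          ((h.1.2.comp h.1.1).comp g).comp (h.1.2.comp h.1.1) := by ext; rfl
      rw [this, h.2.2, ContinuousMap.id_comp, ContinuousMap.comp_id]
    show ((a.1.1.comp k.1.1).comp g).comp (k.1.2.comp a.1.2) = (a.1.1.comp g).comp a.1.2
    have : ((a.1.1.comp k.1.1).comp g).comp (k.1.2.comp a.1.2) =
        (a.1.1.comp ((k.1.1.comp g).comp k.1.2)).comp a.1.2 := by ext; rfl
    rw [this, e2]
  have hnhds : (mulR k) ⁻¹' U ∈ 𝓝 h := by
    apply (mulR_continuous k).continuousAt.preimage_mem_nhds
    rw [hk]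
    exact hU.mem_nhds hh'
  refine mem_of_superset hnhds ?_
  intro a ha
  exact ⟨mulR k a, ha, hcomm a⟩

omit [CompactSpace X] [TopologicalSpace.MetrizableSpace X] in
theorem mem_range_cj (f g : C(X, X)) : f ∈ range (cj g) ↔ TopConj (f : X → X) g := by
  constructor
  · rintro ⟨h, rfl⟩
    refine ⟨⟨⟨h.1.2, h.1.1, ?_, ?_⟩, h.1.2.continuous, h.1.1.continuous⟩, ?_⟩
    · intro x; exact DFunLike.congr_fun h.2.1 x
    · intro x; exact DFunLike.congr_fun h.2.2 x
    · intro x
      show h.1.2 (h.1.1 (g (h.1.2 x))) = g (h.1.2 x)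
      exact DFunLike.congr_fun h.2.2 _
  · rintro ⟨h, hh⟩
    refine ⟨⟨(⟨h.symm, h.symm.continuous⟩, ⟨h, h.continuous⟩), ?_, ?_⟩, ?_⟩
    · ext x; exact h.symm_apply_apply x
    · ext x; exact h.apply_symm_apply x
    · ext x
      show h.symm (g (h x)) = f x
      rw [← hh x, h.symm_apply_apply]

end orbit

section manifold

variable (n : ℕ) (M : Type) [TopologicalSpace M] [ChartedSpace (EuclideanSpace ℝ (Fin n)) M]
  [IsManifold (𝓡 n) ∞ M] [CompactSpace M]

theorem secondCountable_tangent : SecondCountableTopology (TangentBundle (𝓡 n) M) := by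
  obtain ⟨s, hs, hsu⟩ := countable_cover_nhds_of_sigmaCompact
    fun x : M => chart_source_mem_nhds (EuclideanSpace ℝ (Fin n)) x
  haveI : SecondCountableTopology
      (ModelProd (EuclideanSpace ℝ (Fin n)) (EuclideanSpace ℝ (Fin n))) :=
    inferInstanceAs (SecondCountableTopology
      (EuclideanSpace ℝ (Fin n) × EuclideanSpace ℝ (Fin n)))
  refine ChartedSpace.secondCountable_of_countable_cover
    (ModelProd (EuclideanSpace ℝ (Fin n)) (EuclideanSpace ℝ (Fin n)))
    (s := (fun x : M => (⟨x, 0⟩ : TangentBundle (𝓡 n) M)) '' s) ?_ (hs.image _)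
  rw [eq_univ_iff_forall] at hsu ⊢
  intro p
  obtain ⟨x, hx, hp⟩ := mem_iUnion₂.1 (hsu p.1)
  refine mem_iUnion₂.2 ⟨⟨x, 0⟩, ⟨x, hx, rfl⟩, ?_⟩
  rw [TangentBundle.mem_chart_source_iff]
  exact hp

theorem locallyCompact_tangent : LocallyCompactSpace (TangentBundle (𝓡 n) M) := by
  haveI : LocallyCompactSpace
      (ModelProd (EuclideanSpace ℝ (Fin n)) (EuclideanSpace ℝ (Fin n))) :=
    inferInstanceAs (LocallyCompactSpace
      (EuclideanSpace ℝ (Fin n) × EuclideanSpace ℝ (Fin n)))
  exact ChartedSpace.locallyCompactSpace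
    (ModelProd (EuclideanSpace ℝ (Fin n)) (EuclideanSpace ℝ (Fin n))) _

theorem secondCountable_c1 : @SecondCountableTopology (Diff n M 1) (c1Topology n M) := by
  haveI := secondCountable_tangent n M
  haveI := locallyCompact_tangent n M
  exact TopologicalSpace.secondCountableTopology_induced _ _ _

/-- countably many classes of stable diffeomorphisms -/
theorem countable_classes (Q : Set (Diff n M 1)) (hQ : ∀ g ∈ Q, StructurallyStable n M g) :
    ∃ T : Set (Diff n M 1), T.Countable ∧ T ⊆ Q ∧
      ∀ g ∈ Q, ∃ g' ∈ T, TopConj (g : M → M) g' := by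
  letI := c1Topology n M
  haveI := secondCountable_c1 n M
  choose! U hU hU' using hQ
  obtain ⟨T, hT, hTU⟩ := TopologicalSpace.isOpen_iUnion_countable
    (fun g : Q => interior (U g.1)) (fun g => isOpen_interior)
  refine ⟨Subtype.val '' T, hT.image _, ?_, ?_⟩
  · rintro _ ⟨g, _, rfl⟩; exact g.2
  · intro g hg
    have h1 : g ∈ ⋃ g : Q, interior (U g.1) :=
      mem_iUnion.2 ⟨⟨g, hg⟩, mem_interior_iff_mem_nhds.2 (hU g hg)⟩
    rw [← hTU] at h1
    obtain ⟨g', hg', hgg⟩ := mem_iUnion₂.1 h1
    exact ⟨g'.1, ⟨g', hg', rfl⟩, hU' g'.1 g'.2 g (interior_subset hgg)⟩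

/-- continuity into the space of continuous maps -/
theorem continuous_toMaps :
    @Continuous _ _ (smoothTopology n M) _ (fun f : Diff n M ∞ => (⟨f, f.continuous⟩ : C(M, M))) := by
  letI := smoothTopology n M
  have h : Continuous (fun f : Diff n M ∞ => ((toMfd n M).iterSelf ⟨f, f.contMDiff⟩ 0 :
      C(((toMfd n M).iter 0).X, ((toMfd n M).iter 0).X))) :=
    continuous_iff_le_induced.2 (iInf_le _ 0)
  exact h

theorem TopConj.symm' {f g : M → M} (h : TopConj f g) : TopConj g f := by
  obtain ⟨h, hh⟩ := h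
  refine ⟨h.symm, fun x => ?_⟩
  have := hh (h.symm x)
  rw [h.apply_symm_apply] at this
  rw [← this, h.symm_apply_apply]

theorem TopConj.trans' {f g k : M → M} (h : TopConj f g) (h' : TopConj g k) : TopConj f k := by
  obtain ⟨h, hh⟩ := h
  obtain ⟨h', hh'⟩ := h'
  exact ⟨h.trans h', fun x => by
    simp only [Homeomorph.trans_apply]
    rw [hh, hh']⟩

/-- the main theorem -/
theorem measurable_conjStable [T2Space M] (r : WithTop ℕ∞) :
    @MeasurableSet _ (@borel _ (smoothTopology n M)) (conjStable n M r) := by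
  haveI : TopologicalSpace.MetrizableSpace M := Manifold.metrizableSpace (𝓡 n) M
  letI := smoothTopology n M
  borelize (Diff n M ∞)
  borelize C(M, M)
  let Q : Set (Diff n M 1) := {g | ContMDiff (𝓡 n) (𝓡 n) r g ∧
    ContMDiff (𝓡 n) (𝓡 n) r g.symm ∧ StructurallyStable n M g}
  obtain ⟨T, hT, hTQ, hcov⟩ := countable_classes n M Q (fun g hg => hg.2.2)
  have hset : conjStable n M r = ⋃ g ∈ T,
      (fun f : Diff n M ∞ => (⟨f, f.continuous⟩ : C(M, M))) ⁻¹'
        (range (cj (⟨g, g.continuous⟩ : C(M, M)))) := by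
    ext f
    simp only [mem_iUnion, mem_preimage, mem_range_cj]
    constructor
    · rintro ⟨g, h1, h2, h3, h4⟩
      obtain ⟨g', hg', hgg⟩ := hcov g ⟨h1, h2, h3⟩
      exact ⟨g', hg', TopConj.trans' M h4 hgg⟩
    · rintro ⟨g, hg, h⟩
      obtain ⟨h1, h2, h3⟩ := hTQ hg
      exact ⟨g, h1, h2, h3, h⟩
  have hc : Continuous (fun f : Diff n M ∞ => (⟨f, f.continuous⟩ : C(M, M))) :=
    continuous_toMaps n M
  rw [hset]
  exact MeasurableSet.biUnion hT fun g _ => hc.measurable (measurable_orbit _)

end manifold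

end Pool.Agent.Helper78.Diffeo
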