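import Pool.Agent.Helper85.IW.Statements

set_option autoImplicit false
set_option maxSynthPendingDepth 3

open Complex
open scoped ComplexConjugate

noncomputable section

namespace Helper85.IW.M_D4b

/-- the form in terms of real and imaginary parts -/
def Pf (r s α αr αs β βr βs A Ar As B Br Bs : ℝ) (p1 p2 q1 q2 m1 m2 n1 n2 : ℝ) : ℝ :=
  ((αr * p1 + αs * m1) * (r * p1) + α * (p1 ^ 2 + p2 ^ 2)
    + (βr * p1 + βs * m1) * (s * m1) + β * (m1 ^ 2 + m2 ^ 2))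
  + ((αr * q1 + αs * n1) * (r * q1) + α * (q1 ^ 2 + q2 ^ 2)
    + (βr * q1 + βs * n1) * (s * n1) + β * (n1 ^ 2 + n2 ^ 2))
  + ((Ar * p1 + As * m1) * (r * q2) + A * (p1 * q2 - p2 * q1)
    + (Br * p1 + Bs * m1) * (s * n2) + B * (m1 * n2 - m2 * n1))
  - ((Ar * q1 + As * n1) * (r * p2) + A * (q1 * p2 - q2 * p1)
    + (Br * q1 + Bs * n1) * (s * m2) + B * (n1 * m2 - n2 * m1))

theorem Pf_rot (r s α αr αs β βr βs A Ar As B Br Bs p1 p2 q1 q2 m1 m2 n1 n2 c d : ℝ)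
    (h : c ^ 2 + d ^ 2 = 1) :
    Pf r s α αr αs β βr βs A Ar As B Br Bs p1 p2 q1 q2 m1 m2 n1 n2 =
    Pf r s α αr αs β βr βs A Ar As B Br Bs (c * p1 + d * q1) (c * p2 + d * q2)
      (-d * p1 + c * q1) (-d * p2 + c * q2) (c * m1 + d * n1) (c * m2 + d * n2)
      (-d * m1 + c * n1) (-d * m2 + c * n2) := by
  have : Pf r s α αr αs β βr βs A Ar As B Br Bs (c * p1 + d * q1) (c * p2 + d * q2)
      (-d * p1 + c * q1) (-d * p2 + c * q2) (c * m1 + d * n1) (c * m2 + d * n2)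
      (-d * m1 + c * n1) (-d * m2 + c * n2) = (c ^ 2 + d ^ 2) *
      Pf r s α αr αs β βr βs A Ar As B Br Bs p1 p2 q1 q2 m1 m2 n1 n2 := by
    unfold Pf; ring
  rw [this, h, one_mul]

theorem Pf_QQ (r s α αr αs β βr βs A Ar As B Br Bs a1 a2 b1 b2 c1 c2 : ℝ) :
    Pf r s α αr αs β βr βs A Ar As B Br Bs (a1 + c1) (a2 + c2) (-(c2 - a2)) (c1 - a1)
      (c1 + b1) (c2 + b2) (-(b2 - c2)) (b1 - c1) =
    QQ 1 r s α αr αs β βr βs A Ar As B Br Bs a1 b1 c1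
      + QQ (-1) r s α αr αs β βr βs A Ar As B Br Bs (-a2) (-b2) c2 := by
  unfold Pf QQ; ring

/-- expressing the products through the unit vector -/
theorem conj_mul_eq (z X : ℂ) (hz : z ≠ 0) :
    conj z * X = (‖z‖ : ℂ) * (conj (z / ‖z‖) * X) := by
  have h : (‖z‖ : ℂ) ≠ 0 := by exact_mod_cast norm_ne_zero_iff.2 hz
  rw [map_div₀, conj_ofReal]
  field_simp

theorem unit_norm (z : ℂ) (hz : z ≠ 0) : ‖z / (‖z‖ : ℂ)‖ = 1 := by
  rw [norm_div, norm_real, norm_norm, div_self (norm_ne_zero_iff.2 hz)]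

theorem unit_sq (u : ℂ) (h : ‖u‖ = 1) : u.re ^ 2 + u.im ^ 2 = 1 := by
  have := Complex.sq_norm u
  rw [h, normSq_apply] at this
  nlinarith [this]

theorem norm_sq_unit (u X : ℂ) (h : ‖u‖ = 1) :
    ‖X‖ ^ 2 = (conj u * X).re ^ 2 + (conj u * X).im ^ 2 := by
  have h1 : ‖X‖ = ‖conj u * X‖ := by rw [norm_mul, norm_conj, h, one_mul]
  rw [h1, Complex.sq_norm, normSq_apply]; ring

theorem im_conj_unit (u X Y : ℂ) (h : ‖u‖ = 1) :
    (conj X * Y).im = (conj u * X).re * (conj u * Y).im - (conj u * X).im * (conj u * Y).re := by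
  have h1 := unit_sq u h
  simp only [mul_re, mul_im, conj_re, conj_im]
  have : X.re * Y.im - X.im * Y.re =
    (u.re ^ 2 + u.im ^ 2) * (X.re * Y.im - X.im * Y.re) := by rw [h1, one_mul]
  linear_combination this

theorem PIx_eq (z : E) (h1 : z.1 ≠ 0) (h2 : z.2 ≠ 0)
    (α αr αs β βr βs A Ar As B Br Bs : ℝ) (X Y : E) (x1 y1 x2 y2 : ℂ)
    (hx1 : x1 = conj (z.1 / ‖z.1‖) * X.1) (hy1 : y1 = conj (z.1 / ‖z.1‖) * Y.1)
    (hx2 : x2 = conj (z.2 / ‖z.2‖) * X.2) (hy2 : y2 = conj (z.2 / ‖z.2‖) * Y.2) :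
    PIx z α αr αs β βr βs A Ar As B Br Bs X Y =
    Pf ‖z.1‖ ‖z.2‖ α αr αs β βr βs A Ar As B Br Bs
      x1.re x1.im y1.re y1.im x2.re x2.im y2.re y2.im := by
  have r1 : ‖z.1‖ ≠ 0 := norm_ne_zero_iff.2 h1
  have r2 : ‖z.2‖ ≠ 0 := norm_ne_zero_iff.2 h2
  have u1 := unit_norm z.1 h1
  have u2 := unit_norm z.2 h2
  unfold PIx Pf
  rw [norm_sq_unit _ X.1 u1, norm_sq_unit _ X.2 u2, norm_sq_unit _ Y.1 u1, norm_sq_unit _ Y.2 u2,
    im_conj_unit _ X.1 Y.1 u1, im_conj_unit _ X.2 Y.2 u2,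
    im_conj_unit _ Y.1 X.1 u1, im_conj_unit _ Y.2 X.2 u2,
    conj_mul_eq z.1 X.1 h1, conj_mul_eq z.1 Y.1 h1, conj_mul_eq z.2 X.2 h2,
    conj_mul_eq z.2 Y.2 h2, ← hx1, ← hy1, ← hx2, ← hy2]
  simp only [re_ofReal_mul, im_ofReal_mul]
  rw [mul_div_cancel_left₀ _ r1, mul_div_cancel_left₀ _ r2, mul_div_cancel_left₀ _ r1,
    mul_div_cancel_left₀ _ r2]

/-- main theorem of the module -/
theorem main : StD4b := by
  intro z h1 h2 α αr αs β βr βs A Ar As B Br Bs X Y hCR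
  obtain ⟨η, hη⟩ := IsAlgClosed.exists_pow_nat_eq
    ((z.1 / ‖z.1‖) * conj (z.2 / (‖z.2‖ : ℂ))) (n := 2) (by norm_num)
  have u1 := unit_norm z.1 h1
  have u2 := unit_norm z.2 h2
  have hηn : ‖η‖ = 1 := by
    have : ‖η‖ ^ 2 = 1 := by
      rw [← norm_pow, hη, norm_mul, norm_conj, u1, u2, one_mul]
    nlinarith [norm_nonneg η, this]
  have hηs := unit_sq η hηn
  set v1 : ℂ := z.1 / ‖z.1‖ with hv1
  set v2 : ℂ := z.2 / ‖z.2‖ with hv2
  have c1 : conj v1 * v1 = 1 := by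
    rw [mul_comm, mul_conj, normSq_eq_norm_sq, u1]; norm_num
  have c2 : conj v2 * v2 = 1 := by
    rw [mul_comm, mul_conj, normSq_eq_norm_sq, u2]; norm_num
  have cη : conj η * η = 1 := by
    rw [mul_comm, mul_conj, normSq_eq_norm_sq, hηn]; norm_num
  set x1 : ℂ := conj v1 * X.1 with hx1
  set y1 : ℂ := conj v1 * Y.1 with hy1
  set x2 : ℂ := conj v2 * X.2 with hx2
  set y2 : ℂ := conj v2 * Y.2 with hy2
  -- the relation
  have hc : η * (x1 - I * y1) = conj η * (x2 + I * y2) := by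
    have e1 : η * (x1 - I * y1) = (conj η * η) * η * conj v1 * (X.1 - I * Y.1) := by
      rw [cη, hx1, hy1]; ring
    have e2 : conj η * (x2 + I * y2) = conj η * conj v2 * (X.2 + I * Y.2) := by
      rw [hx2, hy2]; ring
    have hCR' : X.2 + I * Y.2 = X.1 - I * Y.1 := hCR
    rw [e1, e2, hCR']
    have e3 : (conj η * η) * η * conj v1 = conj η * conj v2 * (conj v1 * v1) := by
      have : (conj η * η) * η * conj v1 = conj η * η ^ 2 * conj v1 := by ring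
      rw [this, hη]; ring
    rw [e3, c1, mul_one]
  set a : ℂ := conj η * (x1 + I * y1) / 2 with ha
  set c : ℂ := η * (x1 - I * y1) / 2 with hcd
  set b : ℂ := η * (x2 - I * y2) / 2 with hb
  have hc2 : c = conj η * (x2 + I * y2) / 2 := by rw [hcd, hc]
  refine ⟨a.re, b.re, c.re, -a.im, -b.im, c.im, ?_⟩
  rw [PIx_eq z h1 h2 α αr αs β βr βs A Ar As B Br Bs X Y x1 y1 x2 y2 hx1 hy1 hx2 hy2,
    Pf_rot _ _ _ _ _ _ _ _ _ _ _ _ _ _ _ _ _ _ _ _ _ _ η.re η.im hηs,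
    ← Pf_QQ]
  have k1 : ∀ w : ℂ, (w / 2).re = w.re / 2 := fun w => by
    rw [show (2 : ℂ) = ((2 : ℝ) : ℂ) by norm_num, div_ofReal_re]
  have k2 : ∀ w : ℂ, (w / 2).im = w.im / 2 := fun w => by
    rw [show (2 : ℂ) = ((2 : ℝ) : ℂ) by norm_num, div_ofReal_im]
  congr 1
  · rw [ha, hcd, k1, k1]; simp only [mul_re, mul_im, add_re, add_im, sub_re, sub_im, I_re, I_im,
      conj_re, conj_im]; ring
  · rw [ha, hcd, k2, k2]; simp only [mul_re, mul_im, add_re, add_im, sub_re, sub_im, I_re, I_im,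
      conj_re, conj_im]; ring
  · rw [ha, hcd, k2, k2]; simp only [mul_re, mul_im, add_re, add_im, sub_re, sub_im, I_re, I_im,
      conj_re, conj_im]; ring
  · rw [ha, hcd, k1, k1]; simp only [mul_re, mul_im, add_re, add_im, sub_re, sub_im, I_re, I_im,
      conj_re, conj_im]; ring
  · rw [hc2, hb, k1, k1]; simp only [mul_re, mul_im, add_re, add_im, sub_re, sub_im, I_re, I_im,
      conj_re, conj_im]; ring
  · rw [hc2, hb, k2, k2]; simp only [mul_re, mul_im, add_re, add_im, sub_re, sub_im, I_re, I_im,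
      conj_re, conj_im]; ring
  · rw [hc2, hb, k2, k2]; simp only [mul_re, mul_im, add_re, add_im, sub_re, sub_im, I_re, I_im,
      conj_re, conj_im]; ring
  · rw [hc2, hb, k1, k1]; simp only [mul_re, mul_im, add_re, add_im, sub_re, sub_im, I_re, I_im,
      conj_re, conj_im]; ring

end Helper85.IW.M_D4b
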