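import Pool.Agent.Helper85.IW.Statements

set_option autoImplicit false
set_option maxSynthPendingDepth 3

open MeasureTheory Complex Filter Topology
open scoped ENNReal NNReal ComplexConjugate

noncomputable section

namespace Helper85.IW.M_D7

theorem covR_neg (α β : ℝ) (z : E) : covR α β (-z) = -covR α β z := by
  ext X <;> simp [covR_apply] <;> ring

theorem covI_neg (α β : ℝ) (z : E) : covI α β (-z) = -covI α β z := by
  ext X <;> simp [covI_apply] <;> ring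

/-- general step: if near `z` the coefficients are given by smooth functions, the form is the sum
of the two reduced forms. -/
theorem step (hD4 : StD4) (G η : E → (E →L[ℝ] ℝ)) (α β A B : ℝ × ℝ → ℝ) (z : E)
    (h1 : z.1 ≠ 0) (h2 : z.2 ≠ 0)
    (hG : G =ᶠ[𝓝 z] fun z => covR (α (‖z.1‖, ‖z.2‖)) (β (‖z.1‖, ‖z.2‖)) z)
    (hη : η =ᶠ[𝓝 z] fun z => covI (A (‖z.1‖, ‖z.2‖)) (B (‖z.1‖, ‖z.2‖)) z)
    (αr αs βr βs Ar As Br Bs : ℝ)
    (d1 : HasFDerivAt α (lin2 αr αs) (‖z.1‖, ‖z.2‖))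
    (d2 : HasFDerivAt β (lin2 βr βs) (‖z.1‖, ‖z.2‖))
    (d3 : HasFDerivAt A (lin2 Ar As) (‖z.1‖, ‖z.2‖))
    (d4 : HasFDerivAt B (lin2 Br Bs) (‖z.1‖, ‖z.2‖))
    (hQ : ∀ e : ℝ, e = 1 ∨ e = -1 → ∀ a b c : ℝ,
      0 ≤ QQ e ‖z.1‖ ‖z.2‖ (α (‖z.1‖, ‖z.2‖)) αr αs (β (‖z.1‖, ‖z.2‖)) βr βs
        (A (‖z.1‖, ‖z.2‖)) Ar As (B (‖z.1‖, ‖z.2‖)) Br Bs a b c) :
    DifferentiableAt ℝ G z ∧ DifferentiableAt ℝ η z ∧
      ∀ X Y, CR X Y → 0 ≤ PIq (fderiv ℝ G z) (fderiv ℝ η z) X Y := by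
  obtain ⟨e1, e2, e3⟩ := hD4 α β A B z h1 h2 αr αs βr βs Ar As Br Bs d1 d2 d3 d4
  refine ⟨e1.congr_of_eventuallyEq hG, e2.congr_of_eventuallyEq hη, fun X Y hXY => ?_⟩
  obtain ⟨a, b, c, a', b', c', h⟩ := e3 X Y hXY
  rw [hG.fderiv_eq, hη.fderiv_eq, h]
  exact add_nonneg (hQ 1 (Or.inl rfl) a b c) (hQ (-1) (Or.inr rfl) a' b' c')

/-- main theorem of the module -/
theorem main (hD1 : StD1) (hD2 : StD2) (hD3 : StD3) (hD4 : StD4) (hD5 : StD5) (hD6 : StD6) :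
    StD7 := by
  intro p hp
  have hC : 0 < CC p := by unfold CC; linarith
  refine ⟨hD1 p hp, fun R => (hD2 p hp R).1, fun R => (hD2 p hp R).2, ?_, ?_, ?_, ?_⟩
  · unfold Up Wf W1
    have : (0 : ℝ) ^ p = 0 := Real.zero_rpow (by linarith)
    simp [this]
  · intro z
    unfold Gp
    rw [covR_neg]
    simp only [Prod.fst_neg, Prod.snd_neg, norm_neg]
  · intro z
    unfold ηp
    rw [covI_neg]
    simp only [Prod.fst_neg, Prod.snd_neg, norm_neg]
  · filter_upwards [hD3 (CC p) hC] with z hz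
    obtain ⟨h1, h2, h3⟩ := hz
    have r1 : 0 < ‖z.1‖ := norm_pos_iff.2 h1
    have r2 : 0 < ‖z.2‖ := norm_pos_iff.2 h2
    rcases lt_or_gt_of_ne h3 with h | h
    · -- region 1
      have hev : ∀ᶠ y : E in 𝓝 z, CC p * ‖y.1‖ < ‖y.2‖ := by
        apply (isOpen_lt _ _).mem_nhds h
        · exact continuous_const.mul (continuous_norm.comp continuous_fst)
        · exact continuous_norm.comp continuous_snd
      obtain ⟨αr, αs, βr, βs, Ar, As, Br, Bs, d1, d2, d3, d4, hQ⟩ :=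
        hD5 p hp ‖z.1‖ ‖z.2‖ r1 h
      refine step hD4 (Gp p) (ηp p) (fun q => al1 p q.1 q.2) (fun q => be1 p q.1 q.2)
        (fun q => A1 p q.1 q.2) (fun q => B1 p q.1 q.2) z h1 h2 ?_ ?_ αr αs βr βs Ar As Br Bs
        d1 d2 d3 d4 hQ
      · filter_upwards [hev] with y hy
        unfold Gp al be
        rw [if_pos hy.le, if_pos hy.le]
      · filter_upwards [hev] with y hy
        unfold ηp Af Bf
        rw [if_pos hy.le, if_pos hy.le]
    · have hev : ∀ᶠ y : E in 𝓝 z, ‖y.2‖ < CC p * ‖y.1‖ := by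
        apply (isOpen_lt _ _).mem_nhds h
        · exact continuous_norm.comp continuous_snd
        · exact continuous_const.mul (continuous_norm.comp continuous_fst)
      obtain ⟨αr, αs, βr, βs, Ar, As, Br, Bs, d1, d2, d3, d4, hQ⟩ :=
        hD6 p hp ‖z.1‖ ‖z.2‖ r1 r2 h
      refine step hD4 (Gp p) (ηp p) (fun q => al2 p q.1 q.2) (fun q => be2 p q.1 q.2)
        (fun q => A2 p q.1 q.2) (fun q => B2 p q.1 q.2) z h1 h2 ?_ ?_ αr αs βr βs Ar As Br Bs
        d1 d2 d3 d4 hQ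
      · filter_upwards [hev] with y hy
        unfold Gp al be
        rw [if_neg (not_le.2 hy), if_neg (not_le.2 hy)]
      · filter_upwards [hev] with y hy
        unfold ηp Af Bf
        rw [if_neg (not_le.2 hy), if_neg (not_le.2 hy)]

end Helper85.IW.M_D7
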