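import Pool.Agent.Helper85.IW.Statements

set_option autoImplicit false
set_option maxSynthPendingDepth 3

noncomputable section

namespace Helper85.IW.M_K

theorem one_add_CC (p : ℝ) (hp : 2 < p) : 1 + CC p = p * pF (1 / p) := by
  unfold CC pF; field_simp; ring

/-- the value of `DD` -/
theorem DD_eq (f x : ℝ) (p : ℝ) (hf : f = 1 - 2 * (1 / p)) (hx : x = x1 p)
    (hxf : x * (1 + f / 30) = 1) : DD p = 1 + f * (1 / 15 + 41 / 1000 * x ^ 2) := by
  unfold DD uu1 pf h1 pF
  rw [← hx, ← hf]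
  have e : (1 + f / 30) * x = 1 := by rw [mul_comm]; exact hxf
  have : (1 + f / 30) * x ^ 3 = x ^ 2 := by
    have : (1 + f / 30) * x ^ 3 = ((1 + f / 30) * x) * x ^ 2 := by ring
    rw [this, e, one_mul]
  rw [e]
  have e2 : 4 * (1 + f / 30) * x ^ 3 = 4 * x ^ 2 := by
    rw [mul_assoc, this]
  rw [e2]; ring

set_option maxHeartbeats 2000000 in
/-- main theorem of the module -/
theorem main : StK := by
  intro p hp
  have hp0 : 0 < p := by linarith
  have hC : 1 < CC p := by unfold CC; nlinarith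
  have hC0 : 0 < CC p := by linarith
  have hF := one_add_CC p hp
  set f : ℝ := 1 - 2 * (1 / p) with hf
  set x : ℝ := x1 p with hx
  have hpF : pF (1 / p) = 1 + f / 30 := by unfold pF; rw [hf]
  have hθ : 1 / p = (1 - f) / 2 := by rw [hf]; ring
  have hf0 : 0 < f := by
    rw [hf]
    have : 1 / p < 1 / 2 := one_div_lt_one_div_of_lt (by norm_num) hp
    linarith
  have hf1 : f < 1 := by
    rw [hf]
    have : 0 < 1 / p := by positivity
    linarith
  have hF0 : 0 < 1 + f / 30 := by positivity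
  have hxF : x * (1 + f / 30) = 1 := by
    rw [hx]; unfold x1
    rw [hF, hpF]
    field_simp
  have hx1 : x ≤ 1 := by
    by_contra h
    push Not at h
    nlinarith
  have hxf : 1 - f / 30 ≤ x := by
    by_contra h
    push Not at h
    have : x * (1 + f / 30) < (1 - f / 30) * (1 + f / 30) := by
      apply mul_lt_mul_of_pos_right h hF0
    nlinarith
  have hxf2 : f / 31 ≤ 1 - x := by
    have h1 : 1 - x = x * (f / 30) := by linear_combination -hxF
    have h2 : 30 / 31 ≤ x := by
      by_contra h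
      push Not at h
      nlinarith
    rw [h1]
    nlinarith
  have hx30 : 30 / 31 ≤ x := by
    by_contra h
    push Not at h
    nlinarith
  have hx0 : 0 < x := by linarith
  have hD := DD_eq f x p hf hx hxF
  have hxx : x ^ 2 ≤ 1 := by nlinarith
  have hxx2 : 1 - f / 15 ≤ x ^ 2 := by nlinarith
  have hxx3 : (93 : ℝ) / 100 ≤ x ^ 2 := by nlinarith
  have hD1 : 1 ≤ DD p := by rw [hD]; nlinarith [sq_nonneg x]
  have hD0 : 0 < DD p := by linarith
  have hx2 : (1 + CC p) * x = p := by
    rw [hx]; unfold x1; field_simp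
  -- q0
  have hq : (1 + CC p) ^ 2 * q0 x = p ^ 2 * q0xx x := by
    have h10 : q0 x = x ^ 2 * q0xx x := by unfold q0 q0xx; ring
    have h11 : (1 + CC p) ^ 2 * x ^ 2 = p ^ 2 := by rw [← mul_pow, hx2]
    rw [h10, ← mul_assoc, h11]
  have hqle : q0xx x ≤ 144 / 1000 := by unfold q0xx; nlinarith
  have hqge : 144 / 1000 - 7 / 1000 * f ≤ q0xx x := by unfold q0xx; nlinarith
  have hq0 : 0 ≤ q0xx x := by unfold q0xx; positivity
  have hmm : mm p = (p - 2) * (1 - p * q0xx x / (CC p * DD p)) := by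
    unfold mm
    rw [← hx, hq]
    congr 2
    field_simp
  have hCp : CC p = p * (1 + f / 30) - 1 := by rw [← hpF, ← hF]; ring
  have hpf : p * f = p - 2 := by rw [hf]; field_simp
  -- r0
  have hr : r0 x = 763 / 1000 + (1 - x) * (784 / 1000 - 744 / 1000 * x + 392 / 1000 * x ^ 2) := by
    unfold r0; ring
  have hg1 : 42 / 100 ≤ 784 / 1000 - 744 / 1000 * x + 392 / 1000 * x ^ 2 := by linarith
  have hg2 : 784 / 1000 - 744 / 1000 * x + 392 / 1000 * x ^ 2 ≤ 44 / 100 := by
    have h12 : 0 ≤ (1 - x) * (x - 30 / 31) := mul_nonneg (by linarith) (by linarith)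
    have h13 : (1 - x) * (x - 30 / 31) = 61 / 31 * x - 30 / 31 - x ^ 2 := by ring
    rw [h13] at h12
    linarith
  have hr1 : 763 / 1000 + 42 / 100 * (1 - x) ≤ r0 x := by
    rw [hr]
    have := mul_le_mul_of_nonneg_left hg1 (by linarith : (0:ℝ) ≤ 1 - x)
    linarith
  have hr2 : r0 x ≤ 763 / 1000 + 44 / 100 * (1 - x) := by
    rw [hr]
    have := mul_le_mul_of_nonneg_left hg2 (by linarith : (0:ℝ) ≤ 1 - x)
    linarith
  have hfx : f * x ^ 2 ≤ f := by nlinarith
  have hfx2 : 93 / 100 * f ≤ f * x ^ 2 := by nlinarith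
  have hlow : 69 / 100 * DD p ≤ r0 x := by rw [hD]; linarith
  have hup : r0 x ≤ 77 / 100 * DD p := by rw [hD]; linarith
  have hMM : MM p = (p - 2) * ((1 + CC p) ^ 2 / CC p) * (r0 x / DD p) := by
    unfold MM; rw [← hx]; field_simp
  have hpos : 0 ≤ (p - 2) * ((1 + CC p) ^ 2 / CC p) := by
    apply mul_nonneg (by linarith); positivity
  refine ⟨?_, hC, hD1, hx30, hx1, hF, ?_, ?_, ?_, ?_, ?_, ?_⟩
  · unfold cc
    have : 0 < CC p / (1 + CC p) := by positivity
    positivity
  · rw [hpF]; exact hxF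
  · unfold uu h0 pf
    rw [hpF, ← hf]
    have e : (1 + f / 30) * x = 1 := by rw [mul_comm]; exact hxF
    have e2 : (1 + f / 30) * x ^ 2 = x := by
      have : (1 + f / 30) * x ^ 2 = ((1 + f / 30) * x) * x := by ring
      rw [this, e, one_mul]
    rw [e, e2]
    linear_combination hxF
  · rw [hmm]
    apply mul_nonneg (by linarith)
    rw [sub_nonneg, div_le_one (by positivity)]
    have h14 : p * q0xx x ≤ p * (144 / 1000) := mul_le_mul_of_nonneg_left hqle hp0.le
    have h15 : p / 2 ≤ CC p := by unfold CC; linarith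
    have h16 : CC p * 1 ≤ CC p * DD p := mul_le_mul_of_nonneg_left hD1 hC0.le
    linarith
  · rw [hmm]
    apply mul_le_mul_of_nonneg_left _ (by linarith)
    have key : (CC p / 10 + 15 / 100) * DD p ≤ p * q0xx x := by
      have h3 : CC p / 10 + 15 / 100 = p * ((1 + f / 30) / 10 + (1 - f) / 2 / 20) := by
        rw [hCp, ← hθ]; field_simp; ring
      rw [h3, mul_assoc]
      apply mul_le_mul_of_nonneg_left _ hp0.le
      rw [hD]
      have h4 : (1 + f / 30) / 10 + (1 - f) / 2 / 20 = 125 / 1000 - 65 / 3000 * f := by ring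
      rw [h4]
      have h5 : 1 + f * (1 / 15 + 41 / 1000 * x ^ 2) ≤ 1 + 108 / 1000 * f := by linarith
      have h6 : 0 ≤ 125 / 1000 - 65 / 3000 * f := by linarith
      have h7 := mul_le_mul_of_nonneg_left h5 h6
      have h17 : (125 / 1000 - 65 / 3000 * f) * (1 + 108 / 1000 * f) =
        125 / 1000 - (65 / 3000 - 125 / 1000 * (108 / 1000)) * f
          - 65 / 3000 * (108 / 1000) * f ^ 2 := by ring
      have h18 : 0 ≤ f ^ 2 := sq_nonneg f
      linarith
    have h8 : 1 / 10 + 15 / 100 / CC p ≤ p * q0xx x / (CC p * DD p) := by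
      rw [le_div_iff₀ (by positivity)]
      have : (1 / 10 + 15 / 100 / CC p) * (CC p * DD p) = (CC p / 10 + 15 / 100) * DD p := by
        field_simp
      rw [this]; exact key
    linarith
  · rw [hMM]
    have h9 : 69 / 100 ≤ r0 x / DD p := by rw [le_div_iff₀ hD0]; exact hlow
    have := mul_le_mul_of_nonneg_left h9 hpos
    calc (p - 2) * (69 / 100) * (1 + CC p) ^ 2 / CC p
        = (p - 2) * ((1 + CC p) ^ 2 / CC p) * (69 / 100) := by ring
      _ ≤ _ := this
  · rw [hMM]
    have h9 : r0 x / DD p ≤ 77 / 100 := by rw [div_le_iff₀ hD0]; exact hup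
    have := mul_le_mul_of_nonneg_left h9 hpos
    calc _ ≤ (p - 2) * ((1 + CC p) ^ 2 / CC p) * (77 / 100) := this
      _ = (p - 2) * (77 / 100) * (1 + CC p) ^ 2 / CC p := by ring

end Helper85.IW.M_K
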