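import Mathlib

/-!
Definitions for problem MP_54e6ab_lc: plactic monoids, the signature of monoids with
constant symbols, an explicit Goedel numbering of its sentences, and decidability of the
first-order theory.
-/



namespace Pool.Agent.Helper78.Plactic

/-- The Knuth relations `x z y = z x y` (for `x ≤ y < z`) and `y x z = y z x` (for `x < y ≤ z`)
on words over a totally ordered alphabet `A`. -/
inductive Knuth (A : Type) [LinearOrder A] : FreeMonoid A → FreeMonoid A → Prop
  | first (x y z : A) : x ≤ y → y < z →
      Knuth A (FreeMonoid.of x * FreeMonoid.of z * FreeMonoid.of y)
        (FreeMonoid.of z * FreeMonoid.of x * FreeMonoid.of y)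
  | second (x y z : A) : x < y → y ≤ z →
      Knuth A (FreeMonoid.of y * FreeMonoid.of x * FreeMonoid.of z)
        (FreeMonoid.of y * FreeMonoid.of z * FreeMonoid.of x)

/-- The plactic monoid `P(A)`: the quotient of the free monoid on `A` by the congruence
generated by the Knuth relations. -/
abbrev PlacticMonoid (A : Type) [LinearOrder A] : Type := PresentedMonoid (Knuth A)

/-- Function symbols of the signature of monoids with constant symbols indexed by `C`. -/
inductive Sym (C : Type) : ℕ → Type
  | one : Sym C 0
  | const (c : C) : Sym C 0
  | mul : Sym C 2

/-- The signature of monoids with constant symbols indexed by `C` (no relation symbols). -/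
def sig (C : Type) : FirstOrder.Language.{0, 0} := ⟨Sym C, fun _ => Empty⟩

/-- `P(A)` as a structure: `one` and `mul` are the unit and the product of the monoid `P(A)`,
and the constant symbol `c` is interpreted as the generator `con c`. -/
@[reducible] def placticStructure {A C : Type} [LinearOrder A] (con : C → A) :
    (sig C).Structure (PlacticMonoid A) where
  funMap := fun {_} f =>
    match f with
    | .one => fun _ => 1
    | .const c => fun _ => PresentedMonoid.of (Knuth A) (con c)
    | .mul => fun v => v 0 * v 1
  RelMap := fun {_} r => Empty.elim r

/-- Goedel numbers of terms with variables `x_0, ..., x_{n-1}`. -/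
def termCode {C : Type} [Encodable C] {n : ℕ} : (sig C).Term (Empty ⊕ Fin n) → ℕ
  | .var (.inl e) => Empty.elim e
  | .var (.inr i) => Nat.pair 0 i
  | .func (l := 0) .one _ => Nat.pair 1 0
  | .func (l := 0) (.const c) _ => Nat.pair 2 (Encodable.encode c)
  | .func (l := 2) .mul ts => Nat.pair 3 (Nat.pair (termCode (ts 0)) (termCode (ts 1)))

/-- Goedel numbers of first-order formulas with free variables `x_0, ..., x_{n-1}`. -/
def formulaCode {C : Type} [Encodable C] : {n : ℕ} → (sig C).BoundedFormula Empty n → ℕ
  | _, .falsum => Nat.pair 0 0
  | _, .equal t s => Nat.pair 1 (Nat.pair (termCode t) (termCode s))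
  | _, .rel R _ => Empty.elim R
  | _, .imp f g => Nat.pair 2 (Nat.pair (formulaCode f) (formulaCode g))
  | _, .all f => Nat.pair 3 (formulaCode f)

/-- The first-order theory of `P(A)`, in the signature of monoids with constant symbols
indexed by `C` and interpreted through `con`, is decidable: some computable function
recognizes the Goedel numbers of true sentences among the Goedel numbers of sentences. -/
def TheoryDecidable {A C : Type} [LinearOrder A] [Encodable C] (con : C → A) : Prop :=
  ∃ d : ℕ → Bool, Computable d ∧ ∀ φ : (sig C).Sentence,
    (d (formulaCode φ) = true ↔
      @FirstOrder.Language.Sentence.Realize (sig C) (PlacticMonoid A) (placticStructure con) φ)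

/-- Sanity check: different terms have different Goedel numbers. -/
theorem termCode_injective {C : Type} [Encodable C] {n : ℕ} :
    Function.Injective (termCode : (sig C).Term (Empty ⊕ Fin n) → ℕ) := by
  intro t
  induction t with
  | var x =>
    rcases x with x | i
    · exact x.elim
    · intro s h
      cases s with
      | var y =>
        rcases y with y | j
        · exact y.elim
        · simp only [termCode, Nat.pair_eq_pair, true_and] at h
          rw [Fin.ext h]
      | func f ts => cases f <;> simp [termCode, Nat.pair_eq_pair] at h
  | func f ts ih =>
    intro s h
    cases s with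
    | var y =>
      rcases y with y | j
      · exact y.elim
      · cases f <;> simp [termCode, Nat.pair_eq_pair] at h
    | func g ss =>
      cases f <;> cases g <;> simp [termCode, Nat.pair_eq_pair] at h
      · congr 1; funext i; exact i.elim0
      · subst h; congr 1; funext i; exact i.elim0
      · congr 1
        funext i
        fin_cases i
        · exact ih 0 h.1
        · exact ih 1 h.2

/-- Sanity check: different formulas have different Goedel numbers. -/
theorem formulaCode_injective {C : Type} [Encodable C] {n : ℕ} :
    Function.Injective (formulaCode : (sig C).BoundedFormula Empty n → ℕ) := by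
  intro f
  induction f with
  | falsum => intro g h; cases g with
    | falsum => rfl
    | rel R _ => exact R.elim
    | _ => simp [formulaCode, Nat.pair_eq_pair] at h
  | equal t s => intro g h; cases g with
    | equal t' s' =>
      simp only [formulaCode, Nat.pair_eq_pair, true_and] at h
      rw [termCode_injective h.1, termCode_injective h.2]
    | rel R _ => exact R.elim
    | _ => simp [formulaCode, Nat.pair_eq_pair] at h
  | rel R _ => exact R.elim
  | imp f1 f2 ih1 ih2 => intro g h; cases g with
    | imp g1 g2 =>
      simp only [formulaCode, Nat.pair_eq_pair, true_and] at h
      rw [ih1 h.1, ih2 h.2]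
    | rel R _ => exact R.elim
    | _ => simp [formulaCode, Nat.pair_eq_pair] at h
  | all f ih => intro g h; cases g with
    | all g =>
      simp only [formulaCode, Nat.pair_eq_pair, true_and] at h
      rw [ih h]
    | rel R _ => exact R.elim
    | _ => simp [formulaCode, Nat.pair_eq_pair] at h

end Pool.Agent.Helper78.Plactic
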