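import Mathlib
import Pool.Agent.Helper78.PlacticDefs

namespace Pool.Agent.Helper78.Plactic

variable {A : Type} [LinearOrder A]

/-- class of a word -/
def cls (l : List A) : PlacticMonoid A := PresentedMonoid.mk (Knuth A) (FreeMonoid.ofList l)

/-- generator -/
def gen (a : A) : PlacticMonoid A := PresentedMonoid.of (Knuth A) a

theorem cls_append (l l' : List A) : cls (l ++ l') = cls l * cls l' := by
  unfold cls
  rw [FreeMonoid.ofList_append, map_mul]

theorem cls_nil : cls ([] : List A) = 1 := rfl

theorem cls_single (a : A) : cls [a] = gen a := rfl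

theorem cls_cons (a : A) (l : List A) : cls (a :: l) = gen a * cls l := by
  rw [← cls_single, ← cls_append]; rfl

theorem cls_surj (w : PlacticMonoid A) : ∃ l : List A, w = cls l := by
  obtain ⟨u, hu⟩ := PresentedMonoid.surjective_mk w
  exact ⟨FreeMonoid.toList u, by rw [← hu]; rfl⟩

/-- sorted words -/
def Sor (l : List A) : Prop := l.Pairwise (· ≤ ·)

/-- the congruence whose only singletons are the sorted words -/
def sortedCon : Con (FreeMonoid A) where
  r u v := u = v ∨ (¬ Sor (FreeMonoid.toList u) ∧ ¬ Sor (FreeMonoid.toList v))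
  iseqv := by
    refine ⟨fun u => Or.inl rfl, ?_, ?_⟩
    · rintro u v (h | h)
      · exact Or.inl h.symm
      · exact Or.inr ⟨h.2, h.1⟩
    · rintro u v w (rfl | h) (rfl | h')
      · exact Or.inl rfl
      · exact Or.inr h'
      · exact Or.inr h
      · exact Or.inr ⟨h.1, h'.2⟩
  mul' := by
    rintro u v u' v' h h'
    have hl : ∀ a b : FreeMonoid A, ¬ Sor (FreeMonoid.toList a) →
        ¬ Sor (FreeMonoid.toList (a * b)) := by
      intro a b ha hab
      rw [FreeMonoid.toList_mul] at hab
      exact ha (List.pairwise_append.1 hab).1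
    have hr : ∀ a b : FreeMonoid A, ¬ Sor (FreeMonoid.toList b) →
        ¬ Sor (FreeMonoid.toList (a * b)) := by
      intro a b ha hab
      rw [FreeMonoid.toList_mul] at hab
      exact ha (List.pairwise_append.1 hab).2.1
    rcases h with rfl | h
    · rcases h' with rfl | h'
      · exact Or.inl rfl
      · exact Or.inr ⟨hr _ _ h'.1, hr _ _ h'.2⟩
    · exact Or.inr ⟨hl _ _ h.1, hl _ _ h.2⟩

theorem knuth_le_sorted : conGen (Knuth A) ≤ sortedCon := by
  rw [Con.conGen_le]
  intro u v h
  show u = v ∨ _
  right
  cases h with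
  | first x y z h1 h2 =>
    constructor
    · intro h
      have h' : Sor [x, z, y] := h
      simp only [Sor, List.pairwise_cons, List.mem_cons] at h'
      exact absurd (h'.2.1 y (by simp)) (not_le.2 h2)
    · intro h
      have h' : Sor [z, x, y] := h
      simp only [Sor, List.pairwise_cons, List.mem_cons] at h'
      exact absurd (h'.1 y (by simp)) (not_le.2 h2)
  | second x y z h1 h2 =>
    constructor
    · intro h
      have h' : Sor [y, x, z] := h
      simp only [Sor, List.pairwise_cons, List.mem_cons] at h'
      exact absurd (h'.1 x (by simp)) (not_le.2 h1)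
    · intro h
      have h' : Sor [y, z, x] := h
      simp only [Sor, List.pairwise_cons, List.mem_cons] at h'
      exact absurd (h'.1 x (by simp)) (not_le.2 h1)

theorem cls_eq_iff {l l' : List A} :
    cls l = cls l' ↔ conGen (Knuth A) (FreeMonoid.ofList l) (FreeMonoid.ofList l') :=
  PresentedMonoid.mk_eq_mk_iff

/-- sorted words are alone in their class -/
theorem eq_of_cls_eq {l l' : List A} (hl : Sor l) (h : cls l = cls l') : l = l' := by
  have h1 := knuth_le_sorted (cls_eq_iff.1 h)
  rcases h1 with h1 | h1
  · exact FreeMonoid.ofList.injective h1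
  · exact absurd hl h1.1

/-- existence of a nondecreasing subsequence of a given length -/
def HasInc (n : ℕ) (w : List A) : Prop := ∃ s : List A, s.Sublist w ∧ Sor s ∧ s.length = n

/-- the congruence of words with the same nondecreasing subsequence lengths in all contexts -/
def incCon : Con (FreeMonoid A) where
  r u v := ∀ (p q : List A) (n : ℕ),
    HasInc n (p ++ FreeMonoid.toList u ++ q) ↔ HasInc n (p ++ FreeMonoid.toList v ++ q)
  iseqv := ⟨fun _ _ _ _ => Iff.rfl, fun h p q n => (h p q n).symm,
    fun h h' p q n => (h p q n).trans (h' p q n)⟩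
  mul' := by
    intro u v u' v' h h' p q n
    rw [FreeMonoid.toList_mul, FreeMonoid.toList_mul]
    have h1 := h p (FreeMonoid.toList u' ++ q) n
    have h2 := h' (p ++ FreeMonoid.toList v) q n
    simp only [List.append_assoc] at h1 h2 ⊢
    exact h1.trans h2

theorem hasInc_swap (p q m m' : List A)
    (h : ∀ s2 : List A, s2.Sublist m → Sor s2 → ∃ s2' : List A, s2'.Sublist m' ∧ Sor s2' ∧
      s2'.length = s2.length ∧ (∀ a, (∀ b ∈ s2, a ≤ b) → ∀ b ∈ s2', a ≤ b) ∧
      (∀ a, (∀ b ∈ s2, b ≤ a) → ∀ b ∈ s2', b ≤ a)) (n : ℕ) :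
    HasInc n (p ++ m ++ q) → HasInc n (p ++ m' ++ q) := by
  rintro ⟨s, hs, hsor, hlen⟩
  obtain ⟨s12, s3, rfl, h12, h3⟩ := List.sublist_append_iff.1 hs
  obtain ⟨s1, s2, rfl, h1, h2⟩ := List.sublist_append_iff.1 h12
  rw [Sor, List.pairwise_append, List.pairwise_append] at hsor
  obtain ⟨⟨g1, g2, g12⟩, g3, g13⟩ := hsor
  obtain ⟨s2', k1, k2, k3, k4, k5⟩ := h s2 h2 g2
  refine ⟨s1 ++ s2' ++ s3, (h1.append k1).append h3, ?_, ?_⟩
  · rw [Sor, List.pairwise_append, List.pairwise_append]
    refine ⟨⟨g1, k2, ?_⟩, g3, ?_⟩
    · intro a ha b hb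
      exact k4 a (fun b hb => g12 a ha b hb) b hb
    · intro a ha b hb
      rw [List.mem_append] at ha
      rcases ha with ha | ha
      · exact g13 a (List.mem_append.2 (Or.inl ha)) b hb
      · exact k5 b (fun c hc => g13 c (List.mem_append.2 (Or.inr hc)) b hb) a ha
  · simp only [List.length_append] at hlen ⊢
    omega

omit [LinearOrder A] in
theorem sub3 {x y z : A} {s : List A} (hs : s.Sublist [x, y, z]) :
    s = [] ∨ s = [x] ∨ s = [y] ∨ s = [z] ∨ s = [x, y] ∨ s = [x, z] ∨ s = [y, z] ∨
      s = [x, y, z] := by
  rw [← List.mem_sublists'] at hs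
  simp [List.sublists'] at hs
  tauto

theorem knuth_le_inc : conGen (Knuth A) ≤ incCon := by
  rw [Con.conGen_le]
  intro u v h p q n
  cases h with
  | first x y z h1 h2 =>
    have hxz : x ≤ z := h1.trans h2.le
    have hzy : ¬ z ≤ y := not_le.2 h2
    have hzx : ¬ z ≤ x := fun h => hzy (h.trans h1)
    show HasInc n (p ++ [x, z, y] ++ q) ↔ HasInc n (p ++ [z, x, y] ++ q)
    constructor
    · apply hasInc_swap
      intro s hs hsor
      rcases sub3 hs with rfl | rfl | rfl | rfl | rfl | rfl | rfl | rfl
      · exact ⟨[], by simp, by simp [Sor], rfl, by simp, by simp⟩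
      · exact ⟨[x], by simp, by simp [Sor], rfl, by simp, by simp⟩
      · exact ⟨[z], by simp, by simp [Sor], rfl, by simp, by simp⟩
      · exact ⟨[y], by simp, by simp [Sor], rfl, by simp, by simp⟩
      · refine ⟨[x, y], by simp, by simp [Sor, h1], rfl, ?_, ?_⟩
        · intro a ha b hb
          simp at ha hb
          rcases hb with rfl | rfl
          · exact ha.1
          · exact ha.1.trans h1
        · intro a ha b hb
          simp at ha hb
          rcases hb with rfl | rfl
          · exact ha.1
          · exact h2.le.trans ha.2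
      · exact ⟨[x, y], by simp, by simp [Sor, h1], rfl, by simp, by simp⟩
      · simp [Sor, hzy] at hsor
      · simp [Sor, hzy] at hsor
    · apply hasInc_swap
      intro s hs hsor
      rcases sub3 hs with rfl | rfl | rfl | rfl | rfl | rfl | rfl | rfl
      · exact ⟨[], by simp, by simp [Sor], rfl, by simp, by simp⟩
      · exact ⟨[z], by simp, by simp [Sor], rfl, by simp, by simp⟩
      · exact ⟨[x], by simp, by simp [Sor], rfl, by simp, by simp⟩
      · exact ⟨[y], by simp, by simp [Sor], rfl, by simp, by simp⟩
      · simp [Sor, hzx] at hsor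
      · simp [Sor, hzy] at hsor
      · refine ⟨[x, y], ?_, by simp [Sor, h1], rfl, by simp, by simp⟩
        exact List.Sublist.cons_cons x (List.Sublist.cons z (List.Sublist.refl _))
      · simp [Sor, hzx] at hsor
  | second x y z h1 h2 =>
    have hyx : ¬ y ≤ x := not_le.2 h1
    have hzx : ¬ z ≤ x := fun h => hyx (h2.trans h)
    show HasInc n (p ++ [y, x, z] ++ q) ↔ HasInc n (p ++ [y, z, x] ++ q)
    constructor
    · apply hasInc_swap
      intro s hs hsor
      rcases sub3 hs with rfl | rfl | rfl | rfl | rfl | rfl | rfl | rfl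
      · exact ⟨[], by simp, by simp [Sor], rfl, by simp, by simp⟩
      · exact ⟨[y], by simp, by simp [Sor], rfl, by simp, by simp⟩
      · exact ⟨[x], by simp, by simp [Sor], rfl, by simp, by simp⟩
      · exact ⟨[z], by simp, by simp [Sor], rfl, by simp, by simp⟩
      · simp [Sor, hyx] at hsor
      · exact ⟨[y, z], by simp, by simp [Sor, h2], rfl, by simp, by simp⟩
      · refine ⟨[y, z], by simp, by simp [Sor, h2], rfl, ?_, ?_⟩
        · intro a ha b hb
          simp at ha hb
          rcases hb with rfl | rfl
          · exact ha.1.trans h1.le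
          · exact ha.2
        · intro a ha b hb
          simp at ha hb
          rcases hb with rfl | rfl
          · exact h2.trans ha.2
          · exact ha.2
      · simp [Sor, hyx] at hsor
    · apply hasInc_swap
      intro s hs hsor
      rcases sub3 hs with rfl | rfl | rfl | rfl | rfl | rfl | rfl | rfl
      · exact ⟨[], by simp, by simp [Sor], rfl, by simp, by simp⟩
      · exact ⟨[y], by simp, by simp [Sor], rfl, by simp, by simp⟩
      · exact ⟨[z], by simp, by simp [Sor], rfl, by simp, by simp⟩
      · exact ⟨[x], by simp, by simp [Sor], rfl, by simp, by simp⟩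
      · refine ⟨[y, z], ?_, by simp [Sor, h2], rfl, by simp, by simp⟩
        exact List.Sublist.cons_cons y (List.Sublist.cons x (List.Sublist.refl _))
      · simp [Sor, hyx] at hsor
      · simp [Sor, hzx] at hsor
      · simp [Sor, hyx] at hsor

theorem hasInc_of_cls_eq {l l' : List A} (h : cls l = cls l') (n : ℕ) :
    HasInc n l → HasInc n l' := by
  have h1 := knuth_le_inc (cls_eq_iff.1 h) [] [] n
  simpa using h1.1

/-! ### generators and powers -/

theorem cls_replicate (a : A) (n : ℕ) : cls (List.replicate n a) = gen a ^ n := by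
  induction n with
  | zero => simp [cls_nil]
  | succ n ih => rw [List.replicate_succ, cls_cons, ih, pow_succ']

theorem sor_replicate (a : A) (n : ℕ) : Sor (List.replicate n a) := by
  simp [Sor, List.pairwise_replicate]

theorem gen_injective : Function.Injective (gen : A → PlacticMonoid A) := by
  intro a b h
  have h1 := eq_of_cls_eq (l := [a]) (l' := [b]) (by simp [Sor]) h
  simpa using h1

theorem pow_injective (a : A) {m n : ℕ} (h : gen a ^ m = gen a ^ n) : m = n := by
  rw [← cls_replicate, ← cls_replicate] at h
  have := eq_of_cls_eq (sor_replicate a m) h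
  simpa using congrArg List.length this

/-- Knuth relations in use -/
theorem knuth_xyx {a b : A} (h : a ≤ b) : gen a * gen b * gen a = gen b * gen a * gen a := by
  rcases h.eq_or_lt with rfl | h
  · rfl
  · exact PresentedMonoid.mk_eq_mk_of_rel (Knuth.first a a b le_rfl h)

theorem knuth_yxy {a b : A} (h : a < b) : gen b * gen a * gen b = gen b * gen b * gen a :=
  PresentedMonoid.mk_eq_mk_of_rel (Knuth.second a b b h le_rfl)

theorem le_iff (a b : A) : a ≤ b ↔ gen a * gen b * gen a = gen b * gen a * gen a := by
  constructor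
  · exact knuth_xyx
  · intro h
    by_contra hn
    rw [not_le] at hn
    have h1 : cls [b, a, a] = cls [a, b, a] := by
      simp only [cls_cons, cls_nil, mul_one]
      rw [← mul_assoc, ← mul_assoc]
      exact h.symm
    have h2 := eq_of_cls_eq (by simp [Sor, hn.le]) h1
    simp at h2
    exact hn.ne h2.1

/-- generators are the atoms -/
def IsGen (w : PlacticMonoid A) : Prop := w ≠ 1 ∧ ∀ u v, w = u * v → u = 1 ∨ v = 1

theorem cls_eq_one {l : List A} : cls l = 1 ↔ l = [] := by
  constructor
  · intro h
    have h1 : cls ([] : List A) = cls l := by rw [h]; rfl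
    exact (eq_of_cls_eq (by simp [Sor]) h1).symm
  · rintro rfl; rfl

theorem isGen_iff (w : PlacticMonoid A) : IsGen w ↔ ∃ a, w = gen a := by
  constructor
  · rintro ⟨h1, h2⟩
    obtain ⟨l, rfl⟩ := cls_surj w
    cases l with
    | nil => exact absurd cls_nil h1
    | cons a l =>
      rcases h2 (gen a) (cls l) (cls_cons a l) with h3 | h3
      · rw [← cls_single, cls_eq_one] at h3; simp at h3
      · rw [cls_eq_one] at h3
        subst h3
        exact ⟨a, cls_single a⟩
  · rintro ⟨a, rfl⟩
    constructor
    · rw [← cls_single, Ne, cls_eq_one]; simp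
    · intro u v h
      obtain ⟨lu, rfl⟩ := cls_surj u
      obtain ⟨lv, rfl⟩ := cls_surj v
      rw [← cls_single, ← cls_append] at h
      have h1 := eq_of_cls_eq (by simp [Sor]) h
      rw [cls_eq_one, cls_eq_one]
      cases lu with
      | nil => left; rfl
      | cons b lu =>
        right
        simp at h1
        exact h1.2.2

/-- the order on generators -/
def Le (x y : PlacticMonoid A) : Prop := x * y * x = y * x * x

theorem le_gen_iff (a b : A) : Le (gen a) (gen b) ↔ a ≤ b := (le_iff a b).symm

/-- rows -/
def IsRow (w : PlacticMonoid A) : Prop :=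
  ∀ x y u v, IsGen x → IsGen y → w = u * x * y * v → Le x y

theorem isRow_iff (w : PlacticMonoid A) : IsRow w ↔ ∃ l, Sor l ∧ w = cls l := by
  constructor
  · intro h
    obtain ⟨l, rfl⟩ := cls_surj w
    refine ⟨l, ?_, rfl⟩
    have hc : l.IsChain (· ≤ ·) := by
      rw [List.isChain_iff_forall_rel_of_append_cons_cons]
      intro a b l₁ l₂ hl
      rw [← le_gen_iff]
      apply h (gen a) (gen b) (cls l₁) (cls l₂) ((isGen_iff _).2 ⟨a, rfl⟩)
        ((isGen_iff _).2 ⟨b, rfl⟩)
      rw [hl, cls_append, cls_cons, cls_cons]
      simp only [mul_assoc]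
    exact List.isChain_iff_pairwise.1 hc
  · rintro ⟨l, hl, rfl⟩ x y u v hx hy h
    obtain ⟨a, rfl⟩ := (isGen_iff _).1 hx
    obtain ⟨b, rfl⟩ := (isGen_iff _).1 hy
    obtain ⟨lu, rfl⟩ := cls_surj u
    obtain ⟨lv, rfl⟩ := cls_surj v
    rw [le_gen_iff]
    have h1 : cls l = cls (lu ++ [a, b] ++ lv) := by
      rw [h, cls_append, cls_append, cls_cons, cls_single]
      simp only [mul_assoc]
    have h2 := eq_of_cls_eq hl h1
    rw [h2, Sor, List.pairwise_append, List.pairwise_append] at hl
    have := hl.1.2.1
    simpa using this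

/-- `x` occurs in `w` -/
def Occ (x w : PlacticMonoid A) : Prop := ∃ u v, w = u * x * v

theorem occ_iff (a : A) {l : List A} (hl : Sor l) : Occ (gen a) (cls l) ↔ a ∈ l := by
  constructor
  · rintro ⟨u, v, h⟩
    obtain ⟨lu, rfl⟩ := cls_surj u
    obtain ⟨lv, rfl⟩ := cls_surj v
    have h1 : cls l = cls (lu ++ [a] ++ lv) := by
      rw [h, cls_append, cls_append, cls_single]
    have h2 := eq_of_cls_eq hl h1
    rw [h2]; simp
  · intro h
    obtain ⟨s, t, rfl⟩ := List.append_of_mem h
    exact ⟨cls s, cls t, by rw [cls_append, cls_cons, mul_assoc]⟩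

/-- `w` is a power of the generator `x` -/
def Pow (x w : PlacticMonoid A) : Prop := ∀ y, IsGen y → Occ y w → y = x

theorem pow_iff (a : A) (w : PlacticMonoid A) : Pow (gen a) w ↔ ∃ n : ℕ, w = gen a ^ n := by
  constructor
  · intro h
    obtain ⟨l, rfl⟩ := cls_surj w
    have h1 : ∀ b ∈ l, b = a := by
      intro b hb
      obtain ⟨s, t, rfl⟩ := List.append_of_mem hb
      apply gen_injective
      apply h (gen b) ((isGen_iff _).2 ⟨b, rfl⟩)
      exact ⟨cls s, cls t, by rw [cls_append, cls_cons, mul_assoc]⟩
    refine ⟨l.length, ?_⟩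
    rw [← cls_replicate, ← List.eq_replicate_of_mem h1]
  · rintro ⟨n, rfl⟩ y hy ho
    obtain ⟨b, rfl⟩ := (isGen_iff _).1 hy
    rw [← cls_replicate, occ_iff b (sor_replicate a n)] at ho
    rw [List.eq_of_mem_replicate ho]

/-- `X` is the block of the generator `x` in the row `w` -/
def Blk (x w X : PlacticMonoid A) : Prop :=
  Pow x X ∧ ∃ u v, w = u * X * v ∧ ¬ Occ x u ∧ ¬ Occ x v

theorem blk_iff (a : A) {l : List A} (hl : Sor l) (X : PlacticMonoid A) :
    Blk (gen a) (cls l) X ↔ X = gen a ^ (l.count a) := by
  constructor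
  · rintro ⟨h1, u, v, h2, h3, h4⟩
    obtain ⟨n, rfl⟩ := (pow_iff _ _).1 h1
    obtain ⟨lu, rfl⟩ := cls_surj u
    obtain ⟨lv, rfl⟩ := cls_surj v
    rw [← cls_replicate, ← cls_append, ← cls_append] at h2
    have h5 := eq_of_cls_eq hl h2
    rw [h5, Sor, List.pairwise_append, List.pairwise_append] at hl
    rw [occ_iff a hl.1.1] at h3
    rw [occ_iff a hl.2.1] at h4
    rw [h5, List.count_append, List.count_append, List.count_replicate_self,
      List.count_eq_zero_of_not_mem h3, List.count_eq_zero_of_not_mem h4]
    simp
  · rintro rfl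
    refine ⟨(pow_iff _ _).2 ⟨_, rfl⟩, ?_⟩
    have hsplit : l = l.filter (· < a) ++ List.replicate (l.count a) a ++ l.filter (a < ·) := by
      have hperm : (l.filter (· < a) ++ List.replicate (l.count a) a ++ l.filter (a < ·)).Perm
          l := by
        rw [List.perm_iff_count]
        intro b
        rw [List.count_append, List.count_append]
        rcases lt_trichotomy b a with h | h | h
        · rw [List.count_filter (by simpa using h),
            List.count_eq_zero_of_not_mem (l := List.replicate _ _)
              (fun hm => h.ne (List.eq_of_mem_replicate hm)),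
            List.count_eq_zero_of_not_mem (l := l.filter (a < ·))
              (fun hm => by simp at hm; exact absurd hm.2 (not_lt.2 h.le))]
          simp
        · subst h
          rw [List.count_replicate_self,
            List.count_eq_zero_of_not_mem (l := l.filter (· < b)) (by simp),
            List.count_eq_zero_of_not_mem (l := l.filter (b < ·)) (by simp)]
          simp
        · rw [List.count_filter (l := l) (p := fun x => decide (a < x)) (by simpa using h),
            List.count_eq_zero_of_not_mem (l := List.replicate _ _)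
              (fun hm => h.ne' (List.eq_of_mem_replicate hm)),
            List.count_eq_zero_of_not_mem (l := l.filter (· < a))
              (fun hm => by simp at hm; exact absurd hm.2 (not_lt.2 h.le))]
          simp
      refine (hperm.eq_of_pairwise' ?_ hl).symm
      rw [List.pairwise_append, List.pairwise_append]
      refine ⟨⟨hl.filter _, sor_replicate a _, ?_⟩, hl.filter _, ?_⟩
      · intro b hb c hc
        rw [List.eq_of_mem_replicate hc]
        simp at hb
        exact hb.2.le
      · intro b hb c hc
        simp only [List.mem_append, List.mem_filter, decide_eq_true_eq] at hb hc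
        rcases hb with hb | hb
        · exact (hb.2.trans hc.2).le
        · rw [List.eq_of_mem_replicate hb]; exact hc.2.le
    refine ⟨cls (l.filter (· < a)), cls (l.filter (a < ·)), ?_, ?_, ?_⟩
    · conv_lhs => rw [hsplit]
      rw [cls_append, cls_append, cls_replicate]
    · rw [occ_iff a (hl.filter _)]; simp
    · rw [occ_iff a (hl.filter _)]; simp

/-- `X` is a power of `x`, `Y` is a power of `y`, with the same exponent -/
def Same (x X y Y : PlacticMonoid A) : Prop :=
  (x = y ∧ X = Y) ∨ (x ≠ y ∧ Le x y ∧ Y * X * x = x * (Y * X) ∧ Y * X * y = y * (Y * X)) ∨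
    (x ≠ y ∧ Le y x ∧ X * Y * x = x * (X * Y) ∧ X * Y * y = y * (X * Y))

theorem comm_a {a b : A} (h : a < b) : (gen b * gen a) * gen a = gen a * (gen b * gen a) := by
  rw [← mul_assoc]; exact (knuth_xyx h.le).symm

theorem comm_b {a b : A} (h : a < b) : (gen b * gen a) * gen b = gen b * (gen b * gen a) := by
  rw [← mul_assoc]; exact knuth_yxy h

theorem pow_mul_pow {a b : A} (h : a < b) (n : ℕ) :
    gen b ^ n * gen a ^ n = (gen b * gen a) ^ n := by
  induction n with
  | zero => simp
  | succ n ih =>
    have hc : Commute (gen b * gen a) (gen a) := comm_a h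
    have h1 := (hc.pow_right n).eq
    calc gen b ^ (n + 1) * gen a ^ (n + 1)
        = gen b ^ n * ((gen b * gen a) * gen a ^ n) := by
          rw [pow_succ, pow_succ']; simp only [mul_assoc]
      _ = gen b ^ n * (gen a ^ n * (gen b * gen a)) := by rw [h1]
      _ = (gen b * gen a) ^ (n + 1) := by rw [← mul_assoc, ih, pow_succ]

theorem hasInc_two {a b : A} (h : a < b) {m n k : ℕ}
    (hk : HasInc k (List.replicate m b ++ List.replicate n a)) : k ≤ max m n := by
  obtain ⟨s, hs, hsor, rfl⟩ := hk
  obtain ⟨s1, s2, rfl, h1, h2⟩ := List.sublist_append_iff.1 hs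
  have e1 := h1.length_le
  have e2 := h2.length_le
  rw [List.length_replicate] at e1 e2
  rw [Sor, List.pairwise_append] at hsor
  cases s1 with
  | nil => simp; omega
  | cons c s1 =>
    cases s2 with
    | nil => simp at e1 ⊢; omega
    | cons d s2 =>
      exfalso
      have hc := List.eq_of_mem_replicate (h1.subset (List.mem_cons_self))
      have hd := List.eq_of_mem_replicate (h2.subset (List.mem_cons_self))
      have := hsor.2.2 c (List.mem_cons_self) d (List.mem_cons_self)
      rw [hc, hd] at this
      exact absurd this (not_le.2 h)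

theorem same_core {a b : A} (h : a < b) (m n : ℕ) :
    ((gen b ^ m * gen a ^ n) * gen a = gen a * (gen b ^ m * gen a ^ n) ∧
      (gen b ^ m * gen a ^ n) * gen b = gen b * (gen b ^ m * gen a ^ n)) ↔ n = m := by
  constructor
  · rintro ⟨h1, h2⟩
    have l1 : m ≤ n := by
      have e : cls (a :: (List.replicate m b ++ List.replicate n a)) =
          cls (List.replicate m b ++ List.replicate (n + 1) a) := by
        rw [cls_cons, cls_append, cls_append, cls_replicate, cls_replicate, cls_replicate,
          pow_succ, ← mul_assoc (gen b ^ m)]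
        exact h1.symm
      have hi : HasInc (m + 1) (a :: (List.replicate m b ++ List.replicate n a)) := by
        refine ⟨a :: List.replicate m b, ?_, ?_, by simp⟩
        · exact List.Sublist.cons_cons a (List.sublist_append_left _ _)
        · rw [Sor, List.pairwise_cons]
          refine ⟨?_, sor_replicate b m⟩
          intro c hc
          rw [List.eq_of_mem_replicate hc]; exact h.le
      have := hasInc_two h (hasInc_of_cls_eq e _ hi)
      omega
    have l2 : n ≤ m := by
      have e : cls (List.replicate m b ++ List.replicate n a ++ [b]) =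
          cls (List.replicate (m + 1) b ++ List.replicate n a) := by
        rw [cls_append, cls_append, cls_append, cls_replicate, cls_replicate, cls_replicate,
          cls_single, pow_succ', mul_assoc (gen b)]
        exact h2
      have hi : HasInc (n + 1) (List.replicate m b ++ List.replicate n a ++ [b]) := by
        refine ⟨List.replicate n a ++ [b], ?_, ?_, by simp⟩
        · exact List.Sublist.append (List.sublist_append_right _ _) (List.Sublist.refl _)
        · rw [Sor, List.pairwise_append]
          refine ⟨sor_replicate a n, by simp, ?_⟩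
          intro c hc d hd
          rw [List.eq_of_mem_replicate hc]
          simp at hd
          rw [hd]; exact h.le
      have := hasInc_two h (hasInc_of_cls_eq e _ hi)
      omega
    omega
  · rintro rfl
    rw [pow_mul_pow h]
    have c1 : Commute (gen b * gen a) (gen a) := comm_a h
    have c2 : Commute (gen b * gen a) (gen b) := comm_b h
    exact ⟨(c1.pow_left n).eq, (c2.pow_left n).eq⟩

theorem same_iff (a b : A) (m n : ℕ) :
    Same (gen a) (gen a ^ m) (gen b) (gen b ^ n) ↔ m = n := by
  unfold Same
  rcases lt_trichotomy a b with h | h | h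
  · have hne : gen a ≠ gen b := fun he => h.ne (gen_injective he)
    have hle : ¬ Le (gen b) (gen a) := by rw [le_gen_iff]; exact not_le.2 h
    have hle' : Le (gen a) (gen b) := by rw [le_gen_iff]; exact h.le
    simp only [hne, hle, hle', false_and, false_or, ne_eq, not_false_eq_true, true_and,
      or_false, and_false]
    exact same_core h n m
  · subst h
    simp only [true_and, ne_eq, not_true_eq_false, false_and, or_false]
    exact ⟨fun h => pow_injective a h, fun h => by rw [h]⟩
  · have hne : gen a ≠ gen b := fun he => h.ne' (gen_injective he)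
    have hle : ¬ Le (gen a) (gen b) := by rw [le_gen_iff]; exact not_le.2 h
    have hle' : Le (gen b) (gen a) := by rw [le_gen_iff]; exact h.le
    simp only [hne, hle, hle', false_and, false_or, ne_eq, not_false_eq_true, true_and,
      and_false]
    rw [and_comm, same_core h m n]
    exact eq_comm

/-! ### divisibility of exponents -/

/-- for the generator `c`, `U = c^m`, `V = c^k` with `m ≥ 1`: says `k ≥ 1` and `m` divides `k` -/
def DvdM (c U V : PlacticMonoid A) : Prop :=
  ∃ w, IsRow w ∧
    (∃ z Z, IsGen z ∧ Occ z w ∧ Blk z w Z ∧ Same c V z Z) ∧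
    ∀ y Y, IsGen y → Occ y w → Blk y w Y →
      (Same c U y Y ∨
        ∃ x X Z, IsGen x ∧ Occ x w ∧ Blk x w X ∧ Pow c Z ∧ Same c Z x X ∧ Same c (Z * U) y Y)

theorem dvdM_iff [Infinite A] (c : A) (m k : ℕ) (hm : 0 < m) :
    DvdM (gen c) (gen c ^ m) (gen c ^ k) ↔ 0 < k ∧ m ∣ k := by
  constructor
  · rintro ⟨w, hw, ⟨z, Z, hz, hzw, hZ, hs⟩, hall⟩
    obtain ⟨l, hl, rfl⟩ := (isRow_iff w).1 hw
    have key : ∀ n : ℕ, ∀ b : A, b ∈ l → l.count b = n → m ∣ n := by
      intro n
      induction n using Nat.strong_induction_on with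
      | _ n ih =>
        intro b hb hn
        rcases hall (gen b) (gen b ^ l.count b) ((isGen_iff _).2 ⟨b, rfl⟩)
          ((occ_iff b hl).2 hb) ((blk_iff b hl _).2 rfl) with h | h
        · rw [same_iff, hn] at h
          rw [h]
        · obtain ⟨x, X, Z', hx, hxw, hX, hZ', hs1, hs2⟩ := h
          obtain ⟨a, rfl⟩ := (isGen_iff _).1 hx
          rw [blk_iff a hl] at hX
          subst hX
          obtain ⟨j, rfl⟩ := (pow_iff _ _).1 hZ'
          rw [same_iff] at hs1
          rw [← pow_add, same_iff, hn] at hs2
          have h3 := ih j (by omega) a ((occ_iff a hl).1 hxw) hs1.symm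
          rw [← hs2]
          exact dvd_add h3 (dvd_refl m)
    obtain ⟨b, rfl⟩ := (isGen_iff _).1 hz
    rw [blk_iff b hl] at hZ
    subst hZ
    rw [same_iff] at hs
    have hb := (occ_iff b hl).1 hzw
    refine ⟨?_, key k b hb hs.symm⟩
    rw [hs]
    exact List.count_pos_iff.2 hb
  · rintro ⟨hk, q, rfl⟩
    have hq : 0 < q := Nat.pos_of_mul_pos_left hk
    let e := Infinite.natEmbedding A
    let s : Multiset A := ∑ i ∈ Finset.range q, Multiset.replicate (m * (i + 1)) (e i)
    have hcount : ∀ j, j < q → s.count (e j) = m * (j + 1) := by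
      intro j hj
      simp only [s]
      rw [Multiset.count_sum', Finset.sum_eq_single j]
      · rw [Multiset.count_replicate_self]
      · intro b _ hbj
        rw [Multiset.count_replicate, if_neg]
        intro h; exact hbj (e.injective h)
      · intro h; exact absurd (Finset.mem_range.2 hj) h
    have hmem : ∀ b, b ∈ s → ∃ j, j < q ∧ b = e j := by
      intro b hb
      simp only [s] at hb
      rw [Multiset.mem_sum] at hb
      obtain ⟨j, hj, hb⟩ := hb
      exact ⟨j, Finset.mem_range.1 hj, Multiset.eq_of_mem_replicate hb⟩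
    have hmem' : ∀ j, j < q → e j ∈ s := by
      intro j hj
      rw [← Multiset.count_pos, hcount j hj]
      positivity
    set l := s.sort (· ≤ ·) with hl
    have hsor : Sor l := by
      rw [hl]; exact Multiset.pairwise_sort s _
    have hls : (l : Multiset A) = s := Multiset.sort_eq s _
    have hlc : ∀ b, l.count b = s.count b := by
      intro b; rw [← hls, Multiset.coe_count]
    have hlm : ∀ b, b ∈ l ↔ b ∈ s := by
      intro b; rw [← hls, Multiset.mem_coe]
    refine ⟨cls l, (isRow_iff _).2 ⟨l, hsor, rfl⟩, ?_, ?_⟩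
    · refine ⟨gen (e (q - 1)), gen (e (q - 1)) ^ l.count (e (q - 1)), (isGen_iff _).2 ⟨_, rfl⟩,
        (occ_iff _ hsor).2 ((hlm _).2 (hmem' _ (by omega))), (blk_iff _ hsor _).2 rfl, ?_⟩
      rw [same_iff, hlc, hcount _ (by omega)]
      congr 1; omega
    · intro y Y hy hyl hY
      obtain ⟨b, rfl⟩ := (isGen_iff _).1 hy
      rw [blk_iff b hsor] at hY
      subst hY
      obtain ⟨j, hj, rfl⟩ := hmem b ((hlm _).1 ((occ_iff _ hsor).1 hyl))
      rcases Nat.eq_zero_or_pos j with rfl | hj0
      · left
        rw [same_iff, hlc, hcount _ hj]; simp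
      · right
        refine ⟨gen (e (j - 1)), gen (e (j - 1)) ^ l.count (e (j - 1)), gen c ^ (m * j),
          (isGen_iff _).2 ⟨_, rfl⟩, (occ_iff _ hsor).2 ((hlm _).2 (hmem' _ (by omega))),
          (blk_iff _ hsor _).2 rfl, (pow_iff _ _).2 ⟨_, rfl⟩, ?_, ?_⟩
        · rw [same_iff, hlc, hcount _ (by omega)]
          congr 1; omega
        · rw [← pow_add, same_iff, hlc, hcount _ hj]
          ring

end Pool.Agent.Helper78.Plactic
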