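import Mathlib
import Pool.Agent.Helper78.PlacticBasic
import Pool.Agent.Helper78.ArithLib

/-!
Arithmetic is definable in plactic monoids of infinite rank.
-/

set_option linter.style.haveILetI false

open Pool.Agent.Helper78.DefLib

namespace Pool.Agent.Helper78.Plactic

variable {A : Type} [LinearOrder A] {C : Type}

section terms

variable {Γ : Type} [Ctx (PlacticMonoid A) Γ] (con : C → A)

/-- terms of the plactic structure -/
abbrev TP (f : Γ → PlacticMonoid A) : Prop :=
  @T (sig C) (PlacticMonoid A) (placticStructure con) Γ _ f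

/-- definable predicates of the plactic structure -/
abbrev DP (P : Γ → Prop) : Prop :=
  @D (sig C) (PlacticMonoid A) (placticStructure con) Γ _ P

variable {con}

theorem tp_one : TP con (fun _ : Γ => (1 : PlacticMonoid A)) := by
  letI := placticStructure con
  exact T.const (L := sig C) (Sym.one : (sig C).Functions 0) (fun γ => rfl)

theorem tp_mul {f g : Γ → PlacticMonoid A} (hf : TP con f) (hg : TP con g) :
    TP con (fun γ => f γ * g γ) := by
  letI := placticStructure con
  exact T.func2 (L := sig C) hf hg (Sym.mul : (sig C).Functions 2) (fun γ => rfl)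

theorem tp_snd : TP con (fun p : Γ × PlacticMonoid A => p.2) := by
  letI := placticStructure con
  exact T.snd

theorem tp_fst {f : Γ → PlacticMonoid A} (hf : TP con f) :
    TP con (fun p : Γ × PlacticMonoid A => f p.1) := by
  letI := placticStructure con
  exact T.fst hf

theorem dp_eq {f g : Γ → PlacticMonoid A} (hf : TP con f) (hg : TP con g) :
    DP con (fun γ => f γ = g γ) := by
  letI := placticStructure con
  exact D.eq hf hg

theorem dp_imp {P Q : Γ → Prop} (hP : DP con P) (hQ : DP con Q) :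
    DP con (fun γ => P γ → Q γ) := by
  letI := placticStructure con
  exact D.imp hP hQ

theorem dp_false : DP con (fun _ : Γ => False) := by
  letI := placticStructure con
  exact D.false

theorem dp_not {P : Γ → Prop} (hP : DP con P) : DP con (fun γ => ¬ P γ) := by
  letI := placticStructure con
  exact D.not hP

theorem dp_and {P Q : Γ → Prop} (hP : DP con P) (hQ : DP con Q) :
    DP con (fun γ => P γ ∧ Q γ) := by
  letI := placticStructure con
  exact D.and hP hQ

theorem dp_or {P Q : Γ → Prop} (hP : DP con P) (hQ : DP con Q) :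
    DP con (fun γ => P γ ∨ Q γ) := by
  letI := placticStructure con
  exact D.or hP hQ

theorem dp_all {P : Γ → PlacticMonoid A → Prop}
    (hP : DP con (fun p : Γ × PlacticMonoid A => P p.1 p.2)) :
    DP con (fun γ => ∀ x, P γ x) := by
  letI := placticStructure con
  exact D.all hP

theorem dp_ex {P : Γ → PlacticMonoid A → Prop}
    (hP : DP con (fun p : Γ × PlacticMonoid A => P p.1 p.2)) :
    DP con (fun γ => ∃ x, P γ x) := by
  letI := placticStructure con
  exact D.ex hP

theorem dp_isGen {f : Γ → PlacticMonoid A} (hf : TP con f) :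
    DP con (fun γ => IsGen (f γ)) := by
  unfold IsGen
  exact dp_and (dp_not (dp_eq hf tp_one))
    (dp_all (dp_all (dp_imp (dp_eq (tp_fst (tp_fst hf)) (tp_mul (tp_fst tp_snd) tp_snd))
      (dp_or (dp_eq (tp_fst tp_snd) tp_one) (dp_eq tp_snd tp_one)))))

theorem dp_Le {f g : Γ → PlacticMonoid A} (hf : TP con f) (hg : TP con g) :
    DP con (fun γ => Le (f γ) (g γ)) := by
  unfold Le
  exact dp_eq (tp_mul (tp_mul hf hg) hf) (tp_mul (tp_mul hg hf) hf)

theorem dp_isRow {f : Γ → PlacticMonoid A} (hf : TP con f) :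
    DP con (fun γ => IsRow (f γ)) := by
  unfold IsRow
  refine dp_all (dp_all (dp_all (dp_all ?_)))
  exact dp_imp (dp_isGen (tp_fst (tp_fst (tp_fst tp_snd))))
    (dp_imp (dp_isGen (tp_fst (tp_fst tp_snd)))
      (dp_imp (dp_eq (tp_fst (tp_fst (tp_fst (tp_fst hf))))
        (tp_mul (tp_mul (tp_mul (tp_fst tp_snd) (tp_fst (tp_fst (tp_fst tp_snd))))
          (tp_fst (tp_fst tp_snd))) tp_snd))
        (dp_Le (tp_fst (tp_fst (tp_fst tp_snd))) (tp_fst (tp_fst tp_snd)))))

theorem dp_occ {f g : Γ → PlacticMonoid A} (hf : TP con f) (hg : TP con g) :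
    DP con (fun γ => Occ (f γ) (g γ)) := by
  unfold Occ
  exact dp_ex (dp_ex (dp_eq (tp_fst (tp_fst hg))
    (tp_mul (tp_mul (tp_fst tp_snd) (tp_fst (tp_fst hf))) tp_snd)))

theorem dp_pow {f g : Γ → PlacticMonoid A} (hf : TP con f) (hg : TP con g) :
    DP con (fun γ => Pow (f γ) (g γ)) := by
  unfold Pow
  exact dp_all (dp_imp (dp_isGen tp_snd) (dp_imp (dp_occ tp_snd (tp_fst hg))
    (dp_eq tp_snd (tp_fst hf))))

theorem dp_blk {f g h : Γ → PlacticMonoid A} (hf : TP con f) (hg : TP con g)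
    (hh : TP con h) : DP con (fun γ => Blk (f γ) (g γ) (h γ)) := by
  unfold Blk
  refine dp_and (dp_pow hf hh) (dp_ex (dp_ex ?_))
  exact dp_and (dp_eq (tp_fst (tp_fst hg))
      (tp_mul (tp_mul (tp_fst tp_snd) (tp_fst (tp_fst hh))) tp_snd))
    (dp_and (dp_not (dp_occ (tp_fst (tp_fst hf)) (tp_fst tp_snd)))
      (dp_not (dp_occ (tp_fst (tp_fst hf)) tp_snd)))

theorem dp_same {x X y Y : Γ → PlacticMonoid A} (hx : TP con x) (hX : TP con X)
    (hy : TP con y) (hY : TP con Y) :
    DP con (fun γ => Same (x γ) (X γ) (y γ) (Y γ)) := by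
  unfold Same
  exact dp_or (dp_and (dp_eq hx hy) (dp_eq hX hY))
    (dp_or
      (dp_and (dp_not (dp_eq hx hy)) (dp_and (dp_Le hx hy)
        (dp_and (dp_eq (tp_mul (tp_mul hY hX) hx) (tp_mul hx (tp_mul hY hX)))
          (dp_eq (tp_mul (tp_mul hY hX) hy) (tp_mul hy (tp_mul hY hX))))))
      (dp_and (dp_not (dp_eq hx hy)) (dp_and (dp_Le hy hx)
        (dp_and (dp_eq (tp_mul (tp_mul hX hY) hx) (tp_mul hx (tp_mul hX hY)))
          (dp_eq (tp_mul (tp_mul hX hY) hy) (tp_mul hy (tp_mul hX hY)))))))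

theorem dp_dvdM {c U V : Γ → PlacticMonoid A} (hc : TP con c) (hU : TP con U)
    (hV : TP con V) : DP con (fun γ => DvdM (c γ) (U γ) (V γ)) := by
  unfold DvdM
  refine dp_ex (dp_and (dp_isRow tp_snd) (dp_and (dp_ex (dp_ex ?_)) (dp_all (dp_all ?_))))
  · have z : TP con (fun p : ((Γ × PlacticMonoid A) × PlacticMonoid A) × PlacticMonoid A =>
      p.1.2) := tp_fst tp_snd
    have w : TP con (fun p : ((Γ × PlacticMonoid A) × PlacticMonoid A) × PlacticMonoid A =>
      p.1.1.2) := tp_fst (tp_fst tp_snd)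
    exact dp_and (dp_isGen z) (dp_and (dp_occ z w) (dp_and (dp_blk z w tp_snd)
      (dp_same (tp_fst (tp_fst (tp_fst hc))) (tp_fst (tp_fst (tp_fst hV))) z tp_snd)))
  · have y : TP con (fun p : ((Γ × PlacticMonoid A) × PlacticMonoid A) × PlacticMonoid A =>
      p.1.2) := tp_fst tp_snd
    have w : TP con (fun p : ((Γ × PlacticMonoid A) × PlacticMonoid A) × PlacticMonoid A =>
      p.1.1.2) := tp_fst (tp_fst tp_snd)
    refine dp_imp (dp_isGen y) (dp_imp (dp_occ y w) (dp_imp (dp_blk y w tp_snd)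
      (dp_or (dp_same (tp_fst (tp_fst (tp_fst hc))) (tp_fst (tp_fst (tp_fst hU))) y tp_snd)
        (dp_ex (dp_ex (dp_ex ?_))))))
    have hc6 := tp_fst (tp_fst (tp_fst (tp_fst (tp_fst (tp_fst hc)))))
    have hU6 := tp_fst (tp_fst (tp_fst (tp_fst (tp_fst (tp_fst hU)))))
    have w6 := tp_fst (tp_fst (tp_fst w))
    have y6 := tp_fst (tp_fst (tp_fst y))
    have hx := tp_fst (tp_fst (tp_snd (con := con)
      (Γ := (((Γ × PlacticMonoid A) × PlacticMonoid A) × PlacticMonoid A))))
    have hY := tp_fst (tp_fst (tp_fst (tp_snd (con := con)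
      (Γ := ((Γ × PlacticMonoid A) × PlacticMonoid A)))))
    exact dp_and (dp_isGen hx) (dp_and (dp_occ hx w6)
      (dp_and (dp_blk hx w6 (tp_fst tp_snd)) (dp_and (dp_pow hc6 tp_snd)
        (dp_and (dp_same hc6 tp_snd hx (tp_fst tp_snd))
          (dp_same hc6 (tp_mul tp_snd hU6) y6 hY)))))

end terms

/-! ### numbers -/

/-- values of the variables attached to an origin and numbers -/
def env {Γ : Type} [Ctx ℕ Γ] (a : A) (γ : Γ) : Fin (Ctx.n ℕ Γ + 1) → PlacticMonoid A :=
  Fin.cons (α := fun _ => PlacticMonoid A) (gen a) (fun i => gen a ^ Ctx.e γ i)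

/-- number predicates definable from an arbitrary origin -/
def DN (con : C → A) (Γ : Type) [Ctx ℕ Γ] (P : Γ → Prop) : Prop :=
  ∃ Q : (Fin (Ctx.n ℕ Γ + 1) → PlacticMonoid A) → Prop, DP con Q ∧
    ∀ a γ, Q (env a γ) ↔ P γ

theorem tp_pi (con : C → A) {n : ℕ} (i : Fin n) :
    TP con (fun v : Fin n → PlacticMonoid A => v i) := by
  letI := placticStructure con
  exact ⟨FirstOrder.Language.Term.var (Sum.inr i), fun v => rfl⟩

theorem env_zero {Γ : Type} [Ctx ℕ Γ] (a : A) (γ : Γ) : env a γ 0 = gen a := rfl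

theorem env_succ {Γ : Type} [Ctx ℕ Γ] (a : A) (γ : Γ) (i : Fin (Ctx.n ℕ Γ)) :
    env a γ i.succ = gen a ^ Ctx.e γ i := rfl

theorem env_snoc {Γ : Type} [Ctx ℕ Γ] (a : A) (γ : Γ) (k : ℕ) :
    env a ((γ, k) : Γ × ℕ) =
      Fin.snoc (α := fun _ => PlacticMonoid A) (env a γ) (gen a ^ k) := by
  unfold env
  refine Eq.trans ?_ (Fin.cons_snoc_eq_snoc_cons (gen a) (fun i => gen a ^ Ctx.e γ i) (gen a ^ k))
  congr 1
  funext i
  refine Fin.lastCases ?_ (fun j => ?_) i
  · rw [Fin.snoc_last]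
    exact congrArg (fun x => gen a ^ x) (Fin.snoc_last (α := fun _ => ℕ) k (Ctx.e γ))
  · rw [Fin.snoc_castSucc]
    exact congrArg (fun x => gen a ^ x) (Fin.snoc_castSucc (α := fun _ => ℕ) k (Ctx.e γ) j)

theorem dn_add_sys [Infinite A] (con : C → A) : AddSys (fun Γ _ P => DN con Γ P) where
  bot := fun Γ _ => ⟨fun _ => False, dp_false, fun _ _ => Iff.rfl⟩
  imp := by
    rintro Γ _ P Q ⟨P', hP, hP'⟩ ⟨Q', hQ, hQ'⟩
    exact ⟨fun v => P' v → Q' v, dp_imp hP hQ, fun a γ => by beta_reduce; rw [hP', hQ']⟩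
  all := by
    rintro Γ _ P ⟨P', hP, hP'⟩
    letI := placticStructure con
    refine ⟨fun v => ∀ x, Pow (v 0) x → P' (Fin.snoc (α := fun _ => PlacticMonoid A) v x),
      ?_, ?_⟩
    · have h1 : DP con (fun v : Fin (Ctx.n ℕ Γ + 1 + 1) → PlacticMonoid A =>
          Pow (v 0) (v (Fin.last _)) → P' v) :=
        dp_imp (dp_pow (tp_pi con 0) (tp_pi con _)) hP
      have h2 := D.all_pi h1
      refine D.congr h2 (fun v => ?_)
      refine forall_congr' fun x => ?_
      rw [Fin.snoc_last]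
      have : (Fin.snoc (α := fun _ => PlacticMonoid A) v x : Fin (Ctx.n ℕ Γ + 1 + 1) → _) 0 =
          v 0 := by
        exact Fin.snoc_castSucc (α := fun _ => PlacticMonoid A) x v 0
      rw [this]
    · intro a γ
      beta_reduce
      rw [env_zero]
      constructor
      · intro h k
        have h1 := h (gen a ^ k) ((pow_iff a _).2 ⟨k, rfl⟩)
        rw [← env_snoc] at h1
        exact (hP' a (γ, k)).1 h1
      · intro h x hx
        obtain ⟨k, rfl⟩ := (pow_iff a x).1 hx
        rw [← env_snoc]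
        exact (hP' a (γ, k)).2 (h k)
  rename := by
    rintro Γ Γ' _ _ r hr P ⟨P', hP, hP'⟩
    letI := placticStructure con
    choose k hk using hr
    let k' : Fin (Ctx.n ℕ Γ + 1) → Fin (Ctx.n ℕ Γ' + 1) := Fin.cons 0 (fun i => (k i).succ)
    refine ⟨fun v => P' (fun i => v (k' i)), ?_, ?_⟩
    · exact D.rename (r := fun (v : Fin (Ctx.n ℕ Γ' + 1) → PlacticMonoid A) i => v (k' i))
        (fun i => ⟨k' i, fun _ => rfl⟩) hP
    · intro a γ
      beta_reduce
      rw [← hP' a (r γ)]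
      have : (fun i => env a γ (k' i)) = env a (r γ) := by
        funext i
        refine Fin.cases ?_ (fun j => ?_) i
        · rfl
        · show env a γ (k j).succ = _
          rw [env_succ, env_succ, hk j γ]
      rw [this]
  eq := by
    rintro Γ _ f g ⟨i, hi⟩ ⟨j, hj⟩
    refine ⟨fun v => v i.succ = v j.succ, dp_eq (tp_pi con _) (tp_pi con _), ?_⟩
    intro a γ
    beta_reduce
    rw [env_succ, env_succ, hi, hj]
    exact ⟨fun h => pow_injective a h, fun h => by rw [h]⟩
  add := by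
    rintro Γ _ f g h ⟨i, hi⟩ ⟨j, hj⟩ ⟨k, hk⟩
    refine ⟨fun v => v i.succ * v j.succ = v k.succ,
      dp_eq (tp_mul (tp_pi con _) (tp_pi con _)) (tp_pi con _), ?_⟩
    intro a γ
    beta_reduce
    rw [env_succ, env_succ, env_succ, hi, hj, hk, ← pow_add]
    exact ⟨fun h => pow_injective a h, fun h => by rw [h]⟩

theorem dn_dvd [Infinite A] (con : C → A) {Γ : Type} [Ctx ℕ Γ] {f g : Γ → ℕ}
    (hf : IsVar ℕ f) (hg : IsVar ℕ g) : DN con Γ (fun γ => f γ ∣ g γ) := by
  obtain ⟨i, hi⟩ := hf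
  obtain ⟨j, hj⟩ := hg
  refine ⟨fun v => v j.succ = 1 ∨ (¬ v i.succ = 1 ∧ DvdM (v 0) (v i.succ) (v j.succ)),
    dp_or (dp_eq (tp_pi con _) tp_one) (dp_and (dp_not (dp_eq (tp_pi con _) tp_one))
      (dp_dvdM (tp_pi con _) (tp_pi con _) (tp_pi con _))), ?_⟩
  intro a γ
  beta_reduce
  rw [env_succ, env_succ, env_zero, hi, hj]
  have h1 : ∀ k : ℕ, gen a ^ k = 1 ↔ k = 0 :=
    fun k => ⟨fun h => pow_injective a (h.trans (pow_zero _).symm), fun h => by rw [h, pow_zero]⟩
  rw [h1, h1]
  rcases Nat.eq_zero_or_pos (f γ) with h0 | h0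
  · rw [h0]; simp [zero_dvd_iff]
  · rw [dvdM_iff a _ _ h0]
    rcases Nat.eq_zero_or_pos (g γ) with h2 | h2
    · rw [h2]; simp
    · simp only [h2, true_and]
      constructor
      · rintro (h | h)
        · omega
        · exact h.2
      · intro h; exact Or.inr ⟨by omega, h⟩

theorem dn_sys [Infinite A] (con : C → A) : ArithSys (fun Γ _ P => DN con Γ P) where
  toAddSys := dn_add_sys con
  mul := fun hf hg hh => (dn_add_sys con).mul_of_dvd (dn_dvd con) hf hg hh

end Pool.Agent.Helper78.Plactic
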