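import Mathlib
import Pool.Agent.Helper78.PlacticDef

/-!
Undecidability of the first-order theory of plactic monoids of infinite rank.
-/

set_option linter.style.haveILetI false

open Pool.Agent.Helper78.DefLib

namespace Pool.Agent.Helper78.Plactic

variable {A : Type} [LinearOrder A] {C : Type}

/-- the halting set -/
def Halts (e : ℕ) : Prop := (Nat.Partrec.Code.eval (Denumerable.ofNat Nat.Partrec.Code e) 0).Dom

theorem partrec_halts :
    Nat.Partrec (fun e : ℕ => Nat.Partrec.Code.eval (Denumerable.ofNat Nat.Partrec.Code e) 0) := by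
  have h : Partrec (fun e : ℕ =>
      Nat.Partrec.Code.eval (Denumerable.ofNat Nat.Partrec.Code e) 0) :=
    Nat.Partrec.Code.eval_part.comp (Computable.ofNat Nat.Partrec.Code) (Computable.const 0)
  exact Partrec.nat_iff.1 h

theorem dn_halts [Infinite A] (con : C → A) : DN con (Unit × ℕ) (fun p => Halts p.2) := by
  have S := dn_sys con
  refine S.congr (S.ex (P := fun (p : Unit × ℕ) y =>
    y ∈ Nat.Partrec.Code.eval (Denumerable.ofNat Nat.Partrec.Code p.2) 0)
    (S.partrec partrec_halts (S.df_var IsVar.snd.fst) (S.df_var IsVar.snd))) (fun p => ?_)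
  exact Part.dom_iff_mem.symm

/-- power term -/
def pw (C : Type) : ℕ → (sig C).Term (Empty ⊕ Fin 2)
  | 0 => .func (l := 0) (Sym.one : (sig C).Functions 0) (fun i => i.elim0)
  | e + 1 => .func (l := 2) (Sym.mul : (sig C).Functions 2) ![pw C e, .var (.inr 0)]

theorem realize_pw (con : C → A) (e : ℕ) (v : Empty ⊕ Fin 2 → PlacticMonoid A) :
    @FirstOrder.Language.Term.realize (sig C) (PlacticMonoid A) (placticStructure con) _ v
      (pw C e) = v (.inr 0) ^ e := by
  letI := placticStructure con
  induction e with
  | zero => exact (pow_zero _).symm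
  | succ e ih =>
    rw [pow_succ, ← ih]
    rfl

/-- the sentence saying that `e` is in the halting set -/
def sent {C : Type} (G : (sig C).BoundedFormula Empty 1) (φ : (sig C).BoundedFormula Empty 2)
    (e : ℕ) : (sig C).Sentence :=
  .all (.imp G (.all (.imp (.equal (.var (.inr 1)) (pw C e)) φ)))

/-- code of the power term -/
def pwCode : ℕ → ℕ
  | 0 => Nat.pair 1 0
  | e + 1 => Nat.pair 3 (Nat.pair (pwCode e) (Nat.pair 0 0))

theorem termCode_pw (C : Type) [Encodable C] (e : ℕ) : termCode (pw C e) = pwCode e := by
  induction e with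
  | zero => rfl
  | succ e ih =>
    rw [pwCode, ← ih]
    rfl

theorem primrec_pwCode : Primrec pwCode := by
  have h : Primrec (fun e : ℕ => Nat.rec (motive := fun _ => ℕ) (Nat.pair 1 0)
      (fun _ r => Nat.pair 3 (Nat.pair r (Nat.pair 0 0))) e) := by
    refine Primrec.nat_rec₁ _ ?_
    exact Primrec₂.natPair.comp (Primrec.const 3)
      (Primrec₂.natPair.comp Primrec.snd (Primrec.const _))
  refine h.of_eq (fun e => ?_)
  induction e with
  | zero => rfl
  | succ e ih => rw [pwCode, ← ih]

theorem code_sent {C : Type} [Encodable C] (G : (sig C).BoundedFormula Empty 1)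
    (φ : (sig C).BoundedFormula Empty 2) (e : ℕ) :
    formulaCode (sent G φ e) = Nat.pair 3 (Nat.pair 2 (Nat.pair (formulaCode G)
      (Nat.pair 3 (Nat.pair 2 (Nat.pair (Nat.pair 1 (Nat.pair (Nat.pair 0 1) (pwCode e)))
        (formulaCode φ)))))) := by
  rw [← termCode_pw C]
  rfl

theorem primrec_code_sent {C : Type} [Encodable C] (G : (sig C).BoundedFormula Empty 1)
    (φ : (sig C).BoundedFormula Empty 2) : Primrec (fun e => formulaCode (sent G φ e)) := by
  have h : Primrec (fun e : ℕ => Nat.pair 3 (Nat.pair 2 (Nat.pair (formulaCode G)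
      (Nat.pair 3 (Nat.pair 2 (Nat.pair (Nat.pair 1 (Nat.pair (Nat.pair 0 1) (pwCode e)))
        (formulaCode φ))))))) := by
    have c : ∀ k : ℕ, Primrec (fun _ : ℕ => k) := fun k => Primrec.const k
    exact Primrec₂.natPair.comp (c _) (Primrec₂.natPair.comp (c _)
      (Primrec₂.natPair.comp (c _) (Primrec₂.natPair.comp (c _) (Primrec₂.natPair.comp (c _)
        (Primrec₂.natPair.comp (Primrec₂.natPair.comp (c _)
          (Primrec₂.natPair.comp (c _) primrec_pwCode)) (c _))))))
  exact h.of_eq (fun e => (code_sent G φ e).symm)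

/-- The first-order theory of a plactic monoid of infinite rank is undecidable. -/
theorem undecidable [Infinite A] [Encodable C] (con : C → A) : ¬ TheoryDecidable con := by
  rintro ⟨d, hd, hdec⟩
  letI := placticStructure con
  -- the formula for generators
  obtain ⟨G, hG⟩ : DP con (fun p : Unit × PlacticMonoid A => IsGen p.2) := dp_isGen tp_snd
  obtain ⟨Q, hQ, hQ'⟩ := dn_halts con
  obtain ⟨φ, hφ⟩ := hQ
  have hsent : ∀ e, (PlacticMonoid A) ⊨ sent (C := C) G φ e ↔ Halts e := by
    intro e
    obtain ⟨a₀⟩ : Nonempty A := inferInstance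
    have h1 : (PlacticMonoid A) ⊨ sent (C := C) G φ e ↔
        ∀ x : PlacticMonoid A, IsGen x → ∀ y : PlacticMonoid A, y = x ^ e →
          φ.Realize (fun z : Empty => z.elim) (![x, y] : Fin 2 → PlacticMonoid A) := by
      refine forall_congr' fun x => imp_congr ?_ (forall_congr' fun y => imp_congr ?_ ?_)
      · refine Iff.trans (iff_of_eq ?_) (hG ((), x))
        refine congrArg₂ _ (Subsingleton.elim _ _) ?_
        funext i
        have : i = Fin.last 0 := by
          apply Fin.ext
          have := i.isLt
          simp only [Fin.val_last]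
          omega
        subst this
        exact (Fin.snoc_last (α := fun _ => PlacticMonoid A) _ _).trans
          (Fin.snoc_last (α := fun _ => PlacticMonoid A) _ _).symm
      · refine (FirstOrder.Language.BoundedFormula.realize_bdEqual _ _).trans ?_
        rw [realize_pw con]
        exact Iff.rfl
      · refine iff_of_eq (congrArg₂ _ (Subsingleton.elim _ _) ?_)
        funext i
        fin_cases i
        · rfl
        · rfl
    have henv : ∀ a : A, (env a (((), e) : Unit × ℕ) : Fin 2 → PlacticMonoid A) =
        ![gen a, gen a ^ e] := by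
      intro a
      funext i
      fin_cases i
      · rfl
      · rfl
    rw [h1]
    constructor
    · intro h
      have h2 := h (gen a₀) ((isGen_iff _).2 ⟨a₀, rfl⟩) _ rfl
      rw [← henv a₀] at h2
      exact (hQ' a₀ ((), e)).1 ((hφ _).1 h2)
    · intro h x hx y hy
      obtain ⟨a, rfl⟩ := (isGen_iff _).1 hx
      subst hy
      rw [← henv a]
      exact (hφ _).2 ((hQ' a ((), e)).2 h)
  have hcomp : ComputablePred (fun c : Nat.Partrec.Code => (Nat.Partrec.Code.eval c 0).Dom) := by
    rw [ComputablePred.computable_iff]
    refine ⟨fun c => d (formulaCode (sent (C := C) G φ (Encodable.encode c))), ?_, ?_⟩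
    · exact hd.comp ((primrec_code_sent G φ).to_comp.comp Computable.encode)
    · funext c
      apply propext
      have h1 := (hdec (sent (C := C) G φ (Encodable.encode c))).trans
        (hsent (Encodable.encode c))
      rw [h1, Halts, Denumerable.ofNat_encode]
  exact ComputablePred.halting_problem 0 hcomp

end Pool.Agent.Helper78.Plactic
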